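import Pool.Agent.MP_d50107_co.P61.Spec

/-! Row Asm: families with prescribed fibres. -/

namespace Pool.Agent.MP_d50107_co.P61

open Finset
open scoped FinsetFamily
open Pool.Agent.MP_d50107_co.H54 (IsInit)
open Pool.Agent.MP_d50107_co.H61

namespace Asm

theorem mem_low {X T : Finset ℕ} {s : ℕ} : T ∈ low X s ↔ T ⊆ X ∧ T.card < s := by simp [low]

theorem mem_upp {X T : Finset ℕ} {s : ℕ} : T ∈ upp X s ↔ T ⊆ X ∧ s ≤ T.card := by simp [upp]

theorem cover {𝒜 S : Finset (Finset ℕ)} {b : ℕ}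
    (h : ∀ g ∈ S, ∃ J, IsInit 𝒜 J ∧ J.card ≤ b ∧ g ∈ J) : S.card ≤ b := by
  obtain ⟨L, h1, h2⟩ := H54.exists_isInit 𝒜 (min b 𝒜.card) (min_le_right _ _)
  refine (card_le_card fun g hg => ?_).trans (h2.le.trans (min_le_left _ _))
  obtain ⟨J, k1, k2, k3⟩ := h g hg
  exact Upper.nest k1 h1 (h2 ▸ le_min k2 (card_le_card k1.1)) k3

theorem upp_zero {w n s : ℕ} {G : Finset (Finset ℕ)}
    (h : ∀ A ∈ G, (A.filter fun y => w ≤ y).card < s) :
    ∑ T ∈ upp (Ico w n) s, (fib w G T).card = 0 :=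
  sum_eq_zero fun T hT => card_eq_zero.2 (eq_empty_of_forall_notMem fun g hg => by
    have := h _ (mem_fib.1 hg).2
    rw [filter_union_tail (Seg.out_Ico (mem_upp.1 hT).1) (mem_fib.1 hg).1] at this
    exact this.not_ge (mem_upp.1 hT).2)

theorem tail_sub {w n : ℕ} {A : Finset ℕ} (h : A ⊆ range n) :
    (A.filter fun y => w ≤ y) ⊆ Ico w n := fun _ hy =>
  mem_Ico.2 ⟨(mem_filter.1 hy).2, mem_range.1 (h (mem_filter.1 hy).1)⟩

end Asm

open Asm in
theorem asmStmt (hC : CN) : AsmStmt := by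
  intro n w k s f b hw hs h1 h2
  have e : ∀ T : Finset ℕ, ∃ L, T ∈ low (Ico w n) s →
      IsInit (powersetCard (k - T.card) (range w)) L ∧ L.card = f T := fun T => by
    by_cases h : T ∈ low (Ico w n) s
    · obtain ⟨L, hL⟩ := H54.exists_isInit (powersetCard (k - T.card) (range w)) (f T) (by
        rw [card_powersetCard, card_range]
        exact (h1 T h).1)
      exact ⟨L, fun _ => hL⟩
    · exact ⟨∅, fun k => absurd k h⟩
  choose I hI using e
  have hI' : ∀ T ∈ low (Ico w n) s, ∀ g ∈ I T, g ⊆ range w ∧ g.card = k - T.card :=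
    fun T hT g hg => mem_powersetCard.1 ((hI T hT).1.1 hg)
  obtain ⟨G, hG⟩ : ∃ G : Finset (Finset ℕ), ∀ A, A ∈ G ↔
      ∃ T ∈ low (Ico w n) s, ∃ g ∈ I T, g ∪ T = A :=
    ⟨(low (Ico w n) s).biUnion fun T => (I T).image (· ∪ T), fun A => by simp⟩
  have g1 : ∀ A ∈ G, A ⊆ range n ∧ A.card = k ∧ (A.filter fun y => w ≤ y).card < s := by
    intro A hA
    obtain ⟨T, hT, g, hg, rfl⟩ := (hG A).1 hA
    obtain ⟨a1, a2⟩ := hI' T hT g hg
    obtain ⟨a3, a4⟩ := mem_low.1 hT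
    refine ⟨union_subset (a1.trans (range_mono hw)) fun y hy => mem_range.2 (mem_Ico.1 (a3 hy)).2,
      ?_, ?_⟩
    · rw [card_union_of_disjoint ((Seg.out_Ico a3).disjoint a1)]
      omega
    · rwa [filter_union_tail (Seg.out_Ico a3) a1]
  have g2 : ∀ T, Out w T → ∀ g ∈ fib w G T, T ∈ low (Ico w n) s ∧ g ∈ I T := by
    intro T hT g hg
    obtain ⟨a1, a2⟩ := mem_fib.1 hg
    obtain ⟨T', hT', g', hg', e⟩ := (hG _).1 a2
    have o := Seg.out_Ico (mem_low.1 hT').1
    have a3 := (hI' T' hT' g' hg').1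
    have e1 : T' = T := by rw [← filter_union_tail o a3, e, filter_union_tail hT a1]
    have e2 : g' = g := by rw [← Seg.filter_head o a3, e, Seg.filter_head hT a1]
    subst e1 e2
    exact ⟨hT', hg'⟩
  have g3 : ∀ T ∈ low (Ico w n) s, fib w G T = I T := fun T hT =>
    Subset.antisymm (fun g hg => (g2 T (Seg.out_Ico (mem_low.1 hT).1) g hg).2) fun g hg =>
      mem_fib.2 ⟨(hI' T hT g hg).1, (hG _).2 ⟨T, hT, g, hg, rfl⟩⟩
  refine ⟨G, g1, fun T hT => g3 T hT ▸ hI T hT, ?_, ?_⟩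
  · rw [← hC.total w n s G fun A hA => (g1 A hA).1, upp_zero fun A hA => (g1 A hA).2.2, add_zero]
    exact sum_congr rfl fun T hT => by rw [g3 T hT, (hI T hT).2]
  have d1 : ∀ B ∈ ∂ G, ∃ A ∈ G, B ⊆ A := fun B hB => by
    obtain ⟨A, hA, x, -, rfl⟩ := mem_shadow_iff.1 hB
    exact ⟨A, hA, erase_subset _ _⟩
  rw [← hC.total w n s (∂ G) fun B hB => (d1 B hB).elim fun A hA => hA.2.trans (g1 A hA.1).1,
    upp_zero fun B hB => (d1 B hB).elim fun A hA =>
      (card_le_card (filter_subset_filter _ hA.2)).trans_lt (g1 A hA.1).2.2, add_zero]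
  refine sum_le_sum fun T hT => ?_
  obtain ⟨t1, t2⟩ := mem_low.1 hT
  have o := Seg.out_Ico t1
  obtain ⟨l, hl⟩ : ∃ l, k - T.card = l + 1 := ⟨k - T.card - 1, by omega⟩
  refine cover (𝒜 := powersetCard l (range w)) fun g hg => ?_
  obtain ⟨a1, a2⟩ := mem_fib.1 hg
  obtain ⟨x, x1, x2⟩ := mem_shadow_iff_insert_mem.1 a2
  rw [mem_union, not_or] at x1
  rcases lt_or_ge x w with hx | hx
  · have a3 := hI T hT
    have a4 := (h1 T hT).2
    rw [hl] at a3 a4
    obtain ⟨a5, a6⟩ := initStmt w l _ a3.1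
    refine ⟨_, a6, by rwa [a5, a3.2], mem_shadow_iff_insert_mem.2 ⟨x, x1.1, ?_⟩⟩
    refine (g2 T o _ (mem_fib.2 ⟨insert_subset (mem_range.2 hx) a1, ?_⟩)).2
    rwa [insert_union]
  · obtain ⟨a3, a4⟩ := g2 _ (o.insert hx) g (mem_fib.2 ⟨a1, by rwa [union_insert]⟩)
    have a5 := hI _ a3
    have a6 := h2 _ a3 x (mem_insert_self _ _)
    rw [card_insert_of_notMem x1.2, show k - (T.card + 1) = l by omega] at a5
    rw [erase_insert x1.2] at a6
    exact ⟨_, a5.1, a5.2 ▸ a6, a4⟩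

open Asm in
theorem upStmt (hC : CN) (hA : AsmStmt) : UpStmt := by
  intro n a s g M ha hn hM hg
  set X := Ico (2 * a + 1) n with hX
  have n1 : NN a ≤ (2 * a).choose a := Nat.choose_le_choose _ (by omega)
  have n2 : CC a = (2 * a).choose a + (2 * a).choose (a + 1) := Nat.choose_succ_succ' _ _
  have n3 : (2 * a).choose a ≤ (2 * a + 1).choose a := Nat.choose_le_choose _ (by omega)
  have n4 : ∀ T, T ⊆ X → T.card = s + 1 → g T ≤ NN a := fun T t1 t2 => by
    obtain ⟨U, u1, u2⟩ := exists_subset_card_eq (s := X \ T) (n := s) (by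
      rw [card_sdiff_of_subset t1, hX, Nat.card_Ico]
      omega)
    have u3 := mem_powersetCard.2 ⟨u1.trans sdiff_subset, u2⟩
    exact (hg T (mem_powersetCard.2 ⟨t1, t2⟩) U u3
      (disjoint_sdiff.mono_right u1)).trans (hM U u3)
  obtain ⟨f, f1, f2, f3⟩ : ∃ f : Finset ℕ → ℕ,
      (∀ T, T.card < s → f T = (2 * a + 1).choose (a + s + 1 - T.card)) ∧
      (∀ T, T.card = s → f T = CC a - M T) ∧ ∀ T, T.card = s + 1 → f T = g T :=
    ⟨fun T => if T.card < s then (2 * a + 1).choose (a + s + 1 - T.card) else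
      if T.card = s then CC a - M T else g T, fun T h => if_pos h,
      fun T h => by simp [h], fun T h => by simp [h]⟩
  obtain ⟨b, b1, b2, b3⟩ : ∃ b : Finset ℕ → ℕ,
      (∀ T, T.card < s → b T = (2 * a + 1).choose (a + s - T.card)) ∧
      (∀ T, T.card = s → b T = kk (a + 1) (CC a - M T)) ∧ ∀ T, T.card = s + 1 → b T = kk a (g T) :=
    ⟨fun T => if T.card < s then (2 * a + 1).choose (a + s - T.card) else
      if T.card = s then kk (a + 1) (CC a - M T) else kk a (g T), fun T h => if_pos h,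
      fun T h => by simp [h], fun T h => by simp [h]⟩
  have c1 : ∀ T ∈ low X (s + 2), f T ≤ (2 * a + 1).choose (a + s + 1 - T.card) ∧
      kk (a + s + 1 - T.card) (f T) ≤ b T := fun T hT => by
    obtain ⟨t1, t2⟩ := mem_low.1 hT
    rcases lt_trichotomy T.card s with h | h | h
    · rw [f1 T h, b1 T h, show a + s + 1 - T.card = a + s - T.card + 1 by omega]
      refine ⟨le_rfl, ?_⟩
      rcases le_or_gt (a + s - T.card + 1) (2 * a + 1) with k | k
      · rw [kk_choose k]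
      · rw [Nat.choose_eq_zero_of_lt k, kk_zero]
        exact Nat.zero_le _
    · rw [f2 T h, b2 T h, show a + s + 1 - T.card = a + 1 by omega]
      exact ⟨Nat.sub_le _ _, le_rfl⟩
    · have h' : T.card = s + 1 := by omega
      rw [f3 T h', b3 T h', show a + s + 1 - T.card = a by omega]
      exact ⟨(n4 T t1 h').trans (n1.trans n3), le_rfl⟩
  obtain ⟨G, g1, g2, g3, g4⟩ := hA n (2 * a + 1) (a + s + 1) (s + 2) f b (by omega) (by omega) c1
    fun T hT x hx => by
      obtain ⟨t1, t2⟩ := mem_low.1 hT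
      have e := card_erase_add_one hx
      rcases le_or_gt T.card s with h | h
      · rw [b1 _ (by omega), show a + s - (T.erase x).card = a + s + 1 - T.card by omega]
        exact (c1 T hT).1
      · have h' : T.card = s + 1 := by omega
        have u := hM _ (mem_powersetCard.2 ⟨(erase_subset x T).trans t1, by omega⟩)
        rw [f3 T h', b2 _ (by omega)]
        refine (n4 T t1 h').trans (n1.trans ?_)
        rw [← kk_choose (l := a) (x := 2 * a) (by omega)]
        exact hKN.mono _ _ _ (by omega)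
  have p : ∀ A ∈ G, ∃ T h, T ⊆ X ∧ T.card < s + 2 ∧ h ∈ fib (2 * a + 1) G T ∧
      h ⊆ range (2 * a + 1) ∧ h.card + T.card = a + s + 1 ∧ h ⊆ A ∧ T ⊆ A := fun A hA => by
    have m : (A.filter fun y => y < 2 * a + 1) ∈ fib (2 * a + 1) G
        (A.filter fun y => 2 * a + 1 ≤ y) :=
      mem_fib.2 ⟨Seg.head_subset _ _, by rwa [Seg.split]⟩
    exact ⟨_, _, tail_sub (g1 A hA).1, (g1 A hA).2.2, m, Seg.head_subset _ _,
      card_of_mem_fib (fun A hA => (g1 A hA).2.1) (Seg.out_tail _ _) m, filter_subset _ _,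
      filter_subset _ _⟩
  have q1 : ∀ T, T ⊆ X → T.card = s + 1 →
      IsInit (powersetCard a (range (2 * a + 1))) (fib (2 * a + 1) G T) ∧
        (fib (2 * a + 1) G T).card = g T := fun T t1 t2 => by
    have := g2 T (mem_low.2 ⟨t1, by omega⟩)
    rwa [f3 T t2, show a + s + 1 - T.card = a by omega] at this
  have q2 : ∀ T, T ⊆ X → T.card = s + 1 → ∀ h ∈ fib (2 * a + 1) G T, h ⊆ range (2 * a - 1) :=
    fun T t1 t2 h hh => (mem_powersetCard.1 (Upper.nest (q1 T t1 t2).1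
      (Upper.init_range (v := 2 * a - 1) (by omega)) (by
        rw [(q1 T t1 t2).2, card_powersetCard, card_range]
        exact n4 T t1 t2) hh)).1
  have q3 : ∀ T U, T ⊆ X → T.card = s + 1 → U ⊆ X → U.card = s → Disjoint T U →
      ∀ h ∈ fib (2 * a + 1) G T, ∀ h' ∈ fib (2 * a + 1) G U, ∃ x, x ∈ h' ∧ x ∈ h := by
    intro T U t1 t2 u1 u2 d h hh h' hh'
    have u3 := mem_powersetCard.2 ⟨u1, u2⟩
    obtain ⟨J, j1, j2⟩ := H54.exists_isInit (powersetCard a (range (2 * a + 1))) (M U) (by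
      rw [card_powersetCard, card_range]
      exact (hM U u3).trans (n1.trans n3))
    have k := g2 U (mem_low.2 ⟨u1, by omega⟩)
    rw [f2 U u2, show a + s + 1 - U.card = a + 1 by omega] at k
    have j3 : _ = CC a := Upper.dual_card j1.1
    refine Upper.cross j1.1 (Upper.nest k.1 (Upper.dual_init j1) (by omega) hh')
      (Upper.nest (q1 T t1 t2).1 j1 ?_ hh)
    rw [(q1 T t1 t2).2, j2]
    exact hg T (mem_powersetCard.2 ⟨t1, t2⟩) U u3 d
  have q4 : ∀ A B T U h h', T ⊆ X → T.card = s + 1 → U ⊆ X → U.card = s →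
      h ∈ fib (2 * a + 1) G T → h' ∈ fib (2 * a + 1) G U → h ⊆ A → T ⊆ A → h' ⊆ B → U ⊆ B →
      ∃ x, x ∈ A ∧ x ∈ B := by
    intro A B T U h h' t1 t2 u1 u2 m m' s1 s2 s3 s4
    by_cases d : Disjoint T U
    · obtain ⟨x, x1, x2⟩ := q3 T U t1 t2 u1 u2 d h m h' m'
      exact ⟨x, s1 x2, s3 x1⟩
    · obtain ⟨x, x1, x2⟩ := not_disjoint_iff.1 d
      exact ⟨x, s2 x1, s4 x2⟩
  refine ⟨G, fun A hA => (g1 A hA).1, fun A hA => (g1 A hA).2.1, fun A hA B hB => ?_, ?_, ?_⟩
  · obtain ⟨T, h, t1, t2, t3, t4, t5, t6, t7⟩ := p A hA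
    obtain ⟨U, h', u1, u2, u3, u4, u5, u6, u7⟩ := p B hB
    rcases le_or_gt (T.card + U.card) (2 * s) with k | k
    · obtain ⟨x, x1, x2⟩ := Upper.meet t4 u4 (by omega)
      exact ⟨x, t6 x1, u6 x2⟩
    by_cases k1 : T.card = s + 1
    · by_cases k2 : U.card = s + 1
      · obtain ⟨x, x1, x2⟩ := Upper.meet (q2 T t1 k1 h t3) (q2 U u1 k2 h' u3) (by omega)
        exact ⟨x, t6 x1, u6 x2⟩
      · exact q4 A B T U h h' t1 k1 u1 (by omega) t3 u3 t6 t7 u6 u7
    · obtain ⟨x, x1, x2⟩ := q4 B A U T h' h u1 (by omega) t1 (by omega) u3 t3 u6 u7 t6 t7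
      exact ⟨x, x2, x1⟩
  · rw [g3, hC.low_succ, hC.low_succ, hC.low_succ,
      sum_congr rfl fun T hT => f1 T (mem_low.1 hT).2,
      sum_congr rfl fun T hT => f3 T (mem_powersetCard.1 hT).2, add_right_comm,
      add_assoc (∑ _ ∈ low _ s, _), ← hX, ← sum_add_distrib]
    congr 2
    refine sum_congr rfl fun T hT => ?_
    have := hM T hT
    rw [f2 T (mem_powersetCard.1 hT).2, (mem_powersetCard.1 hT).2,
      show a + s + 1 - s = a + 1 by omega, Nat.sub_add_cancel (by omega)]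
    rfl
  · rwa [hC.low_succ, hC.low_succ, sum_congr rfl fun T hT => b1 T (mem_low.1 hT).2,
      sum_congr rfl fun T hT => b2 T (mem_powersetCard.1 hT).2,
      sum_congr rfl fun T hT => b3 T (mem_powersetCard.1 hT).2] at g4

end Pool.Agent.MP_d50107_co.P61
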