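import Pool.Agent.MP_d50107_co.P61.Spec

/-! Adding a product block on new points; the excess of the first candidate. -/

namespace Pool.Agent.MP_d50107_co.P61

open Finset
open scoped FinsetFamily
open Pool.Agent.MP_d50107_co.H54 (IsInit)
open Pool.Agent.MP_d50107_co.H61

theorem blockStmt : BlockStmt := by
  intro n a s y v G L hs hy hn hG hL hc
  let P : ℕ → ℕ → Finset (Finset ℕ) := fun i j =>
    image₂ (· ∪ ·) (powersetCard i (range y)) (powersetCard j (Ico n (n + v)))
  have h0 : ∀ {A B : Finset ℕ} {x : ℕ}, A ⊆ range y → B ⊆ Ico n (n + v) → x ∈ A → x ∉ B :=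
    fun hA hB h1 h2 => by
      have := mem_range.1 (hA h1)
      have := mem_Ico.1 (hB h2)
      omega
  have h1 : ∀ i j, (P i j).card = y.choose i * v.choose j := fun i j => by
    rw [card_image₂_iff.2, card_powersetCard, card_powersetCard, card_range, Nat.card_Ico,
      Nat.add_sub_cancel_left]
    rintro ⟨A, B⟩ ⟨hA, hB⟩ ⟨A', B'⟩ ⟨hA', hB'⟩ e
    have a1 := (mem_powersetCard.1 hA).1
    have a2 := (mem_powersetCard.1 hA').1
    have b1 := (mem_powersetCard.1 hB).1
    have b2 := (mem_powersetCard.1 hB').1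
    refine Prod.ext (Finset.ext fun x => ?_) (Finset.ext fun x => ?_) <;>
    · have := Finset.ext_iff.1 e x
      have := @h0 _ _ x a1 b2
      have := @h0 _ _ x a2 b1
      simp only [mem_union] at *
      tauto
  have h2 : AF n (a + s) a ⊆ AF (n + v) (a + s) a := fun A hA =>
    Lift.mem_AF.2 ⟨(Lift.mem_AF.1 hA).1.trans (range_mono (by omega)), (Lift.mem_AF.1 hA).2⟩
  have h3 : P (a + 1) s ⊆ AF (n + v) (a + s) a := fun C hC => by
    obtain ⟨A, hA, B, hB, rfl⟩ := mem_image₂.1 hC
    rw [mem_powersetCard] at hA hB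
    refine Lift.mem_AF.2 ⟨union_subset (hA.1.trans (range_mono (by omega))) fun x hx =>
      mem_range.2 (mem_Ico.1 (hB.1 hx)).2, ?_, hA.2.ge.trans (card_le_card fun x hx =>
        mem_filter.2 ⟨mem_union_left _ hx, (mem_range.1 (hA.1 hx)).trans_le hy⟩)⟩
    rw [card_union_of_disjoint (disjoint_left.2 fun x => h0 hA.1 hB.1)]
    omega
  have h4 : Disjoint G (P (a + 1) s) := disjoint_left.2 fun C h5 hC => by
    obtain ⟨A, hA, B, hB, rfl⟩ := mem_image₂.1 hC
    rw [mem_powersetCard] at hB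
    obtain ⟨x, hx⟩ := card_pos.1 (hs.trans hB.2.ge)
    exact (mem_range.1 ((Lift.mem_AF.1 (hG h5)).1 (mem_union_right _ hx))).not_ge
      (mem_Ico.1 (hB.1 hx)).1
  have h5 : IsInit (AF (n + v) (a + s) a) L := ⟨hL.1.trans h2, fun F hF A hA h =>
    hL.2 F hF A (Lift.mem_AF.2 ⟨fun x hx => mem_range.2 (Colex.forall_lt_mono h.le
      (fun b hb => mem_range.1 ((Lift.mem_AF.1 (hL.1 hF)).1 hb)) x hx), (Lift.mem_AF.1 hA).2⟩) h⟩
  have h6 : ∂ (G ∪ P (a + 1) s) ⊆ ∂ G ∪ P a s ∪ P (a + 1) (s - 1) := fun T hT => by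
    obtain ⟨C, hC, x, hx, rfl⟩ := mem_shadow_iff.1 hT
    rcases mem_union.1 hC with h | h
    · exact mem_union_left _ (mem_union_left _ (erase_mem_shadow h hx))
    obtain ⟨A, hA, B, hB, rfl⟩ := mem_image₂.1 h
    have a1 := mem_powersetCard.1 hA
    have b1 := mem_powersetCard.1 hB
    rw [erase_union_distrib]
    by_cases h7 : x ∈ A
    · rw [erase_eq_of_notMem (h0 a1.1 b1.1 h7)]
      exact mem_union_left _ (mem_union_right _ (mem_image₂_of_mem (mem_powersetCard.2
        ⟨(erase_subset _ _).trans a1.1, by rw [card_erase_of_mem h7, a1.2]; rfl⟩) hB))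
    · rw [erase_eq_of_notMem h7]
      exact mem_union_right _ (mem_image₂_of_mem hA (mem_powersetCard.2
        ⟨(erase_subset _ _).trans b1.1, by
          rw [card_erase_of_mem ((mem_union.1 hx).resolve_left h7), b1.2]⟩))
  refine (kk_AF (union_subset (hG.trans h2) h3) h5 (by rwa [card_union_of_disjoint h4, h1])).trans
    ((card_le_card h6).trans ((card_union_le _ _).trans ?_))
  rw [← h1, ← h1]
  exact Nat.add_le_add_right (card_union_le _ _) _

theorem ratioStmt (hB : BlockStmt) : RatioStmt := by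
  intro n K j L hj hn hL hc
  obtain ⟨s, rfl⟩ : ∃ s, K = j + (s + 1 + 1) := ⟨K - j - 2, by omega⟩
  obtain ⟨k, hk⟩ : ∃ k, k = j + (s + 1 + 1) + 1 := ⟨_, rfl⟩
  rw [← hk] at hn ⊢
  have c0 := ArithAux.cc_pos j
  have hex : ∃ u : ℕ, L.card ≤ CC j * u.choose (s + 1 + 1) := by
    have : ∀ t, t ≤ (s + 1 + t).choose (s + 1 + 1) := fun t => by
      induction t with
      | zero => omega
      | succ t ih =>
        rw [← add_assoc, Nat.choose_succ_succ']
        have := Nat.choose_pos (Nat.le_add_right (s + 1) t)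
        omega
    exact ⟨_, (this _).trans (Nat.le_mul_of_pos_left _ c0)⟩
  have h1 := Nat.find_spec hex
  have h2 := fun u => @Nat.find_min _ _ hex u
  generalize Nat.find hex = u at h1 h2
  have k1 : k ≤ k ^ 20 := Nat.le_self_pow (by norm_num) _
  have hQ : 132 * k ^ 10 < u := by
    by_contra h
    have a0 := lf.low n (j + (s + 1 + 1)) (j + 1) (by omega) (by omega)
    rw [show j + (s + 1 + 1) - (j + 1) = s + 1 by omega] at a0
    have a2 : 132 * k ^ 10 * (132 * k ^ 10) ≤ n - (2 * (j + 1) + 1) := by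
      rw [show 132 * k ^ 10 * (132 * k ^ 10) = 17424 * k ^ 20 by ring]
      omega
    generalize 132 * k ^ 10 = Q at h a2
    have a1 : u.choose (s + 1 + 1) ≤ Q * Q.choose (s + 1) := by
      refine (Nat.choose_le_choose _ (not_lt.1 h)).trans ?_
      refine (Nat.le_mul_of_pos_right _ (show 0 < s + 1 + 1 by omega)).trans ?_
      rw [Nat.choose_succ_right_eq, mul_comm]
      exact Nat.mul_le_mul_right _ (Nat.sub_le _ _)
    have a3 := a1.trans ((ArithAux.sq_choose _ s).trans (Nat.choose_le_choose _ a2))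
    have a4 := ArithAux.cc_down j
    exact (h1.trans (Nat.mul_le_mul (by omega) a3)).not_gt (a0.trans_lt hc)
  have k2 : k ≤ k ^ 9 * k := Nat.le_mul_of_pos_left _ (pow_pos (by omega) _)
  rw [pow_succ] at hQ
  obtain ⟨w, rfl⟩ : ∃ w, u = w + (s + 1) + 1 := ⟨u - (s + 2), by omega⟩
  have h3 := not_le.1 (h2 _ (Nat.lt_succ_self _))
  have h4 := hB n j (s + 1 + 1) (2 * j + 1) _ ∅ L (by omega) le_rfl (by omega) (empty_subset _) hL
    (by rw [card_empty, zero_add]; exact h1)
  rw [shadow_empty, card_empty, zero_add, ← Nat.choose_symm_half, ← CC, Nat.add_sub_cancel,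
    Nat.choose_succ_succ' _ (s + 1)] at h4
  have h5 := Nat.choose_le_succ (w + (s + 1)) (s + 1)
  have h6 := Nat.choose_succ_right_eq (w + (s + 1)) (s + 1)
  have h7 := Nat.choose_mul_succ_eq (w + (s + 1)) (s + 1)
  rw [Nat.add_sub_cancel] at h6
  rw [show w + (s + 1) + 1 - (s + 1) = w + 1 by omega] at h7
  rw [Nat.succ_eq_add_one] at h5
  generalize (w + (s + 1)).choose (s + 1) = A at *
  generalize (w + (s + 1)).choose (s + 1 + 1) = B at *
  generalize (w + (s + 1) + 1).choose (s + 1) = D at *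
  generalize k ^ 9 = c at *
  refine ⟨CC j * (2 * D), by linarith [Nat.mul_le_mul_left (CC j) h5], ?_⟩
  have h8 : 130 * c * ((s + 1 + 1) * (w + (s + 1) + 1)) ≤ (w + 1) * w := by
    have a1 : (s + 1 + 1) * (w + (s + 1) + 1) ≤ k * (w + k) := Nat.mul_le_mul (by omega) (by omega)
    have a2 : 131 * (c * k) * w ≤ (w + 1) * w := Nat.mul_le_mul_right _ (by omega)
    have a3 : c * k * (130 * k) ≤ c * k * w := Nat.mul_le_mul_left _ (by omega)
    linarith [Nat.mul_le_mul_left (130 * c) a1]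
  have h9 : 130 * c * D ≤ B := by
    refine Nat.le_of_mul_le_mul_right ?_ (show 0 < (s + 1 + 1) * (w + (s + 1) + 1) by positivity)
    calc _ = D * (130 * c * ((s + 1 + 1) * (w + (s + 1) + 1))) := by ring
      _ ≤ D * ((w + 1) * w) := Nat.mul_le_mul_left _ h8
      _ = A * (w + (s + 1) + 1) * w := by rw [h7]; ring
      _ = A * w * (w + (s + 1) + 1) := by ring
      _ = _ := by rw [← h6]; ring
  linarith [Nat.mul_le_mul_left (CC j) h9]

end Pool.Agent.MP_d50107_co.P61
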