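import Pool.Agent.MP_d50107_co.P61.Spec

/-! The budgets of a fibre that meets the extensions of a seed. -/

namespace Pool.Agent.MP_d50107_co.P61

open Finset
open scoped FinsetFamily
open Pool.Agent.MP_d50107_co.H61

namespace BudP

/-- uniform and shifted -/
def G2 (K : ℕ) (F : Finset (Finset ℕ)) : Prop := (∀ A ∈ F, A.card = K + 1) ∧ True ∧ Shifted F

/-- the seed, with explicit indices -/
def Sd (k j : ℕ) (F ρ : Finset (Finset ℕ)) (lam : ℝ) : Prop :=
  j ≤ k + 1 ∧ ρ ⊆ powersetCard j (range (2 * k + 2)) ∧ ρ.Nonempty ∧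
    ((∂ ρ).card : ℝ) ≤ lam * ρ.card ∧
    ∀ g ∈ ρ, ∀ B : Finset ℕ, g ⊆ B → B ⊆ range (2 * k + 3) → B.card = k + 1 →
      ∀ u, u ≤ 2 * k + 4 → u ∉ B → ∀ z ∈ F, ¬ Disjoint z (insert u B)

theorem sd' {k : ℕ} {F : Finset (Finset ℕ)} {lam : ℝ} (h : SeedP (k + 2) F lam) :
    ∃ j ρ, Sd k j F ρ lam := by
  obtain ⟨j, ρ, h1, h2, h3, h4, h5⟩ := h
  exact ⟨j, ρ, by omega, h2, h3, h4, fun g hg B a1 a2 a3 => h5 g hg B a1 a2 (by omega)⟩

/-- the middle fibres cross the seed -/
theorem cross_mid {k j u y : ℕ} {F ρ : Finset (Finset ℕ)} {lam : ℝ} (hF : G2 (k + 2) F)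
    (hS : Sd k j F ρ lam) (hu : 2 * k + 3 ≤ u) (hu' : u ≤ 2 * k + 4) (hy : 2 * k + 3 ≤ y)
    (huy : u ≠ y) : Cross (fib (2 * k + 2) F {2 * k + 2, y}) ρ := by
  refine Bud.cross_of fun x hx g hg hd => ?_
  have hT : Out (2 * k + 2) {2 * k + 2, y} := (out_singleton (by omega)).insert le_rfl
  have hc := card_of_mem_fib hF.1 hT hx
  rw [card_pair (by omega)] at hc
  rw [mem_fib_two] at hx
  have hg' := (mem_powersetCard.1 (hS.2.1 hg)).1
  refine hS.2.2.2.2 g hg (range (2 * k + 2) \ x) (subset_sdiff.2 ⟨hg', hd.symm⟩)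
    (sdiff_subset.trans (range_mono (by omega)))
    (by rw [card_sdiff_of_subset hx.1, card_range]; omega) u hu' (by simp; omega) _ hx.2
    (disjoint_left.2 fun z hz' hz => ?_)
  simp only [mem_insert, mem_sdiff, mem_range] at hz hz'
  rcases hz' with rfl | rfl | hz'
  · omega
  · omega
  · have := mem_range.1 (hx.1 hz')
    rcases hz with rfl | hz
    · omega
    · exact hz.2 hz'

/-- the top fibre crosses the seed -/
theorem cross_top {k j : ℕ} {F ρ : Finset (Finset ℕ)} {lam : ℝ} (hF : G2 (k + 2) F)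
    (hS : Sd k j F ρ lam) : Cross (fib (2 * k + 3) F {2 * k + 3, 2 * k + 4}) ρ := by
  refine Bud.cross_of fun x hx g hg hd => ?_
  have hT : Out (2 * k + 3) {2 * k + 3, 2 * k + 4} := (out_singleton (by omega)).insert le_rfl
  have hc := card_of_mem_fib hF.1 hT hx
  rw [card_pair (by omega)] at hc
  rw [mem_fib_two] at hx
  obtain ⟨hg', hgc⟩ := mem_powersetCard.1 (hS.2.1 hg)
  have hB : (range (2 * k + 3) \ x).card = k + 2 := by
    rw [card_sdiff_of_subset hx.1, card_range]; omega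
  have hgB : g ⊆ range (2 * k + 3) \ x :=
    subset_sdiff.2 ⟨hg'.trans (range_mono (by omega)), hd.symm⟩
  obtain ⟨q, hq, hq'⟩ := exists_mem_notMem_of_card_lt_card
    (show g.card < (range (2 * k + 3) \ x).card by have := hS.1; omega)
  have hq2 := mem_range.1 (mem_sdiff.1 hq).1
  refine hS.2.2.2.2 g hg ((range (2 * k + 3) \ x).erase q)
    (subset_erase.2 ⟨hgB, hq'⟩) ((erase_subset _ _).trans sdiff_subset)
    (by rw [card_erase_of_mem hq, hB]; rfl) q (by omega) (by simp) _ hx.2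
    (disjoint_left.2 fun z hz' hz => ?_)
  simp only [mem_insert, mem_erase, mem_sdiff, mem_range] at hz hz'
  rcases hz' with rfl | rfl | hz'
  · omega
  · omega
  · rcases hz with rfl | hz
    · exact (mem_sdiff.1 hq).2 hz'
    · exact hz.2.2 hz'

/-- the bound for a middle fibre -/
theorem mid {k j u y : ℕ} {F ρ : Finset (Finset ℕ)} {lam c : ℝ}
    (hF : G2 (k + 2) F) (hS : Sd k j F ρ lam) (hc0 : 0 ≤ c) (hc1 : c ≤ 1) (hl : 1 ≤ lam)
    (hst : Stop lam lam c (k + 1)) (hu : 2 * k + 3 ≤ u) (hu' : u ≤ 2 * k + 4)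
    (hy : 2 * k + 3 ≤ y) (huy : u ≠ y) :
    c * catalan (k + 1) - lam * (2 * k + 2).choose (k + 1) + (2 * k + 2).choose (k + 2) ≤
      ((∂ (fib (2 * k + 2) F {2 * k + 2, y})).card : ℝ) -
        lam * (fib (2 * k + 2) F {2 * k + 2, y}).card := by
  have hT : Out (2 * k + 2) {2 * k + 2, y} := (out_singleton (by omega)).insert le_rfl
  have h1 := hG lam lam c (k + 1) (2 * k + 2) (k + 1) (k + 1) j _ ρ hc0 hc1 hl hst (by omega)
    (by omega) hS.1 hS.1 (fib_subset hF.1 hT (by rw [card_pair (by omega)])) (hF.2.2.fib hT)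
    hS.2.1 hS.2.2.1 hS.2.2.2.1 (cross_mid hF hS hu hu' hy huy)
  have h2 : (2 * k + 2).choose (k + 1) = (2 * k + 2).choose (k + 2) + catalan (k + 1) :=
    ct.c2 (k + 2) (by omega)
  have h3 : ((2 * k + 2).choose (k + 1) : ℝ) - (2 * k + 2).choose (k + 1 + 1) =
      catalan (k + 1) := by
    rw [h2]; push_cast; ring
  rwa [h3] at h1

theorem one (a : ℕ) (F : Finset (Finset ℕ)) (lam c : ℝ) (ha : 3 ≤ a)
    (hZ : F ⊆ powersetCard (a + 1) (range (2 * a + 1))) (hsh : Shifted F) (hc0 : 0 ≤ c)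
    (hc1 : c ≤ 1) (hl : 1 ≤ lam) (hst : Stop lam lam c (a - 1)) (hS : SeedP a F lam)
    (hf : (2 * a).choose (a + 1) ≤ (fib (2 * a) F ∅).card + WW a) :
    c * catalan (a - 1) + (2 * a).choose a - lam * (2 * a).choose (a + 1) ≤
      ((∂ (fib (2 * a) F ∅)).card : ℝ) - lam * (fib (2 * a) F ∅).card := by
  obtain ⟨k, rfl⟩ : ∃ k, a = k + 2 := ⟨a - 2, by omega⟩
  have hF : G2 (k + 2) F := ⟨card_eq_of_subset hZ, trivial, hsh⟩
  obtain ⟨j, ρ, hS⟩ := sd' hS
  change (2 * k + 4).choose (k + 3) ≤ (fib (2 * k + 4) F ∅).card + (2 * k + 2).choose (k + 1) at hf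
  change Stop lam lam c (k + 1) at hst
  change c * catalan (k + 1) + (2 * k + 4).choose (k + 2) - lam * (2 * k + 4).choose (k + 3) ≤
      ((∂ (fib (2 * k + 4) F ∅)).card : ℝ) - lam * (fib (2 * k + 4) F ∅).card
  have hsym : (2 * k + 4).choose (k + 3) = (2 * k + 4).choose (k + 1) :=
    Nat.choose_symm_of_eq_add (by omega)
  have hsy2 : (2 * k + 1).choose (k + 1) = (2 * k + 1).choose k :=
    Nat.choose_symm_of_eq_add (by omega)
  have hY : fib (2 * k + 4) F ∅ ⊆ powersetCard (k + 3) (range (2 * k + 4)) :=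
    fib_subset hF.1 (out_empty _) (by simp)
  obtain ⟨s, hs⟩ := Nat.exists_eq_add_of_le (card_le_choose hY)
  rcases le_total ((2 * k + 1).choose (k + 1)) s with h | h
  · have h2 := hKN.thm _ _ (card_eq_of_subset hY)
    have h3 := hKN.dual (k + 1) (k + 3) s (by omega)
      (by rw [show k + 1 + (k + 3) = 2 * k + 4 by omega]; omega)
    rw [show k + 1 + (k + 3) = 2 * k + 4 by omega,
      show (2 * k + 4).choose (k + 1) - s = (fib (2 * k + 4) F ∅).card by omega] at h3
    have h4 := hst (k + 1) ((2 * k + 1).choose (k + 1)) s (by omega) le_rfl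
      (Nat.choose_pos (by omega)) h (by rw [show 2 * (k + 1) = 2 * k + 2 by omega]; omega)
      (by
        rw [kk_choose (by omega), hsy2]
        exact le_mul_of_one_le_left (Nat.cast_nonneg _) hl)
    have h6 : ((2 * k + 4).choose (k + 2) : ℝ) ≤
        (∂ (fib (2 * k + 4) F ∅)).card + cl (k + 1) s := by
      exact_mod_cast (by rw [← h3]; omega :
        (2 * k + 4).choose (k + 2) ≤ (∂ (fib (2 * k + 4) F ∅)).card + cl (k + 1) s)
    have h7 : ((2 * k + 4).choose (k + 3) : ℝ) = (fib (2 * k + 4) F ∅).card + s := by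
      exact_mod_cast hs
    rw [h7]
    linarith
  · have c1 := card_fib_split (2 * k + 3) F ∅
    have c2 := card_fib_split (2 * k + 2) F {2 * k + 3}
    have d1 := shadow_fib_split (2 * k + 3) F ∅
    have d2 := shadow_fib_split (2 * k + 2) F {2 * k + 3}
    rw [insert_empty_eq] at c1 d1
    have hT : Out (2 * k + 2) {2 * k + 2, 2 * k + 3} := (out_singleton (by omega)).insert le_rfl
    have y1 : fib (2 * k + 3) F ∅ ⊆ powersetCard (k + 3) (range (2 * k + 3)) :=
      fib_subset hF.1 (out_empty _) (by simp)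
    have y2 : fib (2 * k + 2) F {2 * k + 3} ⊆ powersetCard (k + 2) (range (2 * k + 2)) :=
      fib_subset hF.1 (out_singleton (by omega)) (by simp)
    have y3 : fib (2 * k + 2) F {2 * k + 2, 2 * k + 3} ⊆ powersetCard (k + 1) (range (2 * k + 2)) :=
      fib_subset hF.1 hT (by rw [card_pair (by omega)])
    have b1 := card_le_choose y1
    have b2 := card_le_choose y2
    have b3 := card_le_choose y3
    have s1 : (2 * k + 3).choose (k + 3) = (2 * k + 3).choose k :=
      Nat.choose_symm_of_eq_add (by omega)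
    have s2 : (2 * k + 2).choose (k + 2) = (2 * k + 2).choose k :=
      Nat.choose_symm_of_eq_add (by omega)
    have p1 : (2 * k + 4).choose (k + 1) = (2 * k + 3).choose k + (2 * k + 3).choose (k + 1) :=
      Nat.choose_succ_succ' _ _
    have p2 : (2 * k + 3).choose (k + 1) = (2 * k + 2).choose k + (2 * k + 2).choose (k + 1) :=
      Nat.choose_succ_succ' _ _
    change _ = (fib (2 * k + 4) F ∅).card at c1
    change _ = (fib (2 * k + 3) F {2 * k + 3}).card at c2
    change _ ≤ (∂ (fib (2 * k + 4) F ∅)).card at d1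
    change _ ≤ (∂ (fib (2 * k + 3) F {2 * k + 3})).card at d2
    have f1 := Bud.few hKN (k := k) (by omega) (by omega) hl y1 (by omega)
    have f2 := Bud.few hKN (k := k) (by omega) (by omega) hl y2 (by omega)
    have f3 := mid (u := 2 * k + 4) (y := 2 * k + 3) hF hS hc0 hc1 hl hst (by omega) le_rfl
      le_rfl (by omega)
    have q1 : ((2 * k + 4).choose (k + 2) : ℝ) = _ := Bud.pas (2 * k + 3) (k + 1)
    have q2 : ((2 * k + 3).choose (k + 1 + 1) : ℝ) = _ := Bud.pas (2 * k + 2) (k + 1)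
    have e1 : ((fib (2 * k + 4) F ∅).card : ℝ) = (fib (2 * k + 3) F ∅).card +
        (fib (2 * k + 2) F {2 * k + 3}).card + (fib (2 * k + 2) F {2 * k + 2, 2 * k + 3}).card := by
      rw [← c1, ← c2]; push_cast; ring
    have e2 : ((∂ (fib (2 * k + 3) F ∅)).card : ℝ) + (∂ (fib (2 * k + 2) F {2 * k + 3})).card +
        (∂ (fib (2 * k + 2) F {2 * k + 2, 2 * k + 3})).card ≤ (∂ (fib (2 * k + 4) F ∅)).card := by
      exact_mod_cast (by omega)
    rw [hsym, p1, p2, e1, q1, q2]
    push_cast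
    linarith

theorem two (a : ℕ) (F : Finset (Finset ℕ)) (lam c : ℝ) (ha : 3 ≤ a)
    (hZ : F ⊆ powersetCard (a + 1) (range (2 * a + 1))) (hsh : Shifted F) (hc0 : 0 ≤ c)
    (hc1 : c ≤ 1) (hl : 1 ≤ lam) (hst : Stop lam lam c (a - 1)) (hS : SeedP a F lam)
    (hx : NN a ≤ (fib (2 * a) F {2 * a}).card) :
    c * ((catalan a : ℝ) + catalan (a - 1)) + (2 * a).choose (a + 1) - lam * (2 * a).choose a ≤
      ((∂ (fib (2 * a) F {2 * a})).card : ℝ) - lam * (fib (2 * a) F {2 * a}).card := by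
  obtain ⟨k, rfl⟩ : ∃ k, a = k + 2 := ⟨a - 2, by omega⟩
  have hF : G2 (k + 2) F := ⟨card_eq_of_subset hZ, trivial, hsh⟩
  obtain ⟨j, ρ, hS⟩ := sd' hS
  change (2 * k + 3).choose (k + 2) ≤ (fib (2 * k + 4) F {2 * k + 4}).card at hx
  change Stop lam lam c (k + 1) at hst
  change c * ((catalan (k + 2) : ℝ) + catalan (k + 1)) + (2 * k + 4).choose (k + 3) -
      lam * (2 * k + 4).choose (k + 2) ≤
      ((∂ (fib (2 * k + 4) F {2 * k + 4})).card : ℝ) - lam * (fib (2 * k + 4) F {2 * k + 4}).card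
  have c1 := card_fib_split (2 * k + 3) F {2 * k + 4}
  have c2 := card_fib_split (2 * k + 2) F {2 * k + 4}
  have d1 := shadow_fib_split (2 * k + 3) F {2 * k + 4}
  have d2 := shadow_fib_split (2 * k + 2) F {2 * k + 4}
  change _ = (fib (2 * k + 4) F {2 * k + 4}).card at c1
  change _ = (fib (2 * k + 3) F {2 * k + 4}).card at c2
  change _ ≤ (∂ (fib (2 * k + 4) F {2 * k + 4})).card at d1
  change _ ≤ (∂ (fib (2 * k + 3) F {2 * k + 4})).card at d2
  have hT : Out (2 * k + 3) {2 * k + 3, 2 * k + 4} := (out_singleton (by omega)).insert le_rfl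
  have x0 : fib (2 * k + 3 + 1) F {2 * k + 4} ⊆ powersetCard (k + 2) (range (2 * k + 3 + 1)) :=
    fib_subset hF.1 (out_singleton (by omega)) (by simp)
  have x1 : fib (2 * k + 2 + 1) F {2 * k + 4} ⊆ powersetCard (k + 2) (range (2 * k + 2 + 1)) :=
    fib_subset hF.1 (out_singleton (by omega)) (by simp)
  have x2 : fib (2 * k + 2) F {2 * k + 4} ⊆ powersetCard (k + 2) (range (2 * k + 2)) :=
    fib_subset hF.1 (out_singleton (by omega)) (by simp)
  have t0 := hLY.dens _ _ _ x0 (hF.2.2.fib (out_singleton (by omega))) (by omega)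
  have t1 := hLY.dens _ _ _ x1 (hF.2.2.fib (out_singleton (by omega))) (by omega)
  rw [nonMember_fib] at t0 t1
  have n2 : (2 * k + 4).choose (k + 2) = 2 * (2 * k + 3).choose (k + 2) := ct.two (k + 2) (by omega)
  have w2 : (2 * k + 2).choose (k + 1) = 2 * (2 * k + 1).choose (k + 1) := ct.w2 (k + 2) (by omega)
  have w3 : (2 * k + 2).choose (k + 1) = (2 * k + 2).choose (k + 2) + catalan (k + 1) :=
    ct.c2 (k + 2) (by omega)
  have w4 : (2 * k + 3).choose (k + 2) = (2 * k + 3).choose (k + 3) + catalan (k + 2) :=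
    ct.c1 (k + 2) (by omega)
  have s2 : (2 * k + 2).choose (k + 2) = (2 * k + 2).choose k :=
    Nat.choose_symm_of_eq_add (by omega)
  have hsy2 : (2 * k + 1).choose (k + 1) = (2 * k + 1).choose k :=
    Nat.choose_symm_of_eq_add (by omega)
  change (fib (2 * k + 4) F {2 * k + 4}).card * _ ≤ _ * (2 * k + 4).choose (k + 2) at t0
  change (fib (2 * k + 3) F {2 * k + 4}).card * _ ≤ _ * (2 * k + 3).choose (k + 2) at t1
  have hN : 0 < (2 * k + 3).choose (k + 2) := Nat.choose_pos (by omega)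
  have u0 : (2 * k + 3).choose (k + 2) ≤ 2 * (fib (2 * k + 3) F {2 * k + 4}).card := by
    refine Nat.le_of_mul_le_mul_right ?_ hN
    rw [n2] at t0
    linarith [Nat.mul_le_mul_right ((2 * k + 3).choose (k + 2)) hx]
  have u1 : (2 * k + 2).choose (k + 2) ≤ 2 * (fib (2 * k + 2) F {2 * k + 4}).card := by
    refine Nat.le_of_mul_le_mul_right ?_ hN
    linarith [Nat.mul_le_mul_right ((2 * k + 2).choose (k + 2)) u0]
  have f1 := Bud.few hKN (k := k) (by omega) (by omega) hl x2 (by omega)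
  have f2 := mid (u := 2 * k + 3) (y := 2 * k + 4) hF hS hc0 hc1 hl hst le_rfl (by omega)
    (by omega) (by omega)
  have f3 := hG lam lam c (k + 1) (2 * k + 3) (k + 2) (k + 1) j _ ρ hc0 hc1 hl hst (by omega)
    (by omega) (hS.1.trans (by omega)) hS.1 (fib_subset hF.1 hT (by rw [card_pair (by omega)]))
    (hF.2.2.fib hT) (subset_range_mono hS.2.1 (by omega)) hS.2.2.1 hS.2.2.2.1 (cross_top hF hS)
  have h3 : ((2 * k + 3).choose (k + 2) : ℝ) - (2 * k + 3).choose (k + 2 + 1) =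
      catalan (k + 2) := by
    rw [w4]; push_cast; ring
  rw [h3] at f3
  have q1 : ((2 * k + 4).choose (k + 3) : ℝ) = _ := Bud.pas (2 * k + 3) (k + 2)
  have q2 : ((2 * k + 4).choose (k + 2) : ℝ) = _ := Bud.pas (2 * k + 3) (k + 1)
  have q3 : ((2 * k + 3).choose (k + 1) : ℝ) = _ := Bud.pas (2 * k + 2) k
  have q4 : ((2 * k + 3).choose (k + 2) : ℝ) = _ := Bud.pas (2 * k + 2) (k + 1)
  have e1 : ((fib (2 * k + 4) F {2 * k + 4}).card : ℝ) = (fib (2 * k + 2) F {2 * k + 4}).card +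
      (fib (2 * k + 2) F {2 * k + 2, 2 * k + 4}).card +
      (fib (2 * k + 3) F {2 * k + 3, 2 * k + 4}).card := by
    rw [← c1, ← c2]; push_cast; ring
  have e2 : ((∂ (fib (2 * k + 2) F {2 * k + 4})).card : ℝ) +
      (∂ (fib (2 * k + 2) F {2 * k + 2, 2 * k + 4})).card +
      (∂ (fib (2 * k + 3) F {2 * k + 3, 2 * k + 4})).card ≤
      (∂ (fib (2 * k + 4) F {2 * k + 4})).card := by
    exact_mod_cast (by omega)
  rw [e1, q1, q2, q3]
  linarith

theorem cnt_le (A : Finset ℕ) {w x : ℕ} :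
    (A.filter fun y => y < x).card ≤ (A.filter fun y => y < w).card + (x - w) := by
  rw [← Nat.card_Ico]
  refine le_trans (card_le_card fun y hy => ?_) (card_union_le _ _)
  simp only [mem_filter, mem_union, mem_Ico] at hy ⊢
  by_cases h : y < w
  · exact Or.inl ⟨hy.1, h⟩
  · exact Or.inr ⟨by omega, hy.2⟩

theorem cnt_ge {H : Finset ℕ} {w m x : ℕ} (hH : H ⊆ range w) (hx : w ≤ x) :
    H.card + min (x - w) m ≤ ((H ∪ Ico w (w + m)).filter fun y => y < x).card := by
  have h1 : (Ico w (w + min (x - w) m)).card = min (x - w) m := by simp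
  rw [← h1, ← card_union_of_disjoint ((Seg.out_Ico Subset.rfl).disjoint hH)]
  refine card_le_card fun y hy => ?_
  simp only [mem_filter, mem_union, mem_Ico] at hy ⊢
  rcases hy with h | h
  · have := mem_range.1 (hH h)
    exact ⟨Or.inl h, by omega⟩
  · exact ⟨Or.inr ⟨h.1, by omega⟩, by omega⟩

theorem card_un {H : Finset ℕ} {w m : ℕ} (hH : H ⊆ range w) :
    (H ∪ Ico w (w + m)).card = H.card + m := by
  rw [card_union_of_disjoint ((Seg.out_Ico Subset.rfl).disjoint hH)]
  simp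

theorem cnt_low {g T B : Finset ℕ} {w x : ℕ} (hT : Out w T) (hx : x ≤ w) (hB : g ⊆ B) :
    ((g ∪ T).filter fun y => y < x).card ≤ (B.filter fun y => y < x).card := by
  refine card_le_card fun y hy => ?_
  simp only [mem_filter, mem_union] at hy ⊢
  refine ⟨hB (hy.1.resolve_right fun h => ?_), hy.2⟩
  have := hT y h
  omega

theorem cnt_out {A P : Finset ℕ} {w x : ℕ} (hP : Out w P) (hx : x ≤ w) (hA : P ⊆ A) :
    (A.filter fun y => y < x).card + P.card ≤ A.card := by
  rw [← card_union_of_disjoint (hP.disjoint fun y hy => mem_range.2 ((mem_filter.1 hy).2.trans_le hx))]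
  exact card_le_card (union_subset (filter_subset _ _) hA)

theorem seed (hD : DM) (a s : ℕ) (F : Finset (Finset ℕ)) (P U : Finset ℕ) (lam : ℝ) (ha : 2 ≤ a)
    (hF : Good (a + s) F) (hP : Out (2 * a) P) (hPc : s + 2 ≤ P.card)
    (hne : (fib (2 * a) F P).Nonempty)
    (hr : ((∂ (fib (2 * a) F P)).card : ℝ) ≤ lam * (fib (2 * a) F P).card)
    (hU : Out (3 * (a + s + 1)) U) : SeedP a (fib (2 * a + 1) F U) lam := by
  have e : 2 * a = 2 * a - 2 + 2 := by omega
  obtain ⟨T', k1, k2, ⟨g₀, hg₀⟩, k4⟩ :=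
    SRA.peelTo (2 * a - 2) F lam 2 P (e ▸ hP) (e ▸ hne) (e ▸ hr)
  have c1 := card_of_mem_fib hF.1 k2 hg₀
  have c2 := card_le_card k1
  refine ⟨g₀.card, _, by omega, fib_subset hF.1 k2 c1, ⟨g₀, hg₀⟩, k4,
    fun g hg B h1 h2 h3 u hu huB z hz hd => ?_⟩
  rw [mem_fib] at hg
  have hH : insert u B ⊆ range (2 * a + 1) :=
    insert_subset (mem_range.2 (by omega)) (h2.trans (range_mono (by omega)))
  have hHc : (insert u B).card = a := by rw [card_insert_of_notMem huB, h3]
  have c3 := hF.1 _ hg.2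
  have c4 := fun x hx => cnt_out (x := x) hP hx (k1.trans (subset_union_right (s₁ := g)))
  have hA : insert u B ∪ Ico (2 * a + 1) (2 * a + 1 + (s + 1)) ∈ F := by
    refine hD.dom F _ _ hF.2.2 hg.2 (by rw [card_un hH, c3, hHc]; rfl) fun x => ?_
    rcases le_or_gt x (2 * a - 2) with hx | hx
    · exact cnt_low k2 hx (h1.trans ((subset_insert _ _).trans subset_union_left))
    rcases le_or_gt x (2 * a) with hx2 | hx2
    · have := c4 x hx2
      refine le_trans (by omega : _ ≤ B.card) (card_le_card fun y hy => mem_filter.2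
        ⟨mem_union_left _ (mem_insert_of_mem hy), ?_⟩)
      have := mem_range.1 (h2 hy)
      omega
    · have d1 := c4 _ le_rfl
      have d2 := cnt_le (g ∪ T') (w := 2 * a) (x := x)
      have d3 := card_filter_le (g ∪ T') fun y => y < x
      have d4 := cnt_ge (m := s + 1) hH (show 2 * a + 1 ≤ x from hx2)
      omega
  obtain ⟨x, x1, x2⟩ := hD.cross _ _ F U z _ hF (by omega) hU hz hA
  have x3 := mem_range.1 ((mem_fib.1 hz).1 x1)
  rcases mem_union.1 x2 with x2 | x2
  · exact disjoint_left.1 hd x1 x2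
  · have := (mem_Ico.1 x2).1
    omega

theorem pos (hD : DM) (a s : ℕ) (F : Finset (Finset ℕ)) (P U : Finset ℕ) (ha : 1 ≤ a)
    (hF : Good (a + s) F) (hP : Out (2 * a) P) (hPc : s + 2 ≤ P.card)
    (hne : (fib (2 * a) F P).Nonempty) (hU : Out (3 * (a + s + 1)) U) (hUc : U.card = s) :
    1 ≤ p1 a F U := by
  obtain ⟨g, hg⟩ := hne
  have c1 := card_of_mem_fib hF.1 hP hg
  rw [mem_fib] at hg
  obtain ⟨B, h1, h2, h3⟩ := exists_subsuperset_card_eq (n := a - 1) hg.1 (by omega)
    (by rw [card_range]; omega)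
  have c3 := hF.1 _ hg.2
  have hA : B ∪ Ico (2 * a) (2 * a + (s + 2)) ∈ F := by
    refine hD.dom F _ _ hF.2.2 hg.2 (by rw [card_un h2, c3]; omega) fun x => ?_
    rcases le_total x (2 * a) with hx | hx
    · exact cnt_low hP hx (h1.trans subset_union_left)
    · have d1 := cnt_out (x := 2 * a) hP le_rfl (subset_union_right (s₁ := g))
      have d2 := cnt_le (g ∪ P) (w := 2 * a) (x := x)
      have d3 := card_filter_le (g ∪ P) fun y => y < x
      have d4 := cnt_ge (m := s + 2) h2 hx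
      omega
  have hs : fib (2 * a) F U ⊆ powersetCard (a + 1) (range (2 * a)) :=
    fib_subset hF.1 (hU.mono (by omega)) (by omega)
  have hm : range (2 * a) \ B ∈ powersetCard (a + 1) (range (2 * a)) :=
    mem_powersetCard.2 ⟨sdiff_subset, by rw [card_sdiff_of_subset h2, card_range]; omega⟩
  have hn : range (2 * a) \ B ∉ fib (2 * a) F U := fun hz => by
    obtain ⟨x, x1, x2⟩ := hD.cross _ _ F U _ _ hF (by omega) hU hz hA
    simp only [mem_sdiff, mem_range, mem_union, mem_Ico] at x1 x2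
    rcases x2 with x2 | x2
    · exact x1.2 x2
    · omega
  have := card_lt_card ((ssubset_iff_of_subset hs).2 ⟨_, hm, hn⟩)
  rw [card_powersetCard, card_range] at this
  unfold p1
  omega

theorem ins {a s : ℕ} {F : Finset (Finset ℕ)} {U : Finset ℕ} (hF : Good (a + s) F)
    (hU : Out (2 * a + 1) U) (hUc : U.card = s) :
    fib (2 * a) F (insert (2 * a) U) ⊆ powersetCard a (range (2 * a)) := by
  refine fib_subset hF.1 ((hU.mono (by omega)).insert le_rfl) ?_
  rw [card_insert_of_notMem fun h => by have := hU _ h; omega, hUc]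
  rfl

theorem hx (a s : ℕ) (F : Finset (Finset ℕ)) (T U : Finset ℕ) (hF : Good (a + s) F)
    (hT : Out (2 * a + 1) T) (hTc : T.card = s + 1) (hU : Out (2 * a + 1) U) (hUc : U.card = s)
    (hd : Disjoint T U) : hh a F T ≤ p0 a F U := by
  have h1 := card_sdiff_of_subset (ins hF hU hUc)
  rw [card_powersetCard, card_range] at h1
  unfold hh p0
  rw [← h1]
  refine card_le_card_of_injOn (fun h => range (2 * a) \ h) (fun h hm => ?_)
    (fun h hm h' hm' e => ?_)
  · have hm : h ∈ fib (2 * a) F T := hm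
    have c1 := card_of_mem_fib hF.1 (hT.mono (by omega)) hm
    rw [mem_fib] at hm
    refine mem_coe.2 (mem_sdiff.2 ⟨mem_powersetCard.2 ⟨sdiff_subset, ?_⟩, fun hz => ?_⟩)
    · rw [card_sdiff_of_subset hm.1, card_range]
      omega
    · refine hF.not_disjoint hm.2 (mem_fib.1 hz).2 (disjoint_left.2 fun y y1 y2 => ?_)
      simp only [mem_union, mem_sdiff, mem_range, mem_insert] at y1 y2
      rcases y1 with y1 | y1
      · have := mem_range.1 (hm.1 y1)
        rcases y2 with y2 | y2 | y2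
        · exact y2.2 y1
        · omega
        · have := hU y y2
          omega
      · have := hT y y1
        rcases y2 with y2 | y2 | y2
        · omega
        · omega
        · exact disjoint_left.1 hd y1 y2
  · have h2 := (mem_fib.1 (mem_coe.1 hm)).1
    have h3 := (mem_fib.1 (mem_coe.1 hm')).1
    simp only at e
    rw [← Finset.sdiff_sdiff_eq_self h2, e, Finset.sdiff_sdiff_eq_self h3]

theorem out_T0 (a s : ℕ) : Out (3 * (a + s + 1)) (T0 a s) := Seg.out_Ico Subset.rfl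

theorem card_T0 (a s : ℕ) : (T0 a s).card = s := by simp [T0]

theorem hr (hD : DM) (a s : ℕ) (F : Finset (Finset ℕ)) (T : Finset ℕ) (hF : Good (a + s) F)
    (hT : Out (2 * a + 1) T) (hTc : T.card = s + 1) : hh a F T ≤ p0 a F (T0 a s) := by
  refine (card_le_card (hD.far (2 * a) (2 * a + 1) F T hF.2.2 (by omega) hT)).trans
    (hx a s F _ _ hF (Seg.out_Ico Subset.rfl) (by simp [hTc]) ((out_T0 a s).mono (by omega))
      (card_T0 a s) (disjoint_left.2 fun y y1 y2 => ?_))
  have := out_T0 a s y y2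
  have := (mem_Ico.1 y1).2
  omega

theorem fr (hD : DM) (a s : ℕ) (F : Finset (Finset ℕ)) (U : Finset ℕ) (hF : Good (a + s) F)
    (hU : Out (3 * (a + s + 1)) U) (hUc : U.card = s) :
    p0 a F (T0 a s) ≤ p0 a F U ∧ ms a F (T0 a s) ≤ ms a F U := by
  have h1 : fib (2 * a + 1) F U ⊆ fib (2 * a + 1) F (T0 a s) := by
    have := hD.far (2 * a + 1) _ F U hF.2.2 (by omega) hU
    rwa [hUc] at this
  refine ⟨Nat.sub_le_sub_left (card_le_card ?_) _, Nat.sub_le_sub_left (card_le_card h1) _⟩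
  rw [← member_fib, ← member_fib]
  intro g hg
  rw [mem_memberSubfamily] at hg ⊢
  exact ⟨h1 hg.1, hg.2⟩

theorem add (a s : ℕ) (F : Finset (Finset ℕ)) (U : Finset ℕ) (hF : Good (a + s) F)
    (hU : Out (2 * a + 1) U) (hUc : U.card = s) : p0 a F U + p1 a F U = ms a F U := by
  have h1 := card_le_choose (ins hF hU hUc)
  have h2 := card_le_choose (fib_subset (w := 2 * a) (l := a + 1) hF.1 (hU.mono (by omega))
    (by omega))
  have h3 := card_fib_split (2 * a) F U
  have h4 : CC a = (2 * a).choose a + (2 * a).choose (a + 1) := Nat.choose_succ_succ' _ _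
  unfold p0 p1 ms
  omega

theorem maj (hD : DM) (n a s : ℕ) (F : Finset (Finset ℕ)) (hF : Good (a + s) F)
    (hn : ∀ A ∈ F, A ⊆ range n) (h0 : ms a F (T0 a s) = 0) : F ⊆ AF n (a + s) a := by
  intro A hA
  have hs : fib (2 * a + 1) F (T0 a s) ⊆ powersetCard (a + 1) (range (2 * a + 1)) :=
    fib_subset hF.1 ((out_T0 a s).mono (by omega)) (by rw [card_T0]; omega)
  have he := eq_of_subset_of_card_le hs (by
    rw [card_powersetCard, card_range]
    exact Nat.le_of_sub_eq_zero h0)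
  refine H54.mem_fam.2 ⟨hn A hA, hF.1 A hA, ?_⟩
  by_contra hc
  obtain ⟨z, z1, z2⟩ := exists_subset_card_eq (n := a + 1)
    (s := range (2 * a + 1) \ A.filter fun y => y < 2 * a + 1) (by
      rw [card_sdiff_of_subset (Seg.head_subset _ _), card_range]
      omega)
  obtain ⟨x, x1, x2⟩ := hD.cross _ (2 * a + 1) F _ z A hF (by omega) (out_T0 a s)
    (he ▸ mem_powersetCard.2 ⟨z1.trans sdiff_subset, z2⟩) hA
  have := mem_sdiff.1 (z1 x1)
  exact this.2 (mem_filter.2 ⟨x2, mem_range.1 this.1⟩)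

theorem inner (a : ℕ) (F : Finset (Finset ℕ)) (U : Finset ℕ) :
    fib (2 * a) (fib (2 * a + 1) F U) ∅ = fib (2 * a) F U ∧
      fib (2 * a) (fib (2 * a + 1) F U) {2 * a} = fib (2 * a) F (insert (2 * a) U) := by
  constructor
  · ext g
    rw [mem_fib_empty, mem_fib, mem_fib]
    exact ⟨fun h => ⟨h.1, h.2.2⟩, fun h => ⟨h.1, h.1.trans (range_mono (by omega)), h.2⟩⟩
  · ext g
    rw [mem_fib_one, mem_fib, mem_fib, insert_union, union_insert]
    exact ⟨fun h => ⟨h.1, h.2.2⟩, fun h => ⟨h.1, insert_subset (mem_range.2 (by omega))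
      (h.1.trans (range_mono (by omega))), h.2⟩⟩

end BudP

theorem bp : BP := ⟨BudP.one, BudP.two⟩

theorem sd (hD : DM) : SD :=
  ⟨BudP.seed hD, BudP.pos hD, BudP.hx, BudP.hr hD, BudP.fr hD, BudP.add, BudP.maj hD, BudP.inner⟩

end Pool.Agent.MP_d50107_co.P61
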