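import Pool.Agent.MP_d50107_co.P61.Spec

/-! Counting over tails. -/

namespace Pool.Agent.MP_d50107_co.P61

open Finset
open scoped FinsetFamily
open Pool.Agent.MP_d50107_co.H54 (IsInit)
open Pool.Agent.MP_d50107_co.H61

namespace Cnt

theorem mem_low {X T : Finset ℕ} {s : ℕ} : T ∈ low X s ↔ T ⊆ X ∧ T.card < s := by
  simp [low]

theorem mem_upp {X T : Finset ℕ} {s : ℕ} : T ∈ upp X s ↔ T ⊆ X ∧ s ≤ T.card := by
  simp [upp]

theorem low_succ (X : Finset ℕ) (s : ℕ) (φ : Finset ℕ → ℕ) :
    ∑ T ∈ low X (s + 1), φ T = ∑ T ∈ low X s, φ T + ∑ T ∈ powersetCard s X, φ T := by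
  have h : low X (s + 1) = low X s ∪ powersetCard s X := by
    ext T
    rw [mem_union, mem_low, mem_low, mem_powersetCard]
    constructor
    · rintro ⟨h1, h2⟩
      by_cases h : T.card < s
      · exact Or.inl ⟨h1, h⟩
      · exact Or.inr ⟨h1, by omega⟩
    · rintro (⟨h1, h2⟩ | ⟨h1, h2⟩) <;> exact ⟨h1, by omega⟩
  rw [h, sum_union]
  exact disjoint_left.2 fun T h1 h2 => by
    have := (mem_low.1 h1).2
    have := (mem_powersetCard.1 h2).2
    omega

theorem upp_succ (X : Finset ℕ) (s : ℕ) (φ : Finset ℕ → ℕ) :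
    ∑ T ∈ upp X s, φ T = ∑ T ∈ powersetCard s X, φ T + ∑ T ∈ upp X (s + 1), φ T := by
  have h : upp X s = powersetCard s X ∪ upp X (s + 1) := by
    ext T
    rw [mem_union, mem_upp, mem_upp, mem_powersetCard]
    constructor
    · rintro ⟨h1, h2⟩
      by_cases h : T.card = s
      · exact Or.inl ⟨h1, h⟩
      · exact Or.inr ⟨h1, by omega⟩
    · rintro (⟨h1, h2⟩ | ⟨h1, h2⟩) <;> exact ⟨h1, by omega⟩
  rw [h, sum_union]
  exact disjoint_left.2 fun T h1 h2 => by
    have := (mem_powersetCard.1 h1).2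
    have := (mem_upp.1 h2).2
    omega

theorem sum_low (X : Finset ℕ) (s : ℕ) (φ : ℕ → ℕ) :
    ∑ T ∈ low X s, φ T.card = ∑ i ∈ range s, φ i * X.card.choose i := by
  induction s with
  | zero =>
    have h : low X 0 = ∅ := eq_empty_of_forall_notMem fun T hT => by
      have := (mem_low.1 hT).2
      omega
    rw [h, range_zero, sum_empty, sum_empty]
  | succ s ih =>
    rw [low_succ X s fun T => φ T.card, ih, sum_range_succ]
    congr 1
    rw [sum_congr rfl fun T hT => congrArg φ (mem_powersetCard.1 hT).2, sum_const,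
      card_powersetCard, smul_eq_mul, mul_comm]

theorem total (w n s : ℕ) (G : Finset (Finset ℕ)) (hG : ∀ A ∈ G, A ⊆ range n) :
    ∑ T ∈ low (Ico w n) s, (fib w G T).card + ∑ T ∈ upp (Ico w n) s, (fib w G T).card =
      G.card := by
  rw [← Seg.sum_fib (w := w) hG,
    ← sum_filter_add_sum_filter_not (Ico w n).powerset fun T => T.card < s]
  simp only [low, upp, not_lt]

theorem cardAF (n a s : ℕ) (hn : 2 * a + 1 ≤ n) : (AF n (a + s) a).card =
    ∑ T ∈ low (Ico (2 * a + 1) n) (s + 1), (2 * a + 1).choose (a + s + 1 - T.card) := by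
  have hsub : ∀ A ∈ AF n (a + s) a, A ⊆ range n := fun A hA => (H54.mem_fam.1 hA).1
  rw [← total (2 * a + 1) n (s + 1) _ hsub]
  have h0 : ∑ T ∈ upp (Ico (2 * a + 1) n) (s + 1), (fib (2 * a + 1) (AF n (a + s) a) T).card = 0 := by
    refine sum_eq_zero fun T hT => card_eq_zero.2 (eq_empty_of_forall_notMem fun g hg => ?_)
    rw [mem_upp] at hT
    rw [mem_fib] at hg
    have := (Seg.mem_AF (Seg.out_Ico hT.1) hg.1).1 hg.2
    omega
  rw [h0, add_zero]
  refine sum_congr rfl fun T hT => ?_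
  rw [mem_low] at hT
  have h : fib (2 * a + 1) (AF n (a + s) a) T =
      powersetCard (a + s + 1 - T.card) (range (2 * a + 1)) := by
    ext g
    rw [mem_fib, mem_powersetCard]
    refine and_congr_right fun hg => ?_
    rw [Seg.mem_AF (Seg.out_Ico hT.1) hg]
    constructor
    · rintro ⟨-, h2, -⟩
      omega
    · intro h2
      refine ⟨union_subset (hg.trans (range_mono hn)) fun y hy => ?_, by omega, by omega⟩
      exact mem_range.2 (mem_Ico.1 (hT.1 hy)).2
  rw [h, card_powersetCard, card_range]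

theorem dbl (X : Finset ℕ) (s : ℕ) (φ : Finset ℕ → ℕ) :
    ∑ T ∈ powersetCard s X, ∑ x ∈ X \ T, φ (insert x T) =
      (s + 1) * ∑ T ∈ powersetCard (s + 1) X, φ T := by
  have h : (s + 1) * ∑ T ∈ powersetCard (s + 1) X, φ T =
      ∑ T ∈ powersetCard (s + 1) X, ∑ _x ∈ T, φ T := by
    rw [mul_sum]
    refine sum_congr rfl fun T hT => ?_
    rw [sum_const, (mem_powersetCard.1 hT).2, smul_eq_mul]
  rw [h, sum_sigma', sum_sigma']
  refine sum_bij' (fun p _ => ⟨insert p.2 p.1, p.2⟩) (fun p _ => ⟨p.1.erase p.2, p.2⟩)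
    ?_ ?_ ?_ ?_ ?_
  · rintro ⟨T, x⟩ hp
    simp only [mem_sigma, mem_powersetCard, mem_sdiff] at hp ⊢
    exact ⟨⟨insert_subset hp.2.1 hp.1.1, by rw [card_insert_of_notMem hp.2.2, hp.1.2]⟩,
      mem_insert_self _ _⟩
  · rintro ⟨T, x⟩ hp
    simp only [mem_sigma, mem_powersetCard, mem_sdiff] at hp ⊢
    refine ⟨⟨(erase_subset _ _).trans hp.1.1, ?_⟩, hp.1.1 hp.2, notMem_erase _ _⟩
    rw [card_erase_of_mem hp.2, hp.1.2]
    rfl
  · rintro ⟨T, x⟩ hp
    simp only [mem_sigma, mem_powersetCard, mem_sdiff] at hp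
    simp only [erase_insert hp.2.2]
  · rintro ⟨T, x⟩ hp
    simp only [mem_sigma, mem_powersetCard] at hp
    simp only [insert_erase hp.2]
  · rintro ⟨T, x⟩ _
    rfl

/-- the `s`-subsets through a point -/
theorem star (X : Finset ℕ) (s x : ℕ) :
    ((powersetCard s X).filter fun T => x ∈ T).card * X.card ≤ s * X.card.choose s := by
  by_cases hx : x ∈ X
  · rcases s with _ | t
    · have h : ((powersetCard 0 X).filter fun T => x ∈ T) = ∅ :=
        eq_empty_of_forall_notMem fun T hT => by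
          rw [mem_filter, mem_powersetCard, card_eq_zero] at hT
          exact notMem_empty x (hT.1.2 ▸ hT.2)
      rw [h, card_empty, zero_mul]
      exact Nat.zero_le _
    · have h : ((powersetCard (t + 1) X).filter fun T => x ∈ T) ⊆
          (powersetCard t (X.erase x)).image (insert x) := fun T hT => by
        rw [mem_filter, mem_powersetCard] at hT
        refine mem_image.2 ⟨T.erase x, mem_powersetCard.2 ⟨erase_subset_erase _ hT.1.1, ?_⟩,
          insert_erase hT.2⟩
        rw [card_erase_of_mem hT.2, hT.1.2]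
        rfl
      have h1 := (card_le_card h).trans card_image_le
      rw [card_powersetCard, card_erase_of_mem hx] at h1
      have h2 := Nat.add_one_mul_choose_eq (X.card - 1) t
      have h3 : X.card - 1 + 1 = X.card := Nat.sub_add_cancel (card_pos.2 ⟨x, hx⟩)
      rw [h3] at h2
      calc _ ≤ (X.card - 1).choose t * X.card := Nat.mul_le_mul_right _ h1
        _ = _ := by rw [mul_comm, h2, mul_comm]
  · have h : ((powersetCard s X).filter fun T => x ∈ T) = ∅ :=
      eq_empty_of_forall_notMem fun T hT => by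
        rw [mem_filter, mem_powersetCard] at hT
        exact hx (hT.1.1 hT.2)
    rw [h, card_empty, zero_mul]
    exact Nat.zero_le _

theorem near (w u n s : ℕ) :
    (powersetCard s (Ico w n) \ powersetCard s (Ico u n)).card * (n - w) ≤
      (u - w) * s * (n - w).choose s := by
  have h : powersetCard s (Ico w n) \ powersetCard s (Ico u n) ⊆
      (Ico w u).biUnion fun x => (powersetCard s (Ico w n)).filter fun T => x ∈ T := by
    intro T hT
    rw [mem_sdiff] at hT
    have h1 := mem_powersetCard.1 hT.1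
    have h2 : ¬ T ⊆ Ico u n := fun h => hT.2 (mem_powersetCard.2 ⟨h, h1.2⟩)
    obtain ⟨x, hx, hx'⟩ := not_subset.1 h2
    have h3 := mem_Ico.1 (h1.1 hx)
    rw [mem_Ico] at hx'
    exact mem_biUnion.2 ⟨x, mem_Ico.2 ⟨h3.1, by omega⟩, mem_filter.2 ⟨hT.1, hx⟩⟩
  have h1 := (card_le_card h).trans card_biUnion_le
  calc _ ≤ (∑ x ∈ Ico w u, ((powersetCard s (Ico w n)).filter fun T => x ∈ T).card) * (n - w) :=
        Nat.mul_le_mul_right _ h1
    _ = ∑ x ∈ Ico w u, ((powersetCard s (Ico w n)).filter fun T => x ∈ T).card * (n - w) :=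
        sum_mul _ _ _
    _ ≤ ∑ _x ∈ Ico w u, s * (n - w).choose s := sum_le_sum fun x _ => by
        have := star (Ico w n) s x
        rwa [Nat.card_Ico] at this
    _ = _ := by rw [sum_const, Nat.card_Ico, smul_eq_mul, mul_assoc]

theorem upp_insert {Y : Finset ℕ} {p : ℕ} (hp : p ∉ Y) (s : ℕ) (φ : Finset ℕ → ℕ) :
    ∑ P ∈ upp (insert p Y) (s + 1), φ P =
      ∑ T ∈ upp Y (s + 1), φ T + ∑ T ∈ upp Y s, φ (insert p T) := by
  simp only [upp, sum_filter]
  rw [sum_powerset_insert hp]
  congr 1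
  refine sum_congr rfl fun T hT => ?_
  have h : p ∉ T := fun h => hp (mem_powerset.1 hT h)
  simp only [card_insert_of_notMem h, Nat.add_le_add_iff_right]

/-- regrouping the tails by the point `p` -/
theorem regroup {p n : ℕ} (h : p < n) (s : ℕ) (φ : Finset ℕ → ℕ) :
    ∑ T ∈ powersetCard s (Ico (p + 1) n), φ T + ∑ P ∈ upp (Ico p n) (s + 1), φ P =
      ∑ T ∈ upp (Ico (p + 1) n) s, (φ T + φ (insert p T)) := by
  have h1 : Ico p n = insert p (Ico (p + 1) n) := by
    ext y
    simp only [mem_insert, mem_Ico]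
    omega
  have h2 : p ∉ Ico (p + 1) n := fun h => by
    have := mem_Ico.1 h
    omega
  rw [h1, upp_insert h2, sum_add_distrib, upp_succ _ s φ, add_assoc]

theorem split (p n s : ℕ) (G : Finset (Finset ℕ)) (h : p < n) :
    ∑ T ∈ upp (Ico (p + 1) n) s, (fib (p + 1) G T).card =
        ∑ T ∈ powersetCard s (Ico (p + 1) n), (fib p G T).card +
          ∑ P ∈ upp (Ico p n) (s + 1), (fib p G P).card ∧
      ∑ T ∈ powersetCard s (Ico (p + 1) n), (∂ (fib p G T)).card +
          ∑ P ∈ upp (Ico p n) (s + 1), (∂ (fib p G P)).card ≤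
        ∑ T ∈ upp (Ico (p + 1) n) s, (fib (p + 1) (∂ G) T).card := by
  constructor
  · rw [regroup h s fun T => (fib p G T).card]
    exact sum_congr rfl fun T _ => (card_fib_split p G T).symm
  · rw [regroup h s fun T => (∂ (fib p G T)).card]
    exact sum_le_sum fun T hT => (shadow_fib_split p G T).trans
      (card_le_card (Seg.shadow_fib_subset (Seg.out_Ico (mem_upp.1 hT).1)))

end Cnt

theorem cn : CN :=
  ⟨Cnt.sum_low, Cnt.low_succ, Cnt.total, Cnt.cardAF, Cnt.dbl, fun w u n s _ => Cnt.near w u n s,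
    Cnt.split⟩

end Pool.Agent.MP_d50107_co.P61
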