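import Pool.Agent.MP_d50107_co.P61.Join

/-! The lower bound for shifted families and the construction, in terms of sequences. -/

namespace Pool.Agent.MP_d50107_co.P61

open Finset
open scoped FinsetFamily
open Pool.Agent.MP_d50107_co.H54 (IsInit)
open Pool.Agent.MP_d50107_co.H61

namespace Core

theorem dualCC {a m : ℕ} (ha : 1 ≤ a) (hm : m ≤ NN a) (h4 : NN a ≤ CC a) :
    kk (a + 1) (CC a - m) + cl a m = CC a := by
  have e : (a + (a + 1)).choose a = CC a := by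
    rw [CC, show a + (a + 1) = 2 * a + 1 by ring, Nat.choose_symm_half]
  have h := hKN.dual a (a + 1) m ha (by rw [e]; omega)
  rwa [e, show a + (a + 1) = 2 * a + 1 by ring] at h

theorem NN_le (a : ℕ) : NN a ≤ CC a := by
  rw [CC, Nat.choose_symm_half]
  exact Nat.choose_le_choose _ (by omega)

/-- from tail functions to sequences -/
theorem mix_rm (hA : All) {n a s m μ D : ℕ} (ha : 1 ≤ a) (hn : 2 * (a + s + 1) ≤ n)
    (hm : (AF n (a + s) a).card + μ = m)
    (h : Mix a s (Ico (2 * a + 1) n) μ ((D : ℝ) -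
      ((∑ T ∈ low (Ico (2 * a + 1) n) (s + 1), (2 * a + 1).choose (a + s - T.card) : ℕ) : ℝ))) :
    ∃ v, RM n (a + s + 1) m v ∧ v ≤ D := by
  obtain ⟨g, M, h1, h2, h3, h4⟩ := h
  obtain ⟨N, rfl⟩ : ∃ N, n = 2 * a + 1 + N := Nat.exists_eq_add_of_le (by omega)
  have hX : (Ico (2 * a + 1) (2 * a + 1 + N)).card = N := by rw [Nat.card_Ico]; omega
  obtain ⟨g', M', b1, b2, b3, b4⟩ := hA.hilLow s _ g M (by omega) h2
  rw [hA.cn.cardAF _ a s (by omega),
    hA.cn.sum_low _ _ fun i => (2 * a + 1).choose (a + s + 1 - i)] at hm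
  rw [hA.cn.sum_low _ _ fun i => (2 * a + 1).choose (a + s - i), sum_range_succ,
    Nat.add_sub_cancel, ← Nat.choose_symm_half] at h4
  rw [hX] at b1 b2 b3 b4 hm h4
  refine ⟨_, ⟨a, s, N, g', M', ha, rfl, rfl, fun j hj => ?_, b1, ?_, rfl⟩, ?_⟩
  · obtain ⟨U, hU, e⟩ := b4 j hj
    exact e ▸ h1 U hU
  · rw [b2 fun x => x, b3 fun x => x]
    omega
  · rw [b2 (kk a), b3 fun x => kk (a + 1) ((2 * a + 1).choose (a + 1) - x), Nat.add_sub_cancel]
    have e : ∑ U ∈ powersetCard s (Ico (2 * a + 1) (2 * a + 1 + N)),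
        kk (a + 1) ((2 * a + 1).choose (a + 1) - M U) +
        ∑ U ∈ powersetCard s (Ico (2 * a + 1) (2 * a + 1 + N)), cl a (M U) =
        (2 * a + 1).choose (a + 1) * N.choose s := by
      rw [← sum_add_distrib]
      refine (sum_congr rfl fun U hU => dualCC ha (h1 U hU) (NN_le a)).trans ?_
      rw [sum_const, card_powersetCard, hX, smul_eq_mul, mul_comm, CC]
    rw [sub_le_sub_iff] at h4
    have h5 := (Nat.cast_le (α := ℝ)).1 (by push_cast at h4 ⊢; exact h4 :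
      ((∑ T ∈ powersetCard (s + 1) (Ico (2 * a + 1) (2 * a + 1 + N)), kk a (g T) +
        (∑ i ∈ range s, (2 * a + 1).choose (a + s - i) * N.choose i +
          (2 * a + 1).choose (a + 1) * N.choose s) : ℕ) : ℝ) ≤
      ((D + ∑ U ∈ powersetCard s (Ico (2 * a + 1) (2 * a + 1 + N)), cl a (M U) : ℕ) : ℝ))
    omega

/-- the construction -/
theorem rm_upper (hA : All) {n k m v : ℕ} (hn : 2 * k ≤ n) (h : RM n k m v) :
    ∃ 𝒜 : Finset (Finset (Fin n)), (∀ A ∈ 𝒜, A.card = k) ∧ H54.Inter 𝒜 ∧ 𝒜.card = m ∧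
      (∂ 𝒜).card ≤ v := by
  obtain ⟨a, s, N, g, M, ha, rfl, rfl, h1, h2, h3, rfl⟩ := h
  obtain ⟨rk, rk', b1, b2, b3⟩ := hA.hilUp (2 * a + 1) N s (by omega)
  have hX : (Ico (2 * a + 1) (2 * a + 1 + N)).card = N := by rw [Nat.card_Ico]; omega
  have c1 : ∀ ψ : ℕ → ℕ, ∑ T ∈ powersetCard (s + 1) (Ico (2 * a + 1) (2 * a + 1 + N)),
      ψ (rk T) = ∑ i ∈ range (N.choose (s + 1)), ψ i := fun ψ =>
    sum_nbij rk b1.1 b1.2.1 b1.2.2 fun _ _ => rfl
  have c2 : ∀ ψ : ℕ → ℕ, ∑ T ∈ powersetCard s (Ico (2 * a + 1) (2 * a + 1 + N)),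
      ψ (rk' T) = ∑ i ∈ range (N.choose s), ψ i := fun ψ =>
    sum_nbij rk' b2.1 b2.2.1 b2.2.2 fun _ _ => rfl
  obtain ⟨G, g1, g2, g3, g4, g5⟩ := hA.up (2 * a + 1 + N) a s (fun T => g (rk T))
    (fun U => M (rk' U)) ha hn (fun U hU => h1 _ (mem_range.1 (b2.1 hU)))
    fun T hT U hU hd => h2 _ (mem_range.1 (b1.1 hT)) _ (b3 T hT U hU hd)
  rw [c1 g, c2 M, hA.cn.sum_low _ _ fun i => (2 * a + 1).choose (a + s + 1 - i), hX] at g4
  rw [c1 fun i => kk a (g i), c2 fun j => kk (a + 1) (CC a - M j),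
    hA.cn.sum_low _ _ fun i => (2 * a + 1).choose (a + s - i), hX] at g5
  obtain ⟨𝒜, a1, a2, a3, a4⟩ := Upper.lift g1 g2 g3
  exact ⟨𝒜, a1, a2, by omega, a4.trans g5⟩

theorem sum_getD (ψ : ℕ → ℕ) (h0 : ψ 0 = 0) : ∀ (g : List ℕ) (N : ℕ), g.length ≤ N →
    ∑ i ∈ range N, ψ (g.getD i 0) = (g.map ψ).sum
  | [], N, _ => by simp [h0]
  | x :: g, 0, h => by simp at h
  | x :: g, N + 1, h => by
    rw [sum_range_succ', List.map_cons, List.sum_cons, add_comm]
    simp only [List.getD_cons_succ, List.getD_cons_zero]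
    rw [sum_getD ψ h0 g N (by simpa using h)]

/-- the range of the two-level theorem -/
theorem rm_top {n K m M : ℕ} {g : List ℕ} (hK : 1 ≤ K) (h : Adm K m M g)
    (hn : 2 * K + 1 + g.length ≤ n) : RM n (K + 1) m (val K M g) := by
  obtain ⟨N, rfl⟩ : ∃ N, n = 2 * K + 1 + N := Nat.exists_eq_add_of_le (by omega)
  refine ⟨K, 0, N, fun i => g.getD i 0, fun _ => M, hK, rfl, rfl, fun _ _ => h.1,
    fun i _ _ _ => ?_, ?_, ?_⟩
  · change g.getD i 0 ≤ M
    rcases lt_or_ge i g.length with hi | hi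
    · exact h.2.1 _ (by rw [List.getD_eq_getElem _ _ hi]; exact List.getElem_mem hi)
    · rw [List.getD_eq_default _ _ hi]
      exact Nat.zero_le _
  · have h1 := sum_getD (fun x => x) rfl g N (by omega)
    have h2 := h.2.2
    rw [List.map_id'] at h1
    rw [NB] at h2
    simp only [Nat.choose_zero_right, zero_add, Nat.choose_one_right, range_one, sum_singleton,
      Nat.sub_zero, mul_one]
    omega
  · have h1 := sum_getD (kk K) (kk_zero K) g N (by omega)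
    simp only [Nat.choose_zero_right, zero_add, Nat.choose_one_right, range_one, sum_singleton,
      range_zero, sum_empty]
    rw [h1]
    rfl

theorem AF_top {n K : ℕ} (h : 2 * K + 1 ≤ n) :
    AF n K K = powersetCard (K + 1) (range (2 * K + 1)) := by
  ext A
  rw [Lift.mem_AF, mem_powersetCard]
  constructor
  · rintro ⟨-, h2, h3⟩
    have e : (A.filter fun x => x < 2 * K + 1) = A :=
      eq_of_subset_of_card_le (filter_subset _ _) (by omega)
    exact ⟨fun x hx => mem_range.2 (mem_filter.1 (e.ge hx)).2, h2⟩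
  · rintro ⟨h1, h2⟩
    refine ⟨h1.trans (range_mono h), h2, ?_⟩
    rw [filter_true_of_mem fun x hx => mem_range.1 (h1 hx), h2]

theorem four {a k r : ℕ} (ha : a + 2 ≤ k) (h1 : 1 ≤ r) (h2 : 64 * k * r ≤ CC a) : 4 ≤ a := by
  by_contra hc
  have h3 : 64 * k * 1 ≤ 64 * k * r := Nat.mul_le_mul_left _ h1
  have h4 := ArithAux.cc_le a
  have h5 : 4 ^ a ≤ 4 ^ 3 := Nat.pow_le_pow_right (by norm_num) (by omega)
  omega

/-- the lower bound above the range of the two-level theorem -/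
theorem core (hA : All) (hD : DM) {n K : ℕ} {F : Finset (Finset ℕ)} (hK : 1 ≤ K)
    (hn : 20000 * (K + 1) ^ 20 ≤ n) (hF : Good K F) (hs : ∀ A ∈ F, A ⊆ range n)
    (h0 : F.card ≤ (AF n K 0).card)
    (hb : (2 * K - 1).choose (K + 1) + NN K * (n - (2 * K - 1)) < F.card) :
    (∃ j L, IsInit (AF n K j) L ∧ L.card = F.card ∧ (∂ L).card ≤ (∂ F).card) ∨
      ∃ v, RM n (K + 1) F.card v ∧ v ≤ (∂ F).card := by
  have p1 : K + 1 ≤ (K + 1) ^ 20 := Nat.le_self_pow (by norm_num) _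
  have hCC : 2 * (K + 1) * CC K < F.card := by
    have h1 := hA.nc.c4 K hK
    have h2 : NN K * (8 * (K + 1)) ≤ NN K * (n - (2 * K - 1)) :=
      Nat.mul_le_mul_left _ (by omega)
    have h3 : 2 * (K + 1) * CC K ≤ 2 * (K + 1) * (4 * NN K) := Nat.mul_le_mul_left _ h1
    have h4 : 2 * (K + 1) * (4 * NN K) = NN K * (8 * (K + 1)) := by ring
    omega
  have hbd : ∀ j, j ≤ K → F.card ≤ (AF n K j).card → j + 2 ≤ K := fun j h1 hj => by
    by_contra hc
    rcases (show j = K - 1 ∨ j = K by omega) with e | e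
    · have := lf.top n K hK
      rw [e] at hj
      omega
    · rw [e, AF_top (by omega), card_powersetCard, card_range] at hj
      have : 1 * CC K ≤ 2 * (K + 1) * CC K := Nat.mul_le_mul_right _ (by omega)
      rw [CC] at this hCC
      omega
  obtain ⟨i, hi0, hi1, hi2⟩ : ∃ i, i ≤ K ∧ F.card ≤ (AF n K i).card ∧
      ∀ j, j ≤ K → F.card ≤ (AF n K j).card → j ≤ i :=
    ⟨_, Nat.findGreatest_le K,
      Nat.findGreatest_spec (P := fun j => F.card ≤ (AF n K j).card) (Nat.zero_le K) h0,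
      fun j h1 hj => Nat.le_findGreatest h1 hj⟩
  have hi := hbd i hi0 hi1
  obtain ⟨L, hL, hLc⟩ := H54.exists_isInit _ _ hi1
  by_cases hle : (∂ L).card ≤ (∂ F).card
  · exact Or.inl ⟨i, L, hL, hLc, hle⟩
  obtain ⟨e, e1, e2⟩ := hA.ratio n K i L hi hn hL (by
    by_contra hc
    have := hi2 (i + 1) (by omega) (by omega)
    omega)
  rw [hLc] at e1 e2
  have e3 : 512 * (K + 1) ^ 3 * e ≤ F.card := by
    refine le_trans (Nat.mul_le_mul_right _ ?_) e2
    have h1 : 2 ^ 6 ≤ (K + 1) ^ 6 := Nat.pow_le_pow_left (by omega) 6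
    calc 512 * (K + 1) ^ 3 ≤ 65 * (K + 1) ^ 6 * (K + 1) ^ 3 :=
          Nat.mul_le_mul_right _ (by omega)
      _ = _ := by ring
  obtain ⟨a, s, 𝒯, rfl, t1, t2, t3⟩ := hA.dense n K e F hF hs (by omega) e3
  have hs1 : 1 ≤ s := by
    by_contra hc
    obtain rfl : s = 0 := by omega
    have h1 := card_le_card t1
    rw [powersetCard_zero, card_singleton] at h1
    have h2 := Nat.mul_le_mul_left (2 * (a + 0 + 1) * CC a) h1
    simp only [add_zero] at *
    omega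
  have hne : 𝒯.Nonempty := by
    rw [nonempty_iff_ne_empty]
    rintro rfl
    rw [card_empty, mul_zero] at t3
    omega
  rcases Nat.eq_zero_or_pos (ms a F (T0 a s)) with hr | hr
  · have h1 := hA.sd.maj n a s F hF hs hr
    obtain ⟨L', b1, b2⟩ := H54.exists_isInit _ _ (card_le_card h1)
    exact Or.inl ⟨a, L', b1, b2, kk_AF h1 b1 b2.le⟩
  have hr2 : 64 * (a + s + 1) * ms a F (T0 a s) ≤ CC a := by
    obtain ⟨U, hU⟩ := hne
    exact (Nat.mul_le_mul_left _ (hA.sd.fr a s F U hF (Join.far_out (t1 hU)).1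
      (Join.far_out (t1 hU)).2).2).trans (t2 U hU)
  have ha := four (by omega) hr hr2
  have hC : Ctx n a s e F 𝒯 := ⟨hF, hs, ha, hs1, hn, by omega, e2, t1, t2, t3, hne, hr, hr2⟩
  rcases le_total F.card (AF n (a + s) a).card with hm | hm
  · obtain ⟨L', b1, b2⟩ := H54.exists_isInit _ _ hm
    exact Or.inl ⟨a, L', b1, b2, Join.regI hA hC b1 b2⟩
  · obtain ⟨μ, hμ⟩ := Nat.exists_eq_add_of_le hm
    exact Or.inr (mix_rm hA (by omega) (by omega) hμ.symm (Join.regII hA hC hμ.symm))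

/-- the lower bound -/
theorem lower (hA : All) (hD : DM) {n K : ℕ} (hK : 1 ≤ K) (hn : 20000 * (K + 1) ^ 20 ≤ n)
    {𝒜 : Finset (Finset (Fin n))} (a1 : ∀ A ∈ 𝒜, A.card = K + 1) (a2 : H54.Inter 𝒜) :
    (∃ j ℒ, IsInit (H54.maj n (K + 1) j) ℒ ∧ ℒ.card = 𝒜.card ∧ (∂ ℒ).card ≤ (∂ 𝒜).card) ∨
      ∃ v, RM n (K + 1) 𝒜.card v ∧ v ≤ (∂ 𝒜).card := by
  have p1 : K + 1 ≤ (K + 1) ^ 20 := Nat.le_self_pow (by norm_num) _
  obtain ⟨F, b1, b2, b3, b4⟩ := lf.reduce n K 𝒜 a1 a2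
  have key : (∃ j L, IsInit (AF n K j) L ∧ L.card = F.card ∧ (∂ L).card ≤ (∂ F).card) ∨
      ∃ v, RM n (K + 1) F.card v ∧ v ≤ (∂ F).card := by
    by_cases h1 : F.card ≤ NB K
    · obtain ⟨L, c1, c2⟩ := H54.exists_isInit (AF n K K) F.card (by
        rwa [AF_top (by omega), card_powersetCard, card_range])
      refine Or.inl ⟨K, L, c1, c2, ?_⟩
      rw [AF_top (by omega)] at c1
      rw [(initStmt _ _ _ c1).1, c2]
      exact hKN.thm _ _ b1.1
    by_cases h2 : F.card ≤ (2 * K - 1).choose (K + 1) + NN K * (n - (2 * K - 1))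
    · obtain ⟨M, g, c1, c2⟩ := mainStmt K F hK b1 (by omega)
      obtain ⟨M', g', d1, d2, d3⟩ := H25.fitLin n K F.card hK (by omega)
        (fit_iff hK (by omega) h2) (by omega) M g c1
      exact Or.inr ⟨_, rm_top hK d1 d2, d3.trans (by exact_mod_cast c2)⟩
    · refine core hA hD hK hn b1 b2 ?_ (by omega)
      rw [← lf.card, b3]
      refine H54.le_card_star (by omega) a1 a2 ?_
      have c1 := ArithAux.pow_le_cc K
      have c2 := hA.nc.c4 K hK
      have c3 : NN K * (16 * (K + 1)) ≤ NN K * (n - (2 * K - 1)) :=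
        Nat.mul_le_mul_left _ (by omega)
      have c4 : (2 * K + 2) * CC K ≤ (2 * K + 2) * (4 * NN K) := Nat.mul_le_mul_left _ c2
      have c5 : 2 * ((2 * K + 2) * (4 * NN K)) = NN K * (16 * (K + 1)) := by ring
      have c6 : 2 ^ (2 * (K + 1)) = 2 * 2 ^ (2 * K + 1) := by ring
      omega
  rcases key with ⟨j, L, c1, c2, c3⟩ | ⟨v, c1, c2⟩
  · obtain ⟨ℒ, d1, d2⟩ := H54.exists_isInit (H54.maj n (K + 1) j) 𝒜.card (by
      have := card_le_card c1.1
      rw [lf.card]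
      omega)
    obtain ⟨𝒢, g1, g2, g3⟩ := lf.lift n K j L c1.1
    exact Or.inl ⟨j, ℒ, d1, d2, (H54.kk_maj g1 d1 (by omega)).trans (g3.trans (c3.trans b4))⟩
  · exact Or.inr ⟨v, b3 ▸ c1, c2.trans b4⟩

end Core

end Pool.Agent.MP_d50107_co.P61
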