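import Pool.Agent.MP_d50107_co.P61.Spec

/-! The numbers read off from a family. -/

namespace Pool.Agent.MP_d50107_co.P61

open Finset
open scoped FinsetFamily
open Pool.Agent.MP_d50107_co.H54 (IsInit)
open Pool.Agent.MP_d50107_co.H61

namespace DatX

theorem dual {i l w : ℕ} {Z : Finset (Finset ℕ)} (hi : 1 ≤ i) (hw : i + l = w)
    (h : Z ⊆ powersetCard l (range w)) :
    w.choose (i + 1) ≤ (∂ Z).card + cl i (w.choose l - Z.card) := by
  subst hw
  have h1 := card_le_choose h
  have h2 := hKN.thm l Z (card_eq_of_subset h)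
  rw [← Nat.choose_symm_add] at h1 ⊢
  have h3 := hKN.dual i l ((i + l).choose i - Z.card) hi (Nat.sub_le _ _)
  rw [Nat.sub_sub_self h1] at h3
  omega

variable {a s : ℕ} {F : Finset (Finset ℕ)} {U : Finset ℕ}

theorem g0 (hF : ∀ A ∈ F, A.card = a + s + 1) (hU : Out (2 * a + 1) U) (hc : U.card = s) :
    gm a F U ≤ ms a F U := by
  have h1 := hLY.down _ _ _ (fib_subset (l := a + 1) hF hU (by omega))
  rw [show 2 * a + 1 - (a + 1) + 1 = a + 1 by omega] at h1
  exact Nat.sub_le_sub_left ((Nat.le_of_mul_le_mul_left h1 a.succ_pos).trans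
    (card_le_card (Seg.shadow_fib_subset hU))) _

theorem g1 (ha : 1 ≤ a) (hF : ∀ A ∈ F, A.card = a + s + 1) (hU : Out (2 * a + 1) U)
    (hc : U.card = s) : gm a F U ≤ cl a (ms a F U) := by
  have h1 := dual (i := a) ha (by omega) (fib_subset (l := a + 1) hF hU (by omega))
  have h2 := card_le_card (Seg.shadow_fib_subset (X := F) hU)
  unfold gm ms CC
  omega

theorem g2 (ha : 2 ≤ a) (hF : ∀ A ∈ F, A.card = a + s + 1) (hU : Out (2 * a + 1) U)
    (hc : U.card = s) : gm a F U ≤ cl (a - 1) (p1 a F U) + cl a (p0 a F U) := by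
  have hn : 2 * a ∉ U := fun h => by have := hU _ h; omega
  have h0 := dual (i := a - 1) (by omega) (by omega)
    (fib_subset (l := a + 1) hF (hU.mono (Nat.le_succ _)) (by omega))
  have h1 := dual (i := a) (by omega) (by omega)
    (fib_subset (l := a) hF ((hU.mono (Nat.le_succ _)).insert le_rfl)
      (by rw [card_insert_of_notMem hn]; omega))
  have h2 := card_le_card (Seg.shadow_fib_subset (X := F) hU)
  have h3 := shadow_fib_split (2 * a) F U
  have h4 := Nat.choose_succ_succ' (2 * a) a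
  rw [Nat.sub_add_cancel (by omega)] at h0
  unfold gm p0 p1 CC
  omega

theorem cost {x y : ℕ} (ha : 2 ≤ a) (h : (a - 1) * x ≤ (a - 2) * y) : (a + 1) * x ≤ a * y := by
  obtain ⟨b, rfl⟩ := Nat.exists_eq_add_of_le' ha
  rw [show b + 2 - 1 = b + 1 by omega, Nat.add_sub_cancel] at h
  refine Nat.le_of_mul_le_mul_left ?_ (show 0 < b + 1 by omega)
  calc (b + 1) * ((b + 2 + 1) * x) = (b + 3) * ((b + 1) * x) := by ring
    _ ≤ (b + 3) * (b * y) := Nat.mul_le_mul_left _ h
    _ ≤ (b + 3) * (b * y) + 2 * y := le_self_add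
    _ = _ := by ring

theorem cast {x y z u v w : ℕ} (h : x + y + w ≤ v + z + 3 * u) :
    (x : ℝ) + y - z - 3 * u ≤ v - w := by
  have : (x : ℝ) + y + w ≤ v + z + 3 * u := by exact_mod_cast h
  linarith

end DatX

theorem datStmt (hC : CN) (hS : SD) (hL : ScaleStmt) (hG : SigStmt) : DatStmt := by
  intro n a s e μ F 𝒯 c hμ
  have a4 := c.a4
  have big := c.big
  have hF := c.good.1
  have k1 : (a + s + 1) ^ 6 ≤ (a + s + 1) ^ 20 := Nat.pow_le_pow_right (by omega) (by omega)
  have k2 : a + s + 1 ≤ (a + s + 1) ^ 20 := Nat.le_self_pow (by omega) _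
  have q : ∀ {w t : ℕ} {U : Finset ℕ}, U ∈ powersetCard t (Ico w n) → Out w U ∧ U.card = t :=
    fun h => ⟨Seg.out_Ico (mem_powersetCard.1 h).1, (mem_powersetCard.1 h).2⟩
  obtain ⟨s1, s2⟩ := hG n a s F c.good c.sub (by omega) (by omega)
  obtain ⟨p1', p2⟩ := hC.split (2 * a) n (s + 1) F (by omega)
  have add : ∀ U ∈ powersetCard s (Ico (2 * a + 1) n), p0 a F U + p1 a F U = ms a F U :=
    fun U hU => hS.add a s F U c.good (q hU).1 (q hU).2
  refine ⟨a4, c.s1, by rw [Nat.card_Ico]; omega,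
    powersetCard_mono (Ico_subset_Ico (by omega) le_rfl), ?_, c.r2, c.r1, ?_, ?_, ?_,
    fun T hT => hS.hr a s F T c.good (q hT).1 (q hT).2,
    fun T hT U hU => hS.hx a s F T U c.good (q hT).1 (q hT).2 (q hU).1 (q hU).2,
    fun U hU => (hS.fr a s F U c.good (q hU).1 (q hU).2).1,
    fun U hU => add U hU ▸ DatX.g0 hF (q hU).1 (q hU).2,
    fun U hU => add U hU ▸ DatX.g1 (by omega) hF (q hU).1 (q hU).2,
    fun U hU => DatX.g2 (by omega) hF (q hU).1 (q hU).2, ?_, ?_⟩
  · rw [Nat.card_Ico]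
    refine (hC.near _ _ n s (by omega)).trans (Nat.mul_le_mul_right _ ?_)
    rw [pow_two, ← mul_assoc]
    exact Nat.mul_le_mul (Nat.sub_le _ _) (by omega)
  · rw [← hS.add a s F (T0 a s) c.good ((Seg.out_Ico Subset.rfl).mono (by omega)) (by simp [T0])]
    exact le_self_add
  · have e1 := hC.total (2 * a + 1) n (s + 1) F c.sub
    have e2 := hC.cardAF n a s (by omega)
    rw [hC.low_succ] at e1 e2
    have e3 : sg n a s F + ∑ T ∈ low (Ico (2 * a + 1) n) s, (fib (2 * a + 1) F T).card =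
        ∑ T ∈ low (Ico (2 * a + 1) n) s, (2 * a + 1).choose (a + s + 1 - T.card) := by
      rw [sg, ← sum_add_distrib]
      refine sum_congr rfl fun T hT => Nat.sub_add_cancel (card_le_choose (fib_subset hF
        (Seg.out_Ico (mem_powerset.1 (mem_filter.1 hT).1)) ?_))
      have := (mem_filter.1 hT).2
      omega
    have e4 : ∑ U ∈ powersetCard s (Ico (2 * a + 1) n), (p0 a F U + p1 a F U) +
        ∑ U ∈ powersetCard s (Ico (2 * a + 1) n), (fib (2 * a + 1) F U).card =
        ∑ U ∈ powersetCard s (Ico (2 * a + 1) n), (2 * a + 1).choose (a + s + 1 - U.card) := by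
      rw [← sum_add_distrib]
      refine sum_congr rfl fun U hU => ?_
      rw [add U hU, (q hU).2, show a + s + 1 - s = a + 1 by omega]
      exact Nat.sub_add_cancel (card_le_choose (fib_subset hF (q hU).1 (by rw [(q hU).2]; omega)))
    change _ = ∑ T ∈ powersetCard (s + 1) (Ico (2 * a + 1) n), hh a F T + dl n a s F at p1'
    omega
  · have e1 := hC.total (2 * a + 1) n (s + 1) (∂ F) fun A hA => by
      obtain ⟨B, hB, x, -, rfl⟩ := mem_shadow_iff.1 hA
      exact (erase_subset _ _).trans (c.sub B hB)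
    rw [hC.low_succ] at e1 ⊢
    have e2 : ∑ U ∈ powersetCard s (Ico (2 * a + 1) n), (2 * a + 1).choose (a + s - U.card) ≤
        ∑ U ∈ powersetCard s (Ico (2 * a + 1) n), gm a F U +
          ∑ U ∈ powersetCard s (Ico (2 * a + 1) n), (fib (2 * a + 1) (∂ F) U).card := by
      rw [← sum_add_distrib]
      refine sum_le_sum fun U hU => ?_
      rw [(q hU).2, Nat.add_sub_cancel, ← Nat.choose_symm_half]
      exact le_tsub_add
    have e3 : ∑ T ∈ powersetCard (s + 1) (Ico (2 * a + 1) n), kk a (hh a F T) ≤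
        ∑ T ∈ powersetCard (s + 1) (Ico (2 * a + 1) n), (∂ (fib (2 * a) F T)).card :=
      sum_le_sum fun T hT => hKN.thm a _ (card_eq_of_subset
        (fib_subset hF ((q hT).1.mono (Nat.le_succ _)) (by rw [(q hT).2]; omega)))
    change _ + cdl n a s F ≤ _ at p2
    refine DatX.cast ?_
    omega
  · rw [Nat.card_Ico]
    exact s1
  · rw [dl, cdl, mul_sum, mul_sum]
    exact sum_le_sum fun P hP => DatX.cost (by omega) ((hL n a s e F 𝒯 c).1 P hP)

end Pool.Agent.MP_d50107_co.P61
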