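import Pool.Agent.MP_d50107_co.H61.Defs

/-! Kruskal's bound applied several times. -/

namespace Pool.Agent.MP_d50107_co.P61

open Pool.Agent.MP_d50107_co.H61

/-- `kkDown s l g`: Kruskal's bound applied `s` times to `g` sets of size `l` -/
def kkDown : ℕ → ℕ → ℕ → ℕ
  | 0, _, g => g
  | s + 1, l, g => kkDown s (l - 1) (kk l g)

end Pool.Agent.MP_d50107_co.P61
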