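import Pool.Agent.MP_d50107_co.P61.Spec

/-! A family of small excess has many dense fibres over far tails, all at one level. -/

namespace Pool.Agent.MP_d50107_co.P61

open Finset
open scoped FinsetFamily
open Pool.Agent.MP_d50107_co.H61

namespace DenseA

/-- the number of points below `x` -/
def cnt (T : Finset ℕ) (x : ℕ) : ℕ := (T.filter fun y => y < x).card

theorem cnt_le (T : Finset ℕ) (x : ℕ) : cnt T x ≤ T.card := card_filter_le _ _

theorem cnt_mono (T : Finset ℕ) {x y : ℕ} (h : x ≤ y) : cnt T x ≤ cnt T y :=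
  card_le_card (monotone_filter_right _ fun _ _ hz => hz.trans_le h)

theorem cnt_tail (A : Finset ℕ) (w : ℕ) : cnt A w + (A.filter fun y => w ≤ y).card = A.card := by
  rw [← card_filter_add_card_filter_not (s := A) fun y => y < w]
  simp only [cnt, not_lt]

theorem cnt_add (A : Finset ℕ) {w x : ℕ} (h : w ≤ x) :
    cnt A w + cnt (A.filter fun y => w ≤ y) x = cnt A x := by
  rw [cnt, cnt, cnt, ← card_filter_add_card_filter_not (s := A.filter fun y => y < x)
    fun y => y < w, filter_filter, filter_filter, filter_filter]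
  congr 2 <;> exact filter_congr fun y _ => by omega

open Classical in
/-- the tails of level `j` that never return -/
noncomputable def Cl (n K j : ℕ) : Finset (Finset ℕ) :=
  (powersetCard (K - j) (Ico (2 * j + 1) n)).filter fun T =>
    j ≤ K ∧ ∀ i, j < i → cnt T (2 * i + 1) + j < i

theorem mem_Cl {n K j : ℕ} {T : Finset ℕ} : T ∈ Cl n K j ↔ T ⊆ Ico (2 * j + 1) n ∧
    T.card + j = K ∧ ∀ i, j < i → cnt T (2 * i + 1) + j < i := by
  classical
  rw [Cl, mem_filter, mem_powersetCard]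
  exact ⟨fun h => ⟨h.1.1, by omega, h.2.2⟩, fun h => ⟨⟨h.1, by omega⟩, by omega, h.2.2⟩⟩

variable {n K j : ℕ} {F : Finset (Finset ℕ)} {T : Finset ℕ}

theorem out (h : T ∈ Cl n K j) : Out (2 * j + 1) T := Seg.out_Ico (mem_Cl.1 h).1

theorem sub (hF : Good K F) (h : T ∈ Cl n K j) :
    fib (2 * j + 1) F T ⊆ powersetCard (j + 1) (range (2 * j + 1)) :=
  fib_subset hF.1 (out h) (by have := (mem_Cl.1 h).2.1; omega)

theorem cover (hD : DM) (hF : Good K F) (hn : ∀ A ∈ F, A ⊆ range n) :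
    F.card ≤ ∑ j ∈ range (K + 1), ∑ T ∈ Cl n K j, (fib (2 * j + 1) F T).card := by
  rw [sum_congr rfl fun j _ => FBAux.sum_fib F _ fun T hT => out hT]
  refine le_trans (card_le_card fun A hA => ?_) card_biUnion_le
  obtain ⟨j0, h1, h2⟩ := hD.lev K F A hF hA
  obtain ⟨j, hj⟩ : ∃ j, j = Nat.findGreatest (fun j => j + 1 ≤ cnt A (2 * j + 1)) K := ⟨_, rfl⟩
  have a1 : j ≤ K := hj ▸ Nat.findGreatest_le K
  have a2 : j + 1 ≤ cnt A (2 * j + 1) :=
    hj ▸ Nat.findGreatest_spec (P := fun j => j + 1 ≤ cnt A (2 * j + 1)) h1 h2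
  have a3 : ∀ i, j < i → cnt A (2 * i + 1) ≤ i := fun i hi => by
    by_cases h : i ≤ K
    · exact Nat.lt_succ_iff.1 (not_le.1 (Nat.findGreatest_is_greatest
        (P := fun j => j + 1 ≤ cnt A (2 * j + 1)) (hj ▸ hi) h))
    · have := cnt_le A (2 * i + 1)
      have := hF.1 A hA
      omega
  refine mem_biUnion.2 ⟨j, mem_range.2 (by omega), mem_filter.2 ⟨hA, mem_Cl.2
    ⟨fun y hy => ?_, ?_, fun i hi => ?_⟩⟩⟩
  · exact mem_Ico.2 ⟨(mem_filter.1 hy).2, mem_range.1 (hn A hA (mem_filter.1 hy).1)⟩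
  · have := cnt_tail A (2 * j + 1)
    have := hF.1 A hA
    have := a3 (j + 1) (by omega)
    have := cnt_mono A (show 2 * j + 1 ≤ 2 * (j + 1) + 1 by omega)
    omega
  · have := cnt_add A (show 2 * j + 1 ≤ 2 * i + 1 by omega)
    have := a3 i hi
    omega

theorem shad (hF : Good K F) :
    ∑ j ∈ range (K + 1), ∑ T ∈ Cl n K j, (∂ (fib (2 * j + 1) F T)).card ≤ (∂ F).card := by
  refine (sum_le_sum fun j _ => (sum_le_sum fun T hT =>
    card_le_card (FBAux.shadow_fib F (out hT))).trans_eq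
      (FBAux.sum_fib (∂ F) _ fun T hT => out hT)).trans ?_
  have key : ∀ i j, i < j → ∀ B ∈ ∂ F, (B.filter fun y => 2 * i + 1 ≤ y) ∈ Cl n K i →
      (B.filter fun y => 2 * j + 1 ≤ y) ∉ Cl n K j := fun i j hij B hB h1 h2 => by
    obtain ⟨A, hA, x, hx, rfl⟩ := mem_shadow_iff.1 hB
    have := card_erase_add_one hx
    have := hF.1 A hA
    have := cnt_tail (A.erase x) (2 * i + 1)
    have := cnt_tail (A.erase x) (2 * j + 1)
    have := cnt_add (A.erase x) (show 2 * i + 1 ≤ 2 * j + 1 by omega)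
    have := (mem_Cl.1 h1).2.1
    have := (mem_Cl.1 h2).2.1
    have := (mem_Cl.1 h1).2.2 j hij
    omega
  rw [← card_biUnion]
  · exact card_le_card (biUnion_subset.2 fun j _ => filter_subset _ _)
  · intro i _ j _ hij
    refine disjoint_left.2 fun B h1 h2 => ?_
    rw [mem_filter] at h1 h2
    rcases lt_or_gt_of_ne hij with h | h
    exacts [key i j h B h1.1 h1.2 h2.2, key j i h B h1.1 h2.2 h1.2]

theorem thin {Z : Finset (Finset ℕ)} (h : Z ⊆ powersetCard (j + 1) (range (2 * j + 1))) {E : ℕ}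
    (hE : ¬E * (CC j - Z.card) ≤ CC j) : Z.card ≤ (j + 1) * E * ((∂ Z).card - Z.card) := by
  have a1 : Z.card ≤ CC j := card_le_choose h
  have a2 := hKN.thm (j + 1) Z (card_eq_of_subset h)
  obtain ⟨m, hm⟩ := Nat.exists_eq_add_of_le a1
  rw [hm, Nat.add_sub_cancel_left, not_le] at hE
  rcases Nat.eq_zero_or_pos j with rfl | hj
  · have : CC 0 = 1 := rfl
    rcases Nat.eq_zero_or_pos m with rfl | h0 <;> omega
  have e1 : (2 * j + 1).choose j = CC j := (Nat.choose_symm_half j).symm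
  have e2 : CC j = (2 * j).choose j + (2 * j).choose (j + 1) := Nat.choose_succ_succ' _ _
  have hE1 : 1 ≤ E := Nat.pos_of_ne_zero fun e => by simp [e] at hE
  obtain ⟨x, hx⟩ : ∃ x, x = (∂ Z).card - Z.card := ⟨_, rfl⟩
  have a3 : kk (j + 1) Z.card ≤ Z.card + x := by omega
  rw [← hx]
  by_cases hc : m ≤ (2 * j).choose j
  · have b1 := hKN.dual j (j + 1) m hj (by rw [show j + (j + 1) = 2 * j + 1 by ring, e1]; omega)
    have b2 := hKN.clym j (2 * j) m hc
    rw [show j + (j + 1) = 2 * j + 1 by ring, e1, hm, Nat.add_sub_cancel, ← CC, hm] at b1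
    rw [show 2 * j - j = j by omega] at b2
    have b3 : m ≤ (j + 1) * x := by nlinarith
    linarith [Nat.mul_le_mul_left E b3]
  · have b1 := hKN.lym (j + 1) (2 * j) Z.card (by omega) (by omega)
    rw [show 2 * j - (j + 1) + 1 = j by omega] at b1
    have b2 : Z.card ≤ j * x := by nlinarith
    linarith [Nat.mul_le_mul_right ((j + 1) * x) hE1]

theorem down {Z : Finset (Finset ℕ)} (h : Z ⊆ powersetCard (j + 1) (range (2 * j + 1))) :
    Z.card ≤ (∂ Z).card := by
  have := hLY.down _ _ Z h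
  rw [show 2 * j + 1 - (j + 1) + 1 = j + 1 by omega] at this
  exact Nat.le_of_mul_le_mul_left this (Nat.succ_pos j)

/-- every second point from `u` on -/
def alt (u s : ℕ) : Finset ℕ := (range s).image fun i => u + 2 * i

theorem card_alt (u s : ℕ) : (alt u s).card = s := by
  rw [alt, card_image_of_injective _ fun a b h => by omega, card_range]

theorem mem_alt {u s y : ℕ} (h : y ∈ alt u s) : ∃ i, y = u + 2 * i := by
  obtain ⟨i, -, e⟩ := mem_image.1 h
  exact ⟨i, e.symm⟩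

theorem fib_alt (hD : DM) (hF : Good K F) {w u : ℕ} (hT : Out w T) (hu : w ≤ u)
    (h : ∀ i, cnt T (u + 2 * i) ≤ i) : fib w F T ⊆ fib w F (alt u T.card) := by
  refine hD.tail w F T _ hF.2.2 hT (fun y hy => ?_) (card_alt _ _).symm fun x => ?_
  · obtain ⟨i, rfl⟩ := mem_alt hy
    omega
  · have a1 := (cnt_mono T (show x ≤ u + 2 * ((x - u + 1) / 2) by omega)).trans (h _)
    refine (le_min a1 (cnt_le T x)).trans ((card_alt u _).ge.trans (card_le_card fun y hy => ?_))
    obtain ⟨i, hi, rfl⟩ := mem_image.1 hy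
    rw [mem_range, lt_min_iff] at hi
    exact mem_filter.2 ⟨mem_image.2 ⟨i, mem_range.2 hi.2, rfl⟩, by omega⟩

theorem two (hD : DM) (hF : Good K F) {T' : Finset ℕ} (h : T ∈ Cl n K j)
    (h' : T' ∈ Cl n K (j + 1)) :
    (fib (2 * j + 1) F T).card + (fib (2 * (j + 1) + 1) F T').card ≤ CC (j + 1) := by
  have a1 := fib_alt hD hF (u := 2 * j + 3) (out h) (by omega) fun i => by
    have := (mem_Cl.1 h).2.2 (j + 1 + i) (by omega)
    rw [show 2 * (j + 1 + i) + 1 = 2 * j + 3 + 2 * i by ring] at this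
    omega
  have a2 := fib_alt hD hF (u := 2 * j + 4) (out h') (by omega) fun i => by
    have := (mem_Cl.1 h').2.2 (j + 2 + i) (by omega)
    have := cnt_mono T' (show 2 * j + 4 + 2 * i ≤ 2 * (j + 2 + i) + 1 by omega)
    omega
  have r : range (2 * j + 1) ⊆ range (2 * (j + 1) + 1) := range_mono (by omega)
  rw [← card_image_of_injOn (f := fun g => range (2 * (j + 1) + 1) \ g) fun a ha b hb e => by
    rw [← Finset.sdiff_sdiff_eq_self ((mem_fib.1 ha).1.trans r),
      ← Finset.sdiff_sdiff_eq_self ((mem_fib.1 hb).1.trans r)]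
    exact congrArg _ e, ← card_union_of_disjoint]
  · refine card_le_choose (union_subset (fun B hB => ?_) (sub hF h'))
    obtain ⟨g, hg, rfl⟩ := mem_image.1 hB
    obtain ⟨b1, b2⟩ := mem_powersetCard.1 (sub hF h hg)
    refine mem_powersetCard.2 ⟨sdiff_subset, ?_⟩
    rw [card_sdiff_of_subset (b1.trans r), card_range, b2]
    omega
  · refine disjoint_left.2 fun B hB hB' => ?_
    obtain ⟨g, hg, rfl⟩ := mem_image.1 hB
    obtain ⟨b1, b2⟩ := mem_fib.1 (a1 hg)
    obtain ⟨x, c1, c2⟩ := hF.2.1 _ b2 _ (mem_fib.1 (a2 hB')).2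
    rw [mem_union] at c1 c2
    rcases c1 with c1 | c1 <;> rcases c2 with c2 | c2
    · exact (mem_sdiff.1 c2).2 c1
    · obtain ⟨i, rfl⟩ := mem_alt c2
      have := mem_range.1 (b1 c1)
      omega
    · obtain ⟨i, rfl⟩ := mem_alt c1
      have := mem_range.1 (mem_sdiff.1 c2).1
      omega
    · obtain ⟨i, rfl⟩ := mem_alt c1
      obtain ⟨i', e⟩ := mem_alt c2
      omega

theorem near (hD : DM) (hF : Good K F) (h : T ∈ Cl n K j) {u : ℕ} (hu : ¬T ⊆ Ico u n) :
    ∃ x, x ∈ T ∧ x < u ∧ T.erase x ∈ Cl n K (j + 1) ∧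
      (fib (2 * j + 1) F T).card ≤ (fib (2 * (j + 1) + 1) F (T.erase x)).card := by
  obtain ⟨y, hy, hy'⟩ := not_subset.1 hu
  obtain ⟨x, hx, hm⟩ := exists_min_image T id ⟨y, hy⟩
  obtain ⟨a1, a2, a3⟩ := mem_Cl.1 h
  have a4 : ∀ z ∈ T, 2 * (j + 1) + 1 ≤ z := fun z hz => not_lt.1 fun hlt => by
    have := a3 (j + 1) (by omega)
    have : 0 < cnt T (2 * (j + 1) + 1) := card_pos.2 ⟨z, mem_filter.2 ⟨hz, hlt⟩⟩
    omega
  refine ⟨x, hx, ?_, mem_Cl.2 ⟨fun z hz => ?_, ?_, fun i hi => ?_⟩, ?_⟩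
  · have : x ≤ y := hm y hy
    have := mem_Ico.1 (a1 hy)
    rw [mem_Ico] at hy'
    omega
  · exact mem_Ico.2 ⟨a4 z (mem_of_mem_erase hz), (mem_Ico.1 (a1 (mem_of_mem_erase hz))).2⟩
  · have := card_erase_add_one hx
    omega
  · by_cases hc : x < 2 * i + 1
    · have := a3 i (by omega)
      have b := card_erase_add_one (mem_filter.2 ⟨hx, hc⟩ : x ∈ T.filter fun y => y < 2 * i + 1)
      rw [← filter_erase] at b
      unfold cnt at this ⊢
      omega
    · have : cnt (T.erase x) (2 * i + 1) = 0 := card_eq_zero.2 (filter_eq_empty_iff.2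
        fun z hz hlt => hc (lt_of_le_of_lt (hm z (mem_of_mem_erase hz)) hlt))
      omega
  · have b : ∀ g ∈ fib (2 * j + 1) F T, 2 * j + 1 ∉ g := fun g hg hm =>
      lt_irrefl _ (mem_range.1 ((mem_fib.1 hg).1 hm))
    refine card_le_card_of_injOn (insert (2 * j + 1)) (fun g hg => ?_) fun g hg g' hg' e => ?_
    · refine hD.step _ x _ F _ g hF.2.2 (fun z hz => a4 z (mem_of_mem_erase hz)) (a4 x hx)
        (notMem_erase x T) ?_ (by omega) (b g hg)
      rw [insert_erase hx]
      exact mem_fib.2 ⟨(mem_fib.1 hg).1.trans (range_mono (by omega)), (mem_fib.1 hg).2⟩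
    · rw [← erase_insert (b g hg), e, erase_insert (b g' hg')]

/-- the mass of the thin cells of level `j` -/
noncomputable def th (n K : ℕ) (F : Finset (Finset ℕ)) (j : ℕ) : ℕ :=
  ∑ T ∈ (Cl n K j).filter fun T =>
    ¬64 * (K + 1) * (CC j - (fib (2 * j + 1) F T).card) ≤ CC j, (fib (2 * j + 1) F T).card

/-- the dense far cells of level `j` -/
noncomputable def df (n K : ℕ) (F : Finset (Finset ℕ)) (j : ℕ) : Finset (Finset ℕ) :=
  ((Cl n K j).filter fun T => 64 * (K + 1) * (CC j - (fib (2 * j + 1) F T).card) ≤ CC j).filter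
    fun T => T ⊆ Ico (3 * (K + 1)) n

theorem level (hD : DM) (hF : Good K F) (j : ℕ) :
    ∑ T ∈ Cl n K j, (fib (2 * j + 1) F T).card ≤
      CC j * (df n K F j).card + 3 * (K + 1) * th n K F (j + 1) + th n K F j := by
  rw [← sum_filter_add_sum_filter_not _ fun T =>
    64 * (K + 1) * (CC j - (fib (2 * j + 1) F T).card) ≤ CC j,
    ← sum_filter_add_sum_filter_not _ fun T => T ⊆ Ico (3 * (K + 1)) n]
  refine add_le_add (add_le_add ?_ ?_) le_rfl
  · rw [mul_comm (CC j)]
    refine sum_le_card_nsmul _ (fun T => (fib (2 * j + 1) F T).card) (CC j) fun T hT => ?_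
    exact card_le_choose (sub hF (mem_filter.1 (mem_filter.1 hT).1).1)
  have hx : ∀ T ∈ ((Cl n K j).filter fun T =>
      64 * (K + 1) * (CC j - (fib (2 * j + 1) F T).card) ≤ CC j).filter
        fun T => ¬T ⊆ Ico (3 * (K + 1)) n, _ :=
    fun T hT => near hD hF (mem_filter.1 (mem_filter.1 hT).1).1 (mem_filter.1 hT).2
  choose! x hx using hx
  refine (sum_le_sum fun T hT => (hx T hT).2.2.2).trans ?_
  rw [← sum_image (f := fun p : ℕ × Finset ℕ => (fib (2 * (j + 1) + 1) F p.2).card)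
    (g := fun T => (x T, T.erase (x T))) fun T hT T' hT' e => by
      exact (insert_erase (hx T hT).1).symm.trans ((congrArg
        (fun p : ℕ × Finset ℕ => insert p.1 p.2) e).trans (insert_erase (hx T' hT').1))]
  refine (sum_le_sum_of_subset (t := range (3 * (K + 1)) ×ˢ (Cl n K (j + 1)).filter fun T =>
    ¬64 * (K + 1) * (CC (j + 1) - (fib (2 * (j + 1) + 1) F T).card) ≤ CC (j + 1))
    fun p hp => ?_).trans (by rw [sum_product, th]; simp)
  obtain ⟨T, hT, rfl⟩ := mem_image.1 hp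
  obtain ⟨-, a1, a2, -⟩ := hx T hT
  obtain ⟨a3, a4⟩ := mem_filter.1 (mem_filter.1 hT).1
  refine mem_product.2 ⟨mem_range.2 a1, mem_filter.2 ⟨a2, fun a5 => ?_⟩⟩
  have b1 := two hD hF a3 a2
  have b2 := ArithAux.cc_up j
  have b3 := ArithAux.cc_pos j
  dsimp only at a5
  have b5 : 64 * (CC j - (fib (2 * j + 1) F T).card) ≤ CC j :=
    le_trans (Nat.mul_le_mul_right _ (by omega)) a4
  have b6 : 64 * (CC (j + 1) - (fib (2 * (j + 1) + 1) F (T.erase (x T))).card) ≤ CC (j + 1) :=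
    le_trans (Nat.mul_le_mul_right _ (by omega)) a5
  omega

end DenseA

open DenseA

theorem denseStmt (hD : DM) : DenseStmt := by
  intro n K e F hF hn he hs
  have a1 := cover hD hF hn
  have a2 := shad (n := n) hF
  have a3 : ∑ j ∈ range (K + 1), ∑ T ∈ Cl n K j,
      ((∂ (fib (2 * j + 1) F T)).card - (fib (2 * j + 1) F T).card) ≤ e := by
    have : ∑ j ∈ range (K + 1), ∑ T ∈ Cl n K j, (fib (2 * j + 1) F T).card +
        ∑ j ∈ range (K + 1), ∑ T ∈ Cl n K j,
          ((∂ (fib (2 * j + 1) F T)).card - (fib (2 * j + 1) F T).card) =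
        ∑ j ∈ range (K + 1), ∑ T ∈ Cl n K j, (∂ (fib (2 * j + 1) F T)).card := by
      rw [← sum_add_distrib]
      refine sum_congr rfl fun j _ => ?_
      rw [← sum_add_distrib]
      exact sum_congr rfl fun T hT => Nat.add_sub_cancel' (down (sub hF hT))
    omega
  have a4 : ∑ j ∈ range (K + 1), th n K F j ≤ 64 * (K + 1) ^ 2 * e := by
    refine le_trans ?_ (Nat.mul_le_mul_left _ a3)
    rw [mul_sum]
    refine sum_le_sum fun j hj => ?_
    rw [mul_sum]
    refine (sum_le_sum fun T hT => (thin (sub hF (mem_filter.1 hT).1) (mem_filter.1 hT).2).trans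
      (Nat.mul_le_mul_right _ ?_)).trans (sum_le_sum_of_subset (filter_subset _ _))
    have := mem_range.1 hj
    nlinarith
  have a5 : ∑ j ∈ range (K + 1), th n K F (j + 1) ≤ ∑ j ∈ range (K + 1), th n K F j := by
    have b1 := sum_range_succ' (th n K F) (K + 1)
    have b2 : th n K F (K + 1) = 0 := sum_eq_zero fun T hT => by
      have := (mem_Cl.1 (mem_filter.1 hT).1).2.1
      omega
    rw [sum_range_succ] at b1
    omega
  obtain ⟨a, ha, hm⟩ := exists_max_image (range (K + 1)) (fun j => CC j * (df n K F j).card)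
    ⟨0, by simp⟩
  have a6 := sum_le_card_nsmul _ _ _ hm
  have a7 := a1.trans (sum_le_sum fun j _ => level hD hF j)
  rw [sum_add_distrib, sum_add_distrib, ← mul_sum] at a7
  rw [card_range, smul_eq_mul] at a6
  have := mem_range.1 ha
  refine ⟨a, K - a, df n K F a, by omega, fun T hT => mem_powersetCard.2 ⟨(mem_filter.1 hT).2, ?_⟩,
    fun T hT => (mem_filter.1 (mem_filter.1 hT).1).2, ?_⟩
  · have := (mem_Cl.1 (mem_filter.1 (mem_filter.1 hT).1).1).2.1
    omega
  · have b1 := Nat.mul_le_mul_left (3 * (K + 1)) (a5.trans a4)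
    have b2 : 64 * (K + 1) ^ 2 * e ≤ (K + 1) * (64 * (K + 1) ^ 2 * e) :=
      Nat.le_mul_of_pos_left _ (Nat.succ_pos K)
    linarith

end Pool.Agent.MP_d50107_co.P61
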