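import Pool.Agent.MP_d50107_co.P61.Spec

/-! Moving points down in a shifted family. -/

namespace Pool.Agent.MP_d50107_co.P61

open Finset
open scoped FinsetFamily
open Pool.Agent.MP_d50107_co.H61

namespace DomA

theorem dom (F : Finset (Finset ℕ)) (A B : Finset ℕ) (hF : Shifted F) (hA : A ∈ F)
    (hc : A.card = B.card) (h : Dom A B) : B ∈ F := by
  induction' hn : (B \ A).card with n ih generalizing A
  · exact eq_of_subset_of_card_le (sdiff_eq_empty_iff_subset.1 (card_eq_zero.1 hn)) hc.le ▸ hA
  obtain ⟨i, hi, mi⟩ := exists_min_image (B \ A) id (card_pos.1 (by omega))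
  obtain ⟨j, hj, mj⟩ := exists_min_image (A \ B) id (card_pos.1 (by rw [card_sdiff_comm hc]; omega))
  simp only [mem_sdiff, id, and_imp] at hi hj mi mj
  have ij : i < j := by
    by_contra c
    have : insert j (B.filter fun y => y < j + 1) ⊆ A.filter fun y => y < j + 1 := fun y hy => by
      simp only [mem_insert, mem_filter] at hy ⊢
      rcases hy with rfl | hy
      · exact ⟨hj.1, by omega⟩
      · refine ⟨by_contra fun k => ?_, hy.2⟩
        have := mi y hy.1 k
        exact hj.2 ((by omega : y = j) ▸ hy.1)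
    have a := card_le_card this
    rw [card_insert_of_notMem fun k => hj.2 (mem_filter.1 k).1] at a
    have := h (j + 1)
    omega
  refine ih _ (hF A hA i j ij hj.1 hi.2) ?_ (fun x => ?_) ?_
  · rw [card_insert_of_notMem fun k => hi.2 (mem_of_mem_erase k), card_erase_add_one hj.1, hc]
  · rcases le_or_gt x j with c | c
    · refine card_le_card fun y hy => ?_
      simp only [mem_insert, mem_filter, mem_erase] at hy ⊢
      rcases hy with ⟨rfl | hy, k⟩
      · exact ⟨hi.1, k⟩
      · exact ⟨by_contra fun k' => by have := mj y hy.2 k'; omega, k⟩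
    · refine le_trans ?_ (h x)
      rw [filter_insert, if_pos (ij.trans c), filter_erase,
        ← card_erase_add_one (mem_filter.2 ⟨hj.1, c⟩ : j ∈ A.filter fun y => y < x)]
      exact card_insert_le _ _
  · have : B \ insert i (A.erase j) = (B \ A).erase i := by
      ext y
      simp only [mem_sdiff, mem_insert, mem_erase]
      by_cases c : y = j
      · simp [c, hj.2]
      · tauto
    rw [this, card_erase_of_mem (mem_sdiff.2 hi), hn, Nat.add_sub_cancel]

theorem tail (w : ℕ) (F : Finset (Finset ℕ)) (T T' : Finset ℕ) (hF : Shifted F) (hT : Out w T)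
    (hT' : Out w T') (hc : T.card = T'.card) (h : Dom T T') : fib w F T ⊆ fib w F T' := by
  intro g hg
  rw [mem_fib] at hg ⊢
  have a := hT.disjoint hg.1
  have b := hT'.disjoint hg.1
  refine ⟨hg.1, dom F _ _ hF hg.2 ?_ fun x => ?_⟩
  · rw [card_union_of_disjoint a, card_union_of_disjoint b, hc]
  · rw [filter_union, filter_union, card_union_of_disjoint (disjoint_filter_filter a),
      card_union_of_disjoint (disjoint_filter_filter b)]
    exact Nat.add_le_add_left (h x) _

theorem ico (u : ℕ) (T : Finset ℕ) (hT : Out u T) : Dom T (Ico u (u + T.card)) := fun x => by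
  have a : (T.filter fun y => y < x) ⊆ Ico u x := fun y hy =>
    mem_Ico.2 ⟨hT y (mem_filter.1 hy).1, (mem_filter.1 hy).2⟩
  have b := card_le_card a
  have c := card_filter_le T fun y => y < x
  rw [Ico_filter_lt, Nat.card_Ico] at *
  omega

theorem far (w u : ℕ) (F : Finset (Finset ℕ)) (T : Finset ℕ) (hF : Shifted F) (h : w ≤ u)
    (hT : Out u T) : fib w F T ⊆ fib w F (Ico u (u + T.card)) :=
  tail w F _ _ hF (hT.mono h) (fun _ hy => h.trans (mem_Ico.1 hy).1) (by simp) (ico u T hT)

theorem lev (K : ℕ) (F : Finset (Finset ℕ)) (A : Finset ℕ) (hF : Good K F) (hA : A ∈ F) :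
    ∃ j, j ≤ K ∧ j + 1 ≤ (A.filter fun y => y < 2 * j + 1).card := by
  by_contra! c
  have key : ∀ e ≤ 1, (range (K + 1)).image (fun i => 2 * i + e) ∈ F := fun e he => by
    have inj : Function.Injective fun i => 2 * i + e := fun a b h => by
      simp only at h
      omega
    refine dom F A _ hF.2.2 hA (by rw [card_image_of_injective _ inj, card_range, hF.1 A hA])
      fun x => le_trans ?_ (card_le_card (s := (range (min (K + 1) (x / 2))).image fun i => 2 * i + e)
        fun y hy => ?_)
    · rw [card_image_of_injective _ inj, card_range]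
      have a := hF.1 A hA ▸ card_filter_le A fun y => y < x
      rcases le_or_gt (x / 2) K with k | k
      · have := card_le_card (monotone_filter_right A (p := fun y => y < x)
          (q := fun y => y < 2 * (x / 2) + 1) fun y _ hy => by omega)
        have := c _ k
        omega
      · omega
    · simp only [mem_image, mem_range, mem_filter] at hy ⊢
      obtain ⟨i, h1, rfl⟩ := hy
      exact ⟨⟨i, by omega, rfl⟩, by omega⟩
  obtain ⟨x, h0, h1⟩ := hF.2.1 _ (key 0 zero_le_one) _ (key 1 le_rfl)
  obtain ⟨i, -, hi⟩ := mem_image.1 h0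
  obtain ⟨j, -, hj⟩ := mem_image.1 h1
  omega

theorem cross (K w : ℕ) (F : Finset (Finset ℕ)) (T z A : Finset ℕ) (hF : Good K F)
    (hw : w ≤ 2 * (K + 1)) (hT : Out (3 * (K + 1)) T) (hz : z ∈ fib w F T) (hA : A ∈ F) :
    ∃ x, x ∈ z ∧ x ∈ A := by
  have a := far w w F (A.filter fun y => ¬ y < w) hF.2.2 le_rfl
    (fun y hy => not_lt.1 (mem_filter.1 hy).2) (mem_fib.2 ⟨fun y hy => mem_range.2 (mem_filter.1 hy).2,
      (filter_union_filter_not_eq (fun y => y < w) A).symm ▸ hA⟩ : (A.filter fun y => y < w) ∈ _)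
  have b := hF.1 A hA ▸ card_filter_le A fun y => ¬ y < w
  rw [mem_fib] at a hz
  obtain ⟨x, h1, h2⟩ := hF.2.1 _ hz.2 _ a.2
  simp only [mem_union, mem_filter, mem_Ico] at h1 h2
  rcases h1 with h1 | h1
  · have := mem_range.1 (hz.1 h1)
    exact ⟨x, h1, (h2.resolve_right (by omega)).1⟩
  · have := hT x h1
    omega

end DomA

theorem dm : DM where
  dom := DomA.dom
  tail := DomA.tail
  ico := DomA.ico
  far := DomA.far
  lev := DomA.lev
  cross := DomA.cross
  step := fun w x y F T g hF hT hx hxT hg hy hyg => by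
    rw [mem_fib, union_insert] at hg
    rw [mem_fib, insert_union]
    refine ⟨insert_subset (mem_range.2 hy) hg.1, hF.swap hg.2 (by omega) ?_ ?_⟩ <;> rw [notMem_union]
    · exact ⟨fun k => by have := mem_range.1 (hg.1 k); omega, hxT⟩
    · exact ⟨hyg, fun k => by have := hT y k; omega⟩
  drop := fun w x F T hx hxT g hg => by
    rw [mem_fib, union_insert] at hg
    exact mem_fib.2 ⟨hg.1, mem_shadow_iff_insert_mem.2 ⟨x, notMem_union.2
      ⟨fun k => by have := mem_range.1 (hg.1 k); omega, hxT⟩, hg.2⟩⟩

end Pool.Agent.MP_d50107_co.P61
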