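import Pool.Agent.MP_d50107_co.P61.Spec

/-! Every piece finds a tail. -/

namespace Pool.Agent.MP_d50107_co.P61

open Finset
open Pool.Agent.MP_d50107_co.H61

namespace FitP

theorem blocks {a q y x G K Q N : ℕ} (ha : 4 ≤ a) (hx : a + 1 ≤ x) (hy : x + 1 ≤ y) (hya : y ≤ 2 * a - 1)
    (hq : q = y.choose a) (h1 : 4 * G ≤ q * Q) (h2 : a * G ≤ (x - a + 1) * K)
    (h3 : a * (N + 1) * q ≤ G) (hQ : 4 * N + 4 ≤ Q) (Ψ : ℕ) (hΨ : Ψ ≤ N * q) :
    ∃ w : List ℕ, (∀ z ∈ w, z ≤ q) ∧ 2 * w.length ≤ Q ∧ w.sum = G + Ψ ∧ sk a w ≤ K := by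
  have q0 : 0 < q := hq ▸ Nat.choose_pos (by omega)
  have e1 := Nat.div_add_mod' (G + Ψ) q
  have e2 := Nat.mod_lt (G + Ψ) q0
  generalize (G + Ψ) / q = u at e1
  generalize (G + Ψ) % q = ρ at e1 e2
  refine ⟨List.replicate u q ++ [ρ], fun z hz => ?_, ?_, by simpa using e1, ?_⟩
  · rcases List.mem_append.1 hz with h | h
    · exact (List.eq_of_mem_replicate h).le
    · exact (List.mem_singleton.1 h).le.trans e2.le
  · have : 4 * u ≤ Q + 4 * N := Nat.le_of_mul_le_mul_right (by linarith) q0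
    simp only [List.length_append, List.length_replicate, List.length_singleton]
    omega
  · obtain ⟨b, rfl⟩ : ∃ b, a = b + 1 := ⟨a - 1, by omega⟩
    have k1 := hKN.mono (b + 1) _ _ e2.le
    have k2 : kk (b + 1) q = y.choose b := hq ▸ kk_choose (by omega)
    have k3 := Nat.choose_succ_right_eq y b
    rw [← hq] at k3
    rw [sk_append, sk_replicate, sk_cons, sk_nil, k2]
    rw [k2] at k1
    obtain ⟨α, hα⟩ : ∃ α, x - (b + 1) + 1 = α := ⟨_, rfl⟩
    obtain ⟨β, hβ⟩ : ∃ β, y - b = α + 1 + β := ⟨y - b - α - 1, by omega⟩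
    rw [hα] at h2
    rw [hβ] at k3
    have a1 : 0 < α := by omega
    have a2 : α ≤ b + 1 := by omega
    generalize y.choose b = B at *
    have k4 : (u + 1) * q ≤ G + (N + 1) * q := by linarith
    have k5 : α * ((N + 1) * q) ≤ G := by
      refine le_trans ?_ h3
      rw [mul_assoc]
      exact Nat.mul_le_mul_right _ a2
    have k6 : (u + 1) * B * (α * (α + 1 + β)) ≤ K * (α * (α + 1 + β)) := by
      calc _ = α * (b + 1) * ((u + 1) * q) := by
            rw [show (u + 1) * B * (α * (α + 1 + β)) = α * (u + 1) * (B * (α + 1 + β)) by ring,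
              ← k3]
            ring
        _ ≤ α * (b + 1) * (G + (N + 1) * q) := Nat.mul_le_mul_left _ k4
        _ = (b + 1) * (α * G + α * ((N + 1) * q)) := by ring
        _ ≤ (b + 1) * ((α + 1 + β) * G) :=
            Nat.mul_le_mul_left _ (by linarith [Nat.zero_le (β * G)])
        _ = (b + 1) * G * (α + 1 + β) := by ring
        _ ≤ α * K * (α + 1 + β) := Nat.mul_le_mul_right _ h2
        _ = _ := by ring
    have k7 := Nat.le_of_mul_le_mul_right k6 (by positivity)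
    linarith

theorem pick {a θ x G Q N : ℕ} (ha : 4 ≤ a) (hx : a + 1 ≤ x) (hxa : x ≤ 2 * a - 2)
    (h1 : (x + 1).choose a ≤ 4 * a ^ 2 * θ) (h2 : θ * Q ≤ 8 * a * G) (h3 : G ≤ 8 * NN a * N)
    (hN : 1 ≤ N) (hQ : 999 * a ^ 5 * N ≤ Q) :
    ∃ y, x + 1 ≤ y ∧ y ≤ 2 * a - 1 ∧ 4 * G ≤ y.choose a * Q ∧ a * (N + 1) * y.choose a ≤ G := by
  have a1 : a ^ 2 ≤ a ^ 5 := Nat.pow_le_pow_right (by omega) (by norm_num)
  have a2 : a ^ 4 ≤ a ^ 5 := Nat.pow_le_pow_right (by omega) (by norm_num)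
  have a3 : 1 ≤ a ^ 5 := Nat.one_le_pow _ _ (by omega)
  have h4 : x + 1 ≤ 2 * a - 1 ∧ 4 * G ≤ (2 * a - 1).choose a * Q := ⟨by omega, by
    have : 32 * N ≤ Q := by linarith [Nat.mul_le_mul_right N a3]
    change _ ≤ NN a * Q
    linarith [Nat.mul_le_mul_left (NN a) this]⟩
  have ex : ∃ y, x + 1 ≤ y ∧ 4 * G ≤ y.choose a * Q := ⟨_, h4⟩
  obtain ⟨y1, y2⟩ := Nat.find_spec ex
  have y3 := Nat.find_min' ex h4
  have y4 := fun m => Nat.find_min ex (m := m)
  generalize Nat.find ex = y at *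
  refine ⟨y, y1, y3, y2, ?_⟩
  rcases y1.eq_or_lt with rfl | y5
  · refine Nat.le_of_mul_le_mul_left (c := 8 * a) (le_trans ?_ h2) (by omega)
    calc _ ≤ 8 * a * (a * (2 * N) * (4 * a ^ 2 * θ)) := by gcongr; omega
      _ = θ * (64 * a ^ 4 * N) := by ring
      _ ≤ θ * (999 * a ^ 5 * N) := by gcongr; norm_num
      _ ≤ _ := Nat.mul_le_mul_left _ hQ
  · obtain ⟨z, rfl⟩ : ∃ z, y = z + 1 := ⟨y - 1, by omega⟩
    have z1 : z.choose a * Q < 4 * G := not_le.1 fun h => y4 z (by omega) ⟨by omega, h⟩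
    have z2 : (z + 1).choose a ≤ z.choose a * (2 * a) :=
      (Nat.le_mul_of_pos_right _ (by omega)).trans
        ((Nat.choose_mul_succ_eq z a).ge.trans (Nat.mul_le_mul_left _ (by omega)))
    refine Nat.le_of_mul_le_mul_left (c := 4) (le_trans ?_ z1.le) (by norm_num)
    calc _ ≤ 4 * (a * (2 * N) * (z.choose a * (2 * a))) := by gcongr; omega
      _ = z.choose a * (16 * a ^ 2 * N) := by ring
      _ ≤ z.choose a * (999 * a ^ 5 * N) := by gcongr; norm_num
      _ ≤ _ := Nat.mul_le_mul_left _ hQ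

theorem core (hA : NA) (hN : NC) {ι : Type} (S : Finset ι) (φ : ι → ℕ) {a Q N : ℕ} (ha : 4 ≤ a)
    (h1 : ∀ i ∈ S, φ i ≤ NN a) (h2 : ∑ i ∈ S, φ i ≤ 2 * CC a * N) (hN1 : 1 ≤ N)
    (hQ : 999 * a ^ 5 * N ≤ Q) : ∃ t q, q ≤ NN a ∧ ∀ Ψ ≤ N * q, ∃ w : List ℕ, (∀ z ∈ w, z ≤ q) ∧
      (S.filter fun i => t ≤ φ i).card + w.length ≤ Q ∧
      w.sum = ∑ i ∈ S.filter fun i => ¬t ≤ φ i, φ i + Ψ ∧
      sk a w ≤ ∑ i ∈ S.filter fun i => ¬t ≤ φ i, kk a (φ i) := by
  rcases le_or_gt (S.filter fun i => 1 ≤ φ i).card Q with h | h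
  · refine ⟨1, 0, Nat.zero_le _, fun Ψ hΨ => ⟨[], by simp, h, ?_, Nat.zero_le _⟩⟩
    rw [sum_eq_zero fun i hi => by have := (mem_filter.1 hi).2; omega]
    simpa [eq_comm] using hΨ
  have a1 : a ≤ a ^ 5 := Nat.le_self_pow (by norm_num) a
  have a2 : 999 * a * N ≤ Q := le_trans (by gcongr) hQ
  have p1 := Nat.div_add_mod Q (4 * a)
  have p2 := Nat.mod_lt Q (show 0 < 4 * a by omega)
  generalize Q / (4 * a) = P at p1
  generalize Q % (4 * a) = ρ at p1 p2
  obtain ⟨θ, t1, t2, t3⟩ := hA.class2 S φ (2 * a) P (by omega) (fun i hi => (h1 i hi).trans_lt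
    ((Nat.choose_le_two_pow _ _).trans_lt (Nat.pow_lt_pow_right one_lt_two (by omega))))
    (by linarith)
  obtain ⟨G, hG⟩ : ∃ G, G = ∑ i ∈ S.filter fun i => ¬2 * θ ≤ φ i, φ i := ⟨_, rfl⟩
  have g1 : θ * P ≤ G := by
    rw [hG]
    refine le_trans ?_ (sum_le_sum_of_subset (s := S.filter fun i => θ ≤ φ i ∧ φ i < 2 * θ)
      (monotone_filter_right _ fun i _ h => h.2.not_ge))
    refine (Nat.mul_le_mul_left _ t2).trans ?_
    rw [mul_comm]
    exact card_nsmul_le_sum _ _ _ fun i hi => (mem_filter.1 hi).2.1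
  have g2 : θ * Q ≤ 8 * a * G := by
    have b0 := Nat.mul_le_mul_left a hN1
    have hP : 1 ≤ P := Nat.pos_of_ne_zero fun h0 => by
      rw [h0] at p1
      linarith
    have : Q ≤ 8 * a * P := by linarith [Nat.mul_le_mul_left a hP]
    linarith [Nat.mul_le_mul_left θ this, Nat.mul_le_mul_left (8 * a) g1]
  have g3 : G ≤ 2 * CC a * N := hG ▸ (sum_le_sum_of_subset (filter_subset _ _)).trans h2
  have g4 : 2 * θ ≤ (2 * a - 2).choose a := by
    have c := hN.c16 a (by omega)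
    refine Nat.le_of_mul_le_mul_right (c := 256 * a * N) ?_ (by positivity)
    calc _ ≤ θ * (999 * a * N) := by linarith [Nat.zero_le (θ * (a * N))]
      _ ≤ 8 * a * (2 * CC a * N) :=
        (Nat.mul_le_mul_left _ a2).trans (g2.trans (Nat.mul_le_mul_left _ g3))
      _ ≤ 8 * a * (2 * (16 * (2 * a - 2).choose a) * N) := by gcongr
      _ = _ := by ring
  obtain ⟨x, x1, x2, x3, x4⟩ := hN.win a (2 * θ) (by omega) (by omega)
  have x5 : x ≤ 2 * a - 2 := by
    by_contra hx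
    have := Nat.choose_le_choose a (show 2 * a - 2 ≤ x - 1 by omega)
    omega
  have x6 : (x + 1) * x ≤ 2 * a * (2 * a) := Nat.mul_le_mul (by omega) (by omega)
  obtain ⟨y, y1, y2, y3, y4⟩ := pick (θ := θ) ha x1 x5 (by linarith [Nat.mul_le_mul_left θ x6]) g2
    (g3.trans (by linarith [Nat.mul_le_mul_right N (hN.c4 a (by omega))])) hN1 hQ
  refine ⟨2 * θ, _, Nat.choose_le_choose a y2, fun Ψ hΨ => ?_⟩
  obtain ⟨w, w1, w2, w3, w4⟩ := blocks ha x1 y1 y2 rfl y3
    (K := ∑ i ∈ S.filter fun i => ¬2 * θ ≤ φ i, kk a (φ i)) (by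
      rw [hG, mul_sum, mul_sum]
      exact sum_le_sum fun i hi => hKN.lym a x _ (by omega)
        ((not_le.1 (mem_filter.1 hi).2).le.trans x3)) y4
      (by linarith [Nat.mul_le_mul_right N ha]) Ψ hΨ
  exact ⟨w, w1, by linarith, hG ▸ w3, w4⟩

theorem fsum {α β : Type} (Q : Finset α) (J : Finset β) (g : α → ℕ) (f : β → ℕ) (p : ℕ → Prop)
    [DecidablePred p] (ψ : ℕ → ℕ) :
    ∑ i ∈ (Q.disjSum J).filter fun i => p (Sum.elim g f i), ψ (Sum.elim g f i) =
      ∑ i ∈ Q.filter fun i => p (g i), ψ (g i) + ∑ i ∈ J.filter fun i => p (f i), ψ (f i) := by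
  simp only [sum_filter, sum_disjSum, Sum.elim_inl, Sum.elim_inr]

end FitP

open FitP in
theorem fitPStmt (hA : NA) (hN : NC) : FitPStmt := by
  rintro a s μ X v ha hs hX hμ ⟨g, M, l, m1, m2, m3, m4, m5⟩
  have k1 : a + s + 1 ≤ (a + s + 1) ^ 6 := Nat.le_self_pow (by norm_num) _
  have n1 : 1 ≤ X.card.choose s := Nat.choose_pos (by omega)
  have n2 : 999 * a ^ 5 * X.card.choose s ≤ X.card.choose (s + 1) := by
    refine Nat.le_of_mul_le_mul_right (c := s + 1) ?_ (by omega)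
    rw [Nat.choose_succ_right_eq, mul_right_comm, mul_comm]
    refine Nat.mul_le_mul_left _ (le_trans ?_ (show 999 * (a + s + 1) ^ 6 ≤ _ by omega))
    rw [pow_succ _ 5, mul_assoc]
    gcongr <;> omega
  have n3 : NN a ≤ CC a := (Nat.choose_le_choose a (show 2 * a - 1 ≤ 2 * a by omega)).trans
    ((Nat.le_add_right _ _).trans (Nat.choose_succ_succ' _ _).ge)
  have n4 : ∑ U ∈ powersetCard s X, M U ≤ CC a * X.card.choose s := by
    rw [← card_powersetCard, mul_comm]
    exact sum_le_card_nsmul _ _ _ fun U hU => (m1 U hU).trans n3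
  have n5 : ∀ T ∈ powersetCard (s + 1) X, g T ≤ NN a := fun T hT => by
    obtain ⟨t1, t2⟩ := mem_powersetCard.1 hT
    obtain ⟨U, u1, u2⟩ := exists_subset_card_eq (s := X \ T) (n := s) (by
      rw [card_sdiff_of_subset t1]
      omega)
    have u3 := mem_powersetCard.2 ⟨u1.trans sdiff_subset, u2⟩
    exact (m2 T hT U u3 (disjoint_sdiff.mono_right u1)).trans (m1 U u3)
  obtain ⟨U0, u0⟩ : (powersetCard s X).Nonempty := card_pos.1 (by rwa [card_powersetCard])
  obtain ⟨f, hf⟩ : ∃ f : Fin l.length → ℕ, f = fun i => l[i.1] := ⟨_, rfl⟩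
  have f1 : ∀ i, f i ∈ l := fun i => by rw [hf]; exact List.getElem_mem _
  have f2 : l.sum = ∑ i, f i := by rw [hf]; exact (Fin.sum_univ_getElem l).symm
  have f3 : sk a l = ∑ i, kk a (f i) := by rw [hf]; exact (Fin.sum_univ_fun_getElem l _).symm
  obtain ⟨t, q, hq, hw⟩ := core hA hN ((powersetCard (s + 1) X).disjSum univ) (Sum.elim g f) ha
    (fun i hi => by
      rcases i with T | i
      · exact n5 T (inl_mem_disjSum.1 hi)
      · exact (m3 _ (f1 i) U0 u0).trans (m1 U0 u0))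
    (by
      simp only [sum_disjSum, Sum.elim_inl, Sum.elim_inr]
      rw [← f2, ← m4, mul_assoc]
      omega) n1 n2
  obtain ⟨w, w1, w2, w3, w4⟩ := hw (∑ U ∈ powersetCard s X, (q - M U)) (by
    rw [← card_powersetCard]
    exact sum_le_card_nsmul _ _ _ fun U _ => Nat.sub_le _ _)
  rw [fsum _ _ g f (fun z => ¬t ≤ z) fun z => z] at w3
  rw [fsum _ _ g f (fun z => ¬t ≤ z) (kk a)] at w4
  rw [card_eq_sum_ones, fsum _ _ g f (fun z => t ≤ z) fun _ => 1, ← card_eq_sum_ones,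
    ← card_eq_sum_ones] at w2
  obtain ⟨φ, p1, p2⟩ := hA.assign ((powersetCard (s + 1) X).filter fun T => ¬t ≤ g T)
    ((univ.filter fun i => t ≤ f i).toList.map f ++ w) (by
      have := card_filter_add_card_filter_not (s := powersetCard (s + 1) X) fun T => t ≤ g T
      rw [card_powersetCard] at this
      rw [List.length_append, List.length_map, length_toList]
      omega)
  have e : ∀ ψ : ℕ → ℕ, ψ 0 = 0 →
      ∑ T ∈ powersetCard (s + 1) X, ψ (if t ≤ g T then g T else φ T) =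
        ∑ T ∈ (powersetCard (s + 1) X).filter fun T => t ≤ g T, ψ (g T) +
          (∑ i ∈ univ.filter fun i => t ≤ f i, ψ (f i) + (w.map ψ).sum) := fun ψ h0 => by
    simp only [apply_ite ψ]
    rw [sum_ite, p2 ψ h0, List.map_append, List.sum_append, List.map_map, sum_map_toList]
    rfl
  have s1 := sum_filter_add_sum_filter_not (powersetCard (s + 1) X) (fun T => t ≤ g T) g
  have s2 := sum_filter_add_sum_filter_not (powersetCard (s + 1) X) (fun T => t ≤ g T)
    fun T => kk a (g T)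
  have s3 := sum_filter_add_sum_filter_not univ (fun i => t ≤ f i) f
  have s4 := sum_filter_add_sum_filter_not univ (fun i => t ≤ f i) fun i => kk a (f i)
  refine ⟨fun T => if t ≤ g T then g T else φ T, fun U => M U + (q - M U), fun U hU => ?_,
    fun T hT U hU h => ?_, ?_, le_trans ?_ m5⟩
  · have := m1 U hU
    beta_reduce
    omega
  · beta_reduce
    split_ifs with h1
    · exact (m2 T hT U hU h).trans (Nat.le_add_right _ _)
    · rcases p1 T (mem_filter.2 ⟨hT, h1⟩) with h2 | h2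
      · omega
      · rcases List.mem_append.1 h2 with h2 | h2
        · obtain ⟨i, -, h3⟩ := List.mem_map.1 h2
          exact h3.ge.trans ((m3 _ (f1 i) U hU).trans (Nat.le_add_right _ _))
        · have := w1 _ h2
          omega
  · have := e (fun z => z) rfl
    rw [List.map_id'] at this
    rw [this, sum_add_distrib]
    omega
  · rw [e (kk a) (kk_zero a), ← Nat.cast_add]
    refine sub_le_sub (Nat.cast_le.2 ?_) (Nat.cast_le.2 (sum_le_sum fun U hU =>
      H25.cl_mono (by omega) (Nat.le_add_right _ _) ?_))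
    · change _ + (_ + sk a w) ≤ _
      omega
    · have := m1 U hU
      beta_reduce
      omega

end Pool.Agent.MP_d50107_co.P61
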