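import Pool.Agent.MP_d50107_co.P61.Spec

/-!
From functions on tails to sequences and back.
-/

namespace Pool.Agent.MP_d50107_co.P61

open Finset
open scoped FinsetFamily
open Pool.Agent.MP_d50107_co.H54 (IsInit)
open Pool.Agent.MP_d50107_co.H61

namespace Hil

theorem sorted {α : Type} (S : Finset α) (g : α → ℕ) : ∃ g' : ℕ → ℕ,
    (∀ ψ : ℕ → ℕ, ∑ i ∈ range S.card, ψ (g' i) = ∑ x ∈ S, ψ (g x)) ∧
    (∀ i < S.card, ∃ x ∈ S, g' i = g x) ∧
    ∀ i < S.card, ∀ ρ, ρ ≤ g' i ↔ i < (S.filter fun x => ρ ≤ g x).card := by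
  let e : Fin S.card ≃ S :=
    (Tuple.sort fun i => OrderDual.toDual (g (S.equivFin.symm i))).trans S.equivFin.symm
  have he : Antitone fun i => g (e i) :=
    Tuple.monotone_sort fun i => OrderDual.toDual (g (S.equivFin.symm i))
  refine ⟨fun i => if h : i < S.card then g (e ⟨i, h⟩) else 0, fun ψ => ?_, fun i hi => ?_,
    fun i hi ρ => ?_⟩
  · rw [sum_range, ← sum_coe_sort S, ← e.sum_comp]
    exact sum_congr rfl fun i _ => by simp only [dif_pos i.2]
  · exact ⟨_, (e ⟨i, hi⟩).2, dif_pos hi⟩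
  · beta_reduce
    rw [dif_pos hi, ← Tuple.lt_card_ge_iff_apply_ge_of_antitone (j := ⟨i, hi⟩) (a := ρ) he]
    have : (univ.filter fun j => ρ ≤ g (e j)).card = (S.filter fun x => ρ ≤ g x).card := by
      refine card_bij (fun j _ => (e j : α)) (fun j hj => ?_) (fun j _ j' _ h => ?_) fun x hx => ?_
      · exact mem_filter.2 ⟨(e j).2, (mem_filter.1 hj).2⟩
      · exact e.injective (Subtype.ext h)
      · rw [mem_filter] at hx
        exact ⟨e.symm ⟨x, hx.1⟩, by simpa using hx.2, by simp⟩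
    rw [this]

theorem down_le (p : ℕ) : ∀ (l m : ℕ) (B : Finset (Finset ℕ)), (∀ A ∈ B, A.card = l) →
    m ≤ B.card → kkDown p l m ≤ (shadow^[p] B).card := by
  induction p with
  | zero => exact fun _ _ _ _ h => h
  | succ p ih =>
    intro l m B h1 h2
    rw [Function.iterate_succ_apply]
    refine ih _ _ _ (fun A hA => ?_) ((hKN.mono l _ _ h2).trans (hKN.thm l B h1))
    obtain ⟨T, hT, a, ha, rfl⟩ := mem_shadow_iff.1 hA
    rw [card_erase_of_mem ha, h1 T hT]

theorem down_init (N s p : ℕ) : ∀ L : Finset (Finset ℕ), IsInit (powersetCard (s + p) (range N)) L →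
    (shadow^[p] L).card = kkDown p (s + p) L.card ∧
      IsInit (powersetCard s (range N)) (shadow^[p] L) := by
  induction p with
  | zero => exact fun L h => ⟨rfl, h⟩
  | succ p ih =>
    intro L h
    obtain ⟨h1, h2⟩ := initStmt N (s + p) L h
    rw [Function.iterate_succ_apply]
    refine ⟨?_, (ih _ h2).2⟩
    rw [(ih _ h2).1, h1]
    rfl

/-- the number of smaller members -/
def rank (S : Finset (Finset ℕ)) (A : Finset ℕ) : ℕ :=
  (S.filter fun B => toColex B < toColex A).card

theorem rank_bij (S : Finset (Finset ℕ)) : Set.BijOn (rank S) S (range S.card : Finset ℕ) := by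
  have h1 : Set.MapsTo (rank S) S (range S.card : Finset ℕ) := fun A hA =>
    mem_coe.2 (mem_range.2 (card_lt_card (filter_ssubset.2 ⟨A, hA, lt_irrefl _⟩)))
  have h2 : ∀ A ∈ S, ∀ B, toColex A < toColex B → rank S A < rank S B := fun A hA B h =>
    card_lt_card ((ssubset_iff_of_subset (monotone_filter_right S fun _ _ h' => h'.trans h)).2
      ⟨A, mem_filter.2 ⟨hA, h⟩, fun h' => lt_irrefl _ (mem_filter.1 h').2⟩)
  have h3 : Set.InjOn (rank S) S := fun A hA B hB e => by
    rcases lt_trichotomy (toColex A) (toColex B) with h | h | h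
    · exact absurd e (h2 A hA B h).ne
    · exact toColex.injective h
    · exact absurd e (h2 B hB A h).ne'
  exact ⟨h1, h3, surjOn_of_injOn_of_card_le _ h1 h3 (card_range _).le⟩

theorem shift_bij (w N r : ℕ) : Set.BijOn (image (· - w))
    (powersetCard r (Ico w (w + N)) : Finset (Finset ℕ))
    (powersetCard r (range N) : Finset (Finset ℕ)) := by
  refine Set.InvOn.bijOn (f' := image (· + w)) ⟨fun A hA => ?_, fun A _ => ?_⟩ (fun A hA => ?_)
    fun A hA => ?_
  · have h := (mem_powersetCard.1 (mem_coe.1 hA)).1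
    rw [image_image]
    exact (image_congr fun x hx => Nat.sub_add_cancel (mem_Ico.1 (h hx)).1).trans image_id
  · rw [image_image]
    exact (image_congr fun x _ => Nat.add_sub_cancel x w).trans image_id
  · obtain ⟨h1, h2⟩ := mem_powersetCard.1 (mem_coe.1 hA)
    refine mem_coe.2 (mem_powersetCard.2 ⟨image_subset_iff.2 fun x hx => ?_, ?_⟩)
    · have := mem_Ico.1 (h1 hx)
      exact mem_range.2 (by omega)
    · rw [card_image_of_injOn fun x hx y hy e => ?_, h2]
      have := mem_Ico.1 (h1 hx)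
      have := mem_Ico.1 (h1 hy)
      omega
  · obtain ⟨h1, h2⟩ := mem_powersetCard.1 (mem_coe.1 hA)
    refine mem_coe.2 (mem_powersetCard.2 ⟨image_subset_iff.2 fun x hx => ?_, ?_⟩)
    · have := mem_range.1 (h1 hx)
      exact mem_Ico.2 (by omega)
    · rw [card_image_of_injective _ (add_left_injective w), h2]

theorem compl_bij (X : Finset ℕ) {a b : ℕ} (h : a + b = X.card) : Set.BijOn (X \ ·)
    (powersetCard a X : Finset (Finset ℕ)) (powersetCard b X : Finset (Finset ℕ)) := by
  have k : ∀ a b, a + b = X.card → Set.MapsTo (X \ ·) (powersetCard a X : Finset (Finset ℕ))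
      (powersetCard b X : Finset (Finset ℕ)) := fun a b h A hA => by
    obtain ⟨h1, h2⟩ := mem_powersetCard.1 (mem_coe.1 hA)
    refine mem_coe.2 (mem_powersetCard.2 ⟨sdiff_subset, ?_⟩)
    rw [card_sdiff_of_subset h1]
    omega
  exact Set.InvOn.bijOn (f' := (X \ ·))
    ⟨fun A hA => Finset.sdiff_sdiff_eq_self (mem_powersetCard.1 (mem_coe.1 hA)).1,
      fun A hA => Finset.sdiff_sdiff_eq_self (mem_powersetCard.1 (mem_coe.1 hA)).1⟩
    (k a b h) (k b a (by omega))

theorem rank_lt {N s p : ℕ} {V U : Finset ℕ} (hV : V ∈ powersetCard (s + p) (range N))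
    (hU : U.card = s) (h : U ⊆ V) : rank (powersetCard s (range N)) U <
      kkDown p (s + p) (rank (powersetCard (s + p) (range N)) V + 1) := by
  let L := (powersetCard (s + p) (range N)).filter fun B => toColex B ≤ toColex V
  have h1 : IsInit (powersetCard (s + p) (range N)) L := ⟨filter_subset _ _, fun F hF G hG h =>
    mem_filter.2 ⟨hG, h.le.trans (mem_filter.1 hF).2⟩⟩
  have h2 : L.card = rank (powersetCard (s + p) (range N)) V + 1 := by
    have hn : V ∉ (powersetCard (s + p) (range N)).filter fun B => toColex B < toColex V :=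
      fun h' => lt_irrefl _ (mem_filter.1 h').2
    rw [rank, ← card_insert_of_notMem hn]
    congr 1
    ext B
    simp only [L, mem_filter, mem_insert, le_iff_eq_or_lt, EmbeddingLike.apply_eq_iff_eq]
    constructor
    · rintro ⟨a, b | b⟩
      exacts [Or.inl b, Or.inr ⟨a, b⟩]
    · rintro (rfl | ⟨a, b⟩)
      exacts [⟨hV, Or.inl rfl⟩, ⟨a, Or.inr b⟩]
  obtain ⟨h3, h4⟩ := down_init N s p L h1
  have h5 : U ∈ shadow^[p] L := mem_shadow_iterate_iff_exists_mem_card_add.2
    ⟨V, mem_filter.2 ⟨hV, le_rfl⟩, h, by rw [(mem_powersetCard.1 hV).2, hU]⟩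
  rw [← h2, ← h3]
  exact card_lt_card ((ssubset_iff_of_subset fun B hB =>
    h4.2 U h5 B (mem_filter.1 hB).1 (mem_filter.1 hB).2).2
      ⟨U, h5, fun h' => lt_irrefl _ (mem_filter.1 h').2⟩)

end Hil

open Hil in
theorem hilLowStmt : HilLowStmt := by
  intro s X g M hs h
  obtain ⟨g', a1, -, a3⟩ := sorted (powersetCard (s + 1) X) g
  obtain ⟨M', b1, b2, b3⟩ := sorted (powersetCard s X) M
  rw [card_powersetCard] at a1 a3 b1 b2 b3
  refine ⟨g', M', fun i hi j hj => ?_, a1, b1, b2⟩
  have h1 := (a3 i hi _).1 le_rfl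
  have hb := compl_bij X (a := s + 1) (b := X.card - s - 1) (by omega)
  have h2 := down_le (X.card - 2 * s - 1) (X.card - s - 1) (i + 1)
    (((powersetCard (s + 1) X).filter fun T => g' i ≤ g T).image (X \ ·)) (fun A hA => by
      obtain ⟨T, hT, rfl⟩ := mem_image.1 hA
      exact (mem_powersetCard.1 (mem_coe.1 (hb.mapsTo (mem_filter.1 hT).1))).2) (by
      rwa [card_image_of_injOn (hb.injOn.mono (coe_subset.2 (filter_subset _ _)))])
  have h3 : j < ((powersetCard s X).filter fun U => g' i ≤ M U).card := by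
    refine (hj.trans_le h2).trans_le (card_le_card fun U hU => ?_)
    obtain ⟨V, hV, c1, c2⟩ := mem_shadow_iterate_iff_exists_mem_card_add.1 hU
    obtain ⟨T, hT, rfl⟩ := mem_image.1 hV
    rw [mem_filter] at hT
    rw [(mem_powersetCard.1 (mem_coe.1 (hb.mapsTo hT.1))).2] at c2
    obtain ⟨c3, c4⟩ := subset_sdiff.1 c1
    have c5 : U ∈ powersetCard s X := mem_powersetCard.2 ⟨c3, by omega⟩
    exact mem_filter.2 ⟨c5, hT.2.trans (h T hT.1 U c5 c4.symm)⟩
  refine (b3 j (h3.trans_le ?_) _).2 h3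
  rw [← card_powersetCard]
  exact card_filter_le _ _

open Hil in
theorem hilUpStmt : HilUpStmt := by
  intro w N s hs
  obtain ⟨p, rfl⟩ : ∃ p, N = 2 * s + 1 + p := Nat.exists_eq_add_of_le hs
  have e1 : 2 * s + 1 + p - 2 * s - 1 = p := by omega
  have e2 : 2 * s + 1 + p - s - 1 = s + p := by omega
  rw [e1, e2]
  generalize hN : 2 * s + 1 + p = N
  have hb := compl_bij (range N) (a := s + 1) (b := s + p) (by rw [card_range]; omega)
  have r1 := rank_bij (powersetCard (s + p) (range N))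
  have r2 := rank_bij (powersetCard s (range N))
  rw [card_powersetCard, card_range] at r1 r2
  rw [Nat.choose_symm_of_eq_add (show N = s + p + (s + 1) by omega)] at r1
  refine ⟨_, _, (r1.comp hb).comp (shift_bij w N (s + 1)), r2.comp (shift_bij w N s),
    fun T hT U hU h => ?_⟩
  obtain ⟨c1, c2⟩ := mem_powersetCard.1 (mem_coe.1 ((shift_bij w N s).mapsTo hU))
  refine rank_lt (mem_coe.1 (hb.mapsTo ((shift_bij w N (s + 1)).mapsTo hT))) c2
    (subset_sdiff.2 ⟨c1, disjoint_left.2 fun x hx hx' => ?_⟩)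
  obtain ⟨y, hy, rfl⟩ := mem_image.1 hx
  obtain ⟨z, hz, e⟩ := mem_image.1 hx'
  have := mem_Ico.1 ((mem_powersetCard.1 hU).1 hy)
  have := mem_Ico.1 ((mem_powersetCard.1 hT).1 hz)
  exact disjoint_left.1 h hz ((show z = y by omega) ▸ hy)

end Pool.Agent.MP_d50107_co.P61
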