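import Pool.Agent.MP_d50107_co.P61.Spec

/-! The rows joined: the two regimes and the lower bound for shifted families. -/

namespace Pool.Agent.MP_d50107_co.P61

open Finset
open scoped FinsetFamily
open Pool.Agent.MP_d50107_co.H54 (IsInit)
open Pool.Agent.MP_d50107_co.H61

/-- all rows -/
structure All : Prop where
  cn : CN
  na : NA
  nc : NC
  dense : DenseStmt
  up : UpStmt
  ratio : RatioStmt
  hilLow : HilLowStmt
  hilUp : HilUpStmt
  sd : SD
  scale : ScaleStmt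
  deep : DeepStmt
  shad : ShadStmt
  smallI : SmallIStmt
  largeI : LargeIStmt
  dat : DatStmt
  sel : SelStmt
  rem : RemStmt
  pack : PackStmt
  unif : UnifStmt
  fit : FitPStmt

/-- `v` is the shadow size of a compressed two-level family with `m` members -/
def RM (n k m v : ℕ) : Prop :=
  ∃ (a s N : ℕ) (g M : ℕ → ℕ), 1 ≤ a ∧ a + s + 1 = k ∧ 2 * a + 1 + N = n ∧
    (∀ j < N.choose s, M j ≤ (2 * a - 1).choose a) ∧
    (∀ i < N.choose (s + 1), ∀ j < kkDown (N - 2 * s - 1) (N - s - 1) (i + 1), g i ≤ M j) ∧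
    m + ∑ j ∈ range (N.choose s), M j =
      ∑ i ∈ range (s + 1), (2 * a + 1).choose (k - i) * N.choose i +
        ∑ i ∈ range (N.choose (s + 1)), g i ∧
    v = ∑ i ∈ range s, (2 * a + 1).choose (k - 1 - i) * N.choose i +
      ∑ j ∈ range (N.choose s), kk (a + 1) ((2 * a + 1).choose (a + 1) - M j) +
        ∑ i ∈ range (N.choose (s + 1)), kk a (g i)

namespace Join

theorem far_out {n u s : ℕ} {U : Finset ℕ} (h : U ∈ powersetCard s (Ico u n)) :
    Out u U ∧ U.card = s :=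
  ⟨Seg.out_Ico (mem_powersetCard.1 h).1, (mem_powersetCard.1 h).2⟩

theorem pw (k : ℕ) (hk : 1 ≤ k) {i j : ℕ} (h : i ≤ j) : k ^ i ≤ k ^ j :=
  Nat.pow_le_pow_right hk h

theorem dd_le {n a s e : ℕ} {F 𝒯 : Finset (Finset ℕ)} {τ : ℕ} (h1 : τ + 1 ≤ a)
    (h2 : a * dd n a s F ≤ τ * cd n a s F) : dd n a s F ≤ cd n a s F := by
  refine Nat.le_of_mul_le_mul_left (h2.trans (Nat.mul_le_mul_right _ (by omega))) (by omega)

theorem cc_lt (a s : ℕ) : CC a < 2 ^ (2 * (a + s + 1)) := by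
  refine (ArithAux.cc_le a).trans_lt ?_
  rw [pow_mul]
  exact Nat.pow_lt_pow_right (by norm_num) (by omega)

/-- the first regime -/
theorem regI (hA : All) {n a s e : ℕ} {F 𝒯 L : Finset (Finset ℕ)} (h : Ctx n a s e F 𝒯)
    (hL : IsInit (AF n (a + s) a) L) (hc : L.card = F.card) : (∂ L).card ≤ (∂ F).card := by
  obtain ⟨-, τ, t1, t2, t3, t4⟩ := hA.scale n a s e F 𝒯 h
  have hdc := dd_le (e := e) (𝒯 := 𝒯) t2 t3
  obtain ⟨s1, s2, -⟩ := hA.shad n a s e F 𝒯 h hdc
  have hr : ∀ U ∈ 𝒯, ms a F (T0 a s) ≤ ms a F U := fun U hU =>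
    (hA.sd.fr a s F U h.good (far_out (h.tsub hU)).1 (far_out (h.tsub hU)).2).2
  obtain ⟨θ, c1, c2⟩ := hA.na.class1 𝒯 (ms a F) (2 * (a + s + 1)) fun U hU =>
    ⟨h.r1.trans (hr U hU), (Nat.sub_le _ _).trans_lt (cc_lt a s)⟩
  set 𝒞 := 𝒯.filter fun U => θ ≤ ms a F U ∧ ms a F U < 2 * θ with h𝒞
  have hs1 := h.s1
  have ha := h.a4
  obtain ⟨k, hk⟩ : ∃ k, k = a + s + 1 := ⟨_, rfl⟩
  have hk1 : 1 ≤ k := by omega
  have p7 : k ≤ k ^ 7 := Nat.le_self_pow (by norm_num) k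
  have hv : 32 * k ^ 7 ≤ (32 * k ^ 7).choose s := hA.nc.self _ s hs1 (by omega)
  rw [← hk] at s1 s2 c2
  have hC : 16 * k ^ 6 ≤ 𝒞.card := by
    refine Nat.le_of_mul_le_mul_left (?_ : 2 * k * (16 * k ^ 6) ≤ _) (show 0 < 2 * k by omega)
    calc 2 * k * (16 * k ^ 6) = 32 * k ^ 7 := by ring
      _ ≤ _ := by omega
  by_cases hd : dd n a s F ≤ ∑ U ∈ 𝒞, ms a F U
  · refine hA.smallI n a s e θ F 𝒯 𝒞 L h hL hc hdc (filter_subset _ _) c1
      (fun U hU => (mem_filter.1 hU).2) ?_ ?_ hd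
    · have := pw k hk1 (show 3 ≤ 6 by norm_num)
      rw [← hk]
      omega
    · have b1 : (∂ 𝒞).card ≤ (∂ 𝒯).card := card_le_card (shadow_monotone (filter_subset _ _))
      have b2 := pw k hk1 (show 2 ≤ 7 by norm_num)
      rw [← hk]
      refine Nat.le_of_mul_le_mul_left (?_ : 4 * k * (4 * k * _) ≤ 4 * k * _)
        (show 0 < 4 * k by omega)
      calc 4 * k * (4 * k * (∂ 𝒞).card) = 16 * k ^ 2 * (∂ 𝒞).card := by ring
        _ ≤ 65 * k ^ 7 * (∂ 𝒯).card := Nat.mul_le_mul (by omega) b1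
        _ ≤ 2 * (2 * k * 𝒞.card) := by omega
        _ = _ := by ring
  · refine hA.largeI n a s e τ F 𝒯 L h hL hc t1 t2 t3 t4 ?_
    rw [← hk]
    have b1 : 𝒞.card * θ ≤ ∑ U ∈ 𝒞, ms a F U := by
      rw [← smul_eq_mul]
      exact card_nsmul_le_sum _ _ _ fun U hU => (mem_filter.1 hU).2.1
    obtain ⟨U, hU⟩ : 𝒞.Nonempty := card_pos.1 (by have := Nat.one_le_pow 6 k hk1; omega)
    have b2 : ms a F (T0 a s) ≤ 2 * θ :=
      (hr U (mem_filter.1 hU).1).trans (mem_filter.1 hU).2.2.le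
    have b3 := hA.nc.lin (4 * k ^ 2) (32 * k ^ 7) s hs1 (by
      have := pw k hk1 (show 2 ≤ 7 by norm_num)
      omega)
    have b4 : 8 * k ^ 5 * (4 * k ^ 2).choose s ≤ (32 * k ^ 7).choose s := by
      refine Nat.le_of_mul_le_mul_left (le_trans (le_of_eq ?_) b3) (by positivity)
      ring
    have b5 : 4 * k ^ 4 * (4 * k ^ 2).choose s ≤ 𝒞.card := by
      refine Nat.le_of_mul_le_mul_left (?_ : 2 * k * (4 * k ^ 4 * _) ≤ _)
        (show 0 < 2 * k by omega)
      calc 2 * k * (4 * k ^ 4 * (4 * k ^ 2).choose s) = 8 * k ^ 5 * (4 * k ^ 2).choose s := by ring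
        _ ≤ _ := by omega
    calc 2 * k ^ 4 * ms a F (T0 a s) * (4 * k ^ 2).choose s
        ≤ 2 * k ^ 4 * (2 * θ) * (4 * k ^ 2).choose s :=
          Nat.mul_le_mul_right _ (Nat.mul_le_mul_left _ b2)
      _ = 4 * k ^ 4 * (4 * k ^ 2).choose s * θ := by ring
      _ ≤ 𝒞.card * θ := Nat.mul_le_mul_right _ b5
      _ < _ := by omega

/-- the numerical part of the second regime -/
theorem numII (hA : All) {a s : ℕ} {X : Finset ℕ} {Fr : Finset (Finset ℕ)}
    {h q0 q1 γ : Finset ℕ → ℕ} {r r0 μ σ D cD : ℕ} {v : ℝ}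
    (hD : Dat a s X Fr h q0 q1 γ r r0 μ σ D cD v) (hμ : μ ≤ CC a * X.card.choose s)
    (hFr : 16 * (a + s + 1) ^ 4 ≤ Fr.card)
    (hP : 1 ≤ D → ∃ lam O B : ℝ, Deep a Fr q0 q1 γ r D cD lam O B) : Mix a s X μ v := by
  have fit := fun hV => hA.fit a s μ X v hD.a4 hD.s1 hD.big hμ hV
  by_cases hS : (Hv a s r X q0 q1).Nonempty ∨
      16 * (a + s + 1) ^ 4 ≤ ((powersetCard s X).filter fun U => 1 ≤ q1 U).card
  · obtain ⟨S, s1, s2⟩ := hA.sel a s r X q0 q1 hD.a4 hD.dense hS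
    rcases le_total D (Fill a s r X q0 q1 S + σ) with hle | hle
    · exact hA.rem a s X Fr S h q0 q1 γ r r0 μ σ D cD v hD s1 s2 hle
    rcases Nat.eq_zero_or_pos D with h0 | h0
    · exact hA.rem a s X Fr S h q0 q1 γ r r0 μ σ D cD v hD s1 s2 (by omega)
    obtain ⟨lam, O, B, hd⟩ := hP h0
    by_cases hz : ∃ z : ℕ, 1 ≤ z ∧ z ≤ r0 ∧ (kk a z : ℝ) ≤ lam * z
    · exact fit (hA.pack a s X Fr S h q0 q1 γ r r0 μ σ D cD v lam O B hD hd s1 hle hz)
    · refine fit (hA.unif a s X Fr h q0 q1 γ r r0 μ σ D cD v lam O B hD hd fun z z1 z2 => ?_)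
      by_contra hc
      exact hz ⟨z, z1, z2, (not_le.1 hc).le⟩
  · rw [not_or, not_nonempty_iff_eq_empty, not_le] at hS
    have hD0 : D = 0 := by
      by_contra h0
      obtain ⟨lam, O, B, hd⟩ := hP (by omega)
      have : Fr ⊆ (powersetCard s X).filter fun U => 1 ≤ q1 U := fun U hU =>
        mem_filter.2 ⟨hD.sub hU, hd.pos U hU⟩
      have := card_le_card this
      omega
    have hσ : σ = 0 := by
      have h1 := hD.sig _ (filter_subset (fun U => 1 ≤ q1 U) _)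
      rw [sum_eq_zero (fun U hU => by
        have h2 := mem_sdiff.1 hU
        by_contra h3
        exact h2.2 (mem_filter.2 ⟨h2.1, by omega⟩)), mul_zero] at h1
      have h4 := hD.big
      have h5 := pw (a + s + 1) (by omega) (show 4 ≤ 6 by norm_num)
      have h6 : a + s + 1 ≤ (a + s + 1) ^ 6 := Nat.le_self_pow (by norm_num) _
      rcases Nat.eq_zero_or_pos σ with h7 | h7
      · exact h7
      · have := Nat.mul_pos (show 0 < X.card - s -
          ((powersetCard s X).filter fun U => 1 ≤ q1 U).card by omega) h7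
        omega
    refine ⟨h, fun U => q0 U + q1 U, fun U hU => ?_, fun T hT U hU hd =>
      (hD.hx T hT U hU hd).trans (Nat.le_add_right _ _), ?_, ?_⟩
    · have h1 : ¬ 8 * (a + 1) * r ≤ q0 U + q1 U := fun hc => by
        have : U ∈ Hv a s r X q0 q1 := mem_filter.2 ⟨hU, hc⟩
        rw [hS.1] at this
        exact notMem_empty _ this
      have h2 := hD.dense
      have h3 := hA.nc.c4 a (by have := hD.a4; omega)
      have h4 : 64 * (a + 1) * r ≤ 64 * (a + s + 1) * r :=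
        Nat.mul_le_mul_right _ (Nat.mul_le_mul_left _ (by omega))
      have h5 : 64 * (a + 1) * r = 8 * (8 * (a + 1) * r) := by ring
      change q0 U + q1 U ≤ _
      omega
    · have := hD.size
      rwa [hσ, hD0] at this
    · have h1 := hD.val
      have h2 : ∑ U ∈ powersetCard s X, γ U ≤ ∑ U ∈ powersetCard s X, cl a (q0 U + q1 U) :=
        sum_le_sum hD.g1
      have h3 : ((∑ U ∈ powersetCard s X, γ U : ℕ) : ℝ) ≤
          ((∑ U ∈ powersetCard s X, cl a (q0 U + q1 U) : ℕ) : ℝ) := by exact_mod_cast h2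
      have h4 : (0 : ℝ) ≤ cD := Nat.cast_nonneg _
      rw [hσ] at h1
      simp only [Nat.cast_zero, mul_zero, sub_zero] at h1
      linarith

/-- the second regime -/
theorem regII (hA : All) {n a s e μ : ℕ} {F 𝒯 : Finset (Finset ℕ)} (h : Ctx n a s e F 𝒯)
    (hm : (AF n (a + s) a).card + μ = F.card) :
    Mix a s (Ico (2 * a + 1) n) μ (((∂ F).card : ℝ) -
      ((∑ T ∈ low (Ico (2 * a + 1) n) (s + 1), (2 * a + 1).choose (a + s - T.card) : ℕ) : ℝ)) := by
  have hD := hA.dat n a s e μ F 𝒯 h hm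
  obtain ⟨-, τ, t1, t2, t3, -⟩ := hA.scale n a s e F 𝒯 h
  obtain ⟨-, -, s3⟩ := hA.shad n a s e F 𝒯 h (dd_le (e := e) (𝒯 := 𝒯) t2 t3)
  have hb := h.big
  have hs1 := h.s1
  have hsm := h.small
  have hma := h.mass
  have htc := card_le_card h.tsub
  rw [card_powersetCard, Nat.card_Ico] at htc
  obtain ⟨k, hk⟩ : ∃ k, k = a + s + 1 := ⟨_, rfl⟩
  have hk1 : 1 ≤ k := by omega
  have p1 : k ≤ k ^ 20 := Nat.le_self_pow (by norm_num) k
  have p2 := pw k hk1 (show 4 ≤ 20 by norm_num)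
  refine numII hA hD ?_ ?_ (hA.deep n a s e F 𝒯 h)
  · have h1 := hD.size
    have h2 : dd n a s F = ∑ T ∈ powersetCard (s + 1) (Ico (2 * a + 1) n), hh a F T +
        dl n a s F := (hA.cn.split (2 * a) n (s + 1) F (by rw [← hk] at hb; omega)).1
    have h3 : μ ≤ dd n a s F := by omega
    have h4 : dd n a s F ≤ k * e := by
      have b1 : τ * cd n a s F ≤ τ * (dd n a s F + e) := Nat.mul_le_mul_left _ s3
      have b2 : (τ + 1) * dd n a s F ≤ a * dd n a s F := Nat.mul_le_mul_right _ t2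
      have b3 : τ * e ≤ k * e := Nat.mul_le_mul_right _ (by omega)
      rw [mul_add] at b1
      rw [add_mul, one_mul] at b2
      omega
    rw [← hk] at hsm hma htc
    have h5 : (n - 3 * k).choose s ≤ (n - (2 * a + 1)).choose s :=
      Nat.choose_le_choose _ (by omega)
    rw [Nat.card_Ico]
    have h6 : 2 * k * (k * e) ≤ 65 * k ^ 9 * e := by
      have := pw k hk1 (show 2 ≤ 9 by norm_num)
      calc 2 * k * (k * e) = 2 * k ^ 2 * e := by ring
        _ ≤ _ := Nat.mul_le_mul_right _ (by omega)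
    have h7 : k * e ≤ CC a * 𝒯.card := by
      refine Nat.le_of_mul_le_mul_left (?_ : 2 * k * _ ≤ 2 * k * _) (by omega)
      rw [← mul_assoc (2 * k) (CC a)]
      omega
    exact h3.trans (h4.trans (h7.trans (Nat.mul_le_mul_left _ (htc.trans h5))))
  · rw [card_powersetCard, Nat.card_Ico, ← hk]
    rw [← hk] at hb
    exact le_trans (by omega) (hA.nc.self (n - 3 * k) s hs1 (by omega))

end Join

end Pool.Agent.MP_d50107_co.P61
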