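import Pool.Agent.MP_d50107_co.P61.Spec

/-! Tools for families of numbers and binomial estimates. -/

namespace Pool.Agent.MP_d50107_co.P61

open Finset
open Pool.Agent.MP_d50107_co.H61

namespace NumA

theorem cover {ι : Type} (S : Finset ι) (φ : ι → ℕ) (L a : ℕ) (h : ∀ i ∈ S, φ i < 2 ^ L) :
    (S.filter fun i => 2 ^ a ≤ φ i).card ≤
      ∑ j ∈ Ico a L, (S.filter fun i => 2 ^ j ≤ φ i ∧ φ i < 2 * 2 ^ j).card := by
  classical
  refine le_trans (card_le_card fun i hi => ?_) card_biUnion_le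
  obtain ⟨h1, h2⟩ := mem_filter.1 hi
  have h0 : φ i ≠ 0 := (lt_of_lt_of_le (Nat.two_pow_pos a) h2).ne'
  refine mem_biUnion.2 ⟨Nat.log 2 (φ i), mem_Ico.2 ⟨Nat.le_log_of_pow_le one_lt_two h2,
    Nat.log_lt_of_lt_pow h0 (h i h1)⟩, mem_filter.2 ⟨h1, Nat.pow_log_le_self 2 h0, ?_⟩⟩
  rw [← pow_succ']
  exact Nat.lt_pow_succ_log_self one_lt_two _

theorem class1 {ι : Type} (S : Finset ι) (φ : ι → ℕ) (L : ℕ) (h : ∀ i ∈ S, 1 ≤ φ i ∧ φ i < 2 ^ L) :
    ∃ θ, 1 ≤ θ ∧ S.card ≤ L * (S.filter fun i => θ ≤ φ i ∧ φ i < 2 * θ).card := by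
  have h1 := cover S φ L 0 fun i hi => (h i hi).2
  rw [pow_zero, filter_true_of_mem fun i hi => (h i hi).1] at h1
  obtain ⟨j, -, hj⟩ := exists_max_image (range (L + 1))
    (fun j => (S.filter fun i => 2 ^ j ≤ φ i ∧ φ i < 2 * 2 ^ j).card) nonempty_range_add_one
  refine ⟨2 ^ j, Nat.two_pow_pos j, h1.trans ((sum_le_card_nsmul _ _ _ fun b hb =>
    hj b (mem_range.2 (Nat.lt_succ_of_lt (mem_Ico.1 hb).2))).trans_eq ?_)⟩
  rw [Nat.card_Ico, Nat.sub_zero, smul_eq_mul]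

theorem class2 {ι : Type} (S : Finset ι) (φ : ι → ℕ) (L P : ℕ) (hL : 1 ≤ L)
    (h : ∀ i ∈ S, φ i < 2 ^ L) (hP : L * P ≤ (S.filter fun i => 1 ≤ φ i).card) :
    ∃ θ, 1 ≤ θ ∧ P ≤ (S.filter fun i => θ ≤ φ i ∧ φ i < 2 * θ).card ∧
      (S.filter fun i => 2 * θ ≤ φ i).card ≤ L * P := by
  have h1 := hP.trans (cover S φ L 0 h)
  obtain ⟨j0, hj0, hj1⟩ := exists_le_of_sum_le (f := fun _ => P) (nonempty_Ico.2 hL)
    (le_trans (by rw [sum_const, Nat.card_Ico, Nat.sub_zero, smul_eq_mul]) h1)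
  obtain ⟨j, hj, hm⟩ := exists_max_image ((Ico 0 L).filter fun j =>
    P ≤ (S.filter fun i => 2 ^ j ≤ φ i ∧ φ i < 2 * 2 ^ j).card) id ⟨j0, mem_filter.2 ⟨hj0, hj1⟩⟩
  refine ⟨2 ^ j, Nat.two_pow_pos j, (mem_filter.1 hj).2, ?_⟩
  rw [← pow_succ']
  refine (cover S φ L (j + 1) h).trans ((sum_le_card_nsmul _ _ P fun b hb => ?_).trans ?_)
  · by_contra hn
    have := hm b (mem_filter.2 ⟨mem_Ico.2 ⟨Nat.zero_le _, (mem_Ico.1 hb).2⟩, (not_le.1 hn).le⟩)
    exact absurd (mem_Ico.1 hb).1 (not_le.2 (Nat.lt_succ_of_le this))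
  · rw [Nat.card_Ico, smul_eq_mul]
    exact Nat.mul_le_mul_right _ (Nat.sub_le _ _)

theorem sum_upd {ι : Type} [DecidableEq ι] {S : Finset ι} {i : ι} (hi : i ∉ S) (g : ι → ℕ) (x : ℕ)
    (ψ : ℕ → ℕ) : ∑ b ∈ insert i S, ψ (Function.update g i x b) = ψ x + ∑ b ∈ S, ψ (g b) := by
  rw [sum_insert hi, Function.update_self]
  exact congrArg _ (sum_congr rfl fun b hb => by
    rw [Function.update_of_ne (ne_of_mem_of_not_mem hb hi)])

theorem assign {ι : Type} (S : Finset ι) (v : List ℕ) (h : v.length ≤ S.card) :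
    ∃ φ : ι → ℕ, (∀ i ∈ S, φ i = 0 ∨ φ i ∈ v) ∧
      ∀ ψ : ℕ → ℕ, ψ 0 = 0 → ∑ i ∈ S, ψ (φ i) = (v.map ψ).sum := by
  classical
  induction v generalizing S with
  | nil => exact ⟨fun _ => 0, fun _ _ => Or.inl rfl, fun ψ e => by simp [e]⟩
  | cons x v ih =>
    rw [List.length_cons] at h
    obtain ⟨i, hi⟩ := card_pos.1 (lt_of_lt_of_le (Nat.succ_pos _) h)
    obtain ⟨φ, h1, h2⟩ := ih (S.erase i) (by rw [card_erase_of_mem hi]; omega)
    refine ⟨Function.update φ i x, fun b hb => ?_, fun ψ e => ?_⟩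
    · by_cases k : b = i
      · rw [k, Function.update_self]
        exact Or.inr List.mem_cons_self
      · rw [Function.update_of_ne k]
        exact (h1 b (mem_erase.2 ⟨k, hb⟩)).imp_right (List.mem_cons_of_mem _)
    · rw [← insert_erase hi, sum_upd (notMem_erase i S), h2 ψ e, List.map_cons, List.sum_cons]

theorem part {a h d : ℕ} (ha : 2 ≤ a) (hh : h ≤ (2 * a - 2).choose a) (hd : d ≤ h) :
    kk a (h - d) + cl (a - 1) d ≤ kk a h := by
  have h1 := ct.nw a (by omega)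
  have h2 := ct.nsym a (by omega)
  obtain ⟨b, rfl⟩ : ∃ b, a = b + 1 := ⟨a - 1, by omega⟩
  rw [Nat.add_sub_cancel] at h2 ⊢
  rw [NN] at h1 h2
  have h3 := hKN.clem b (2 * (b + 1) - 1) h ((2 * (b + 1) - 1).choose (b + 1) - d) (by omega)
    (by omega) (by omega) (by omega)
  have h4 := hKN.dual b (b + 1) d (by omega)
  rw [show b + (b + 1) = 2 * (b + 1) - 1 by omega, h2] at h4
  have h5 := h4 (by omega)
  rw [show h + ((2 * (b + 1) - 1).choose (b + 1) - d) - (2 * (b + 1) - 1).choose (b + 1) = h - d by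
    omega, h2] at h3
  omega

theorem whole {a h : ℕ} (ha : 2 ≤ a) (hh : h ≤ (2 * a - 2).choose a) : (a + 1) * h ≤ a * kk a h := by
  have h1 := hKN.lym a (2 * a - 2) h (by omega) hh
  obtain ⟨b, rfl⟩ : ∃ b, a = b + 2 := ⟨a - 2, by omega⟩
  rw [show 2 * (b + 2) - 2 - (b + 2) + 1 = b + 1 by omega] at h1
  refine Nat.le_of_mul_le_mul_left ?_ (Nat.succ_pos b)
  linarith [Nat.mul_le_mul_left (b + 2) h1]

theorem remove {ι : Type} (S : Finset ι) (h : ι → ℕ) (a r d : ℕ) (ha : 2 ≤ a)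
    (hr : r ≤ (2 * a - 2).choose a) (hh : ∀ i ∈ S, h i ≤ r) (hd : d ≤ ∑ i ∈ S, h i) :
    ∃ (g : ι → ℕ) (j : ℕ), (∀ i ∈ S, g i ≤ h i) ∧ ∑ i ∈ S, g i + d = ∑ i ∈ S, h i ∧ j ≤ r ∧ j ≤ d ∧
      a * ∑ i ∈ S, kk a (g i) + (a + 1) * (d - j) + a * cl (a - 1) j ≤ a * ∑ i ∈ S, kk a (h i) := by
  classical
  induction S using Finset.induction_on generalizing d with
  | empty =>
    obtain rfl : d = 0 := Nat.le_zero.1 hd
    exact ⟨h, 0, by simp⟩
  | insert i S hi ih =>
    have h0 := hh i (mem_insert_self _ _)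
    rw [sum_insert hi] at hd
    by_cases k : d ≤ h i
    · refine ⟨Function.update h i (h i - d), d, fun b _ => ?_, ?_, k.trans h0, le_rfl, ?_⟩
      · by_cases e : b = i
        · rw [e, Function.update_self]
          exact Nat.sub_le _ _
        · rw [Function.update_of_ne e]
      · rw [sum_upd hi h _ fun x => x, sum_insert hi]
        omega
      · rw [sum_upd hi h _ (kk a), sum_insert hi, Nat.sub_self, mul_zero, add_zero, ← mul_add]
        have := part ha (h0.trans hr) k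
        exact Nat.mul_le_mul_left _ (by omega)
    · obtain ⟨g, j, h1, h2, h3, h4, h5⟩ := ih (d - h i) (fun b hb => hh b (mem_insert_of_mem hb))
        (by omega)
      refine ⟨Function.update g i 0, j, fun b hb => ?_, ?_, h3, by omega, ?_⟩
      · by_cases e : b = i
        · rw [e, Function.update_self]
          exact Nat.zero_le _
        · rw [Function.update_of_ne e]
          exact h1 b ((mem_insert.1 hb).resolve_left e)
      · rw [sum_upd hi g _ fun x => x, sum_insert hi]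
        omega
      · rw [sum_upd hi g _ (kk a), sum_insert hi, kk_zero, zero_add,
          show d - j = h i + (d - h i - j) by omega, mul_add, mul_add]
        have := whole ha (h0.trans hr)
        omega

theorem two_step (l t : ℕ) : (l + t + 2).choose l * ((t + 2) * (t + 1)) =
    (l + t).choose l * ((l + t + 2) * (l + t + 1)) := by
  have h1 := Nat.choose_mul_succ_eq (l + t) l
  have h2 := Nat.choose_mul_succ_eq (l + t + 1) l
  rw [show l + t + 1 - l = t + 1 by omega] at h1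
  rw [show l + t + 1 + 1 - l = t + 2 by omega] at h2
  rw [← mul_assoc, ← h2, mul_right_comm, ← h1]
  ring

theorem win (l z : ℕ) (hl : 1 ≤ l) (hz : 2 ≤ z) : ∃ x, l + 1 ≤ x ∧ (x - 1).choose l < z ∧
    z ≤ x.choose l ∧ 2 * (x + 1).choose l ≤ z * ((x + 1) * x) := by
  have ex : ∃ x : ℕ, z ≤ x.choose l := by
    obtain ⟨m, rfl⟩ : ∃ m, l = m + 1 := ⟨l - 1, by omega⟩
    exact ⟨_, (Nat.le_succ z).trans (le_choose_add m z)⟩
  have h1 := Nat.find_spec ex
  have h2 : l + 1 ≤ Nat.find ex := by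
    by_contra k
    have := Nat.choose_le_choose l (show Nat.find ex ≤ l by omega)
    rw [Nat.choose_self] at this
    omega
  have h3 := not_le.1 (Nat.find_min ex (show Nat.find ex - 1 < Nat.find ex by omega))
  refine ⟨_, h2, h3, h1, ?_⟩
  obtain ⟨t, e⟩ : ∃ t, Nat.find ex = l + t + 1 := ⟨Nat.find ex - l - 1, by omega⟩
  rw [e] at h3 ⊢
  rw [Nat.add_sub_cancel] at h3
  refine le_trans ?_ ((two_step l t).trans_le (Nat.mul_le_mul_right _ h3.le))
  rw [mul_comm]
  exact Nat.mul_le_mul_left _ (by nlinarith)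

theorem block (i x j : ℕ) (hi : 1 ≤ i) :
    (x - i) * j ≤ (i + 1) * cl i j + (x - i) * x.choose i := by
  by_cases hx : x < i
  · rw [Nat.sub_eq_zero_of_le hx.le, zero_mul]
    exact Nat.zero_le _
  have h0 := Nat.choose_pos (not_lt.1 hx)
  induction j using Nat.strong_induction_on with
  | _ j ih =>
    by_cases k : j ≤ x.choose i
    · exact (Nat.mul_le_mul_left _ k).trans (Nat.le_add_left _ _)
    · obtain ⟨m, rfl⟩ : ∃ m, j = x.choose i + m := ⟨j - x.choose i, by omega⟩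
      have h1 := ih m (by omega)
      have h2 := Nat.mul_le_mul_left (i + 1) (KNx.cl_super hKN.clym hi (x.choose i) m)
      have h3 : cl i (x.choose i) = x.choose (i + 1) := by
        obtain ⟨l, rfl⟩ : ∃ l, i = l + 1 := ⟨i - 1, by omega⟩
        exact cl_choose l x
      rw [h3, mul_add, mul_comm (i + 1), Nat.choose_succ_right_eq, mul_comm (x.choose i)] at h2
      rw [mul_add]
      omega

theorem kc (b t : ℕ) : ((t : ℝ) + 1) * kk (b + 1) ((b + 1 + t).choose (b + 1)) =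
    ((b : ℝ) + 1) * (b + 1 + t).choose (b + 1) := by
  have h := Nat.choose_succ_right_eq (b + 1 + t) b
  rw [show b + 1 + t - b = t + 1 by omega, ← kk_choose (l := b) (by omega)] at h
  have h' := congrArg (Nat.cast : ℕ → ℝ) h
  push_cast at h'
  linarith

theorem nstar (a : ℕ) (lam O : ℝ) (ha : 3 ≤ a) (h1 : (a : ℝ) - 1 ≤ lam * ((a : ℝ) - 2))
    (h2 : lam ≤ (a : ℝ) - 1) (hO : Osc a lam O) : ∃ n : ℕ, 1 ≤ n ∧ n ≤ (2 * a - 2).choose a ∧
      (kk a n : ℝ) ≤ lam * n ∧ lam * n ≤ 2 * (a : ℝ) ^ 2 * O := by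
  have a3 : (3 : ℝ) ≤ a := by exact_mod_cast ha
  have l1 : 1 ≤ lam := by nlinarith
  obtain ⟨T, t1, t2, t3⟩ := Num.exists_win l1 (show 1 ≤ a by omega)
  have t4 : T ≠ 1 := by
    rintro rfl
    push_cast at t3
    linarith
  have t5 : T < a := by
    by_contra k
    have : (a : ℝ) ≤ T := by exact_mod_cast not_lt.1 k
    nlinarith
  obtain ⟨b, rfl⟩ : ∃ b, a = b + 1 := ⟨a - 1, by omega⟩
  obtain ⟨t, rfl⟩ : ∃ t, T = t + 2 := ⟨T - 2, by omega⟩
  have O0 : 0 ≤ O := by simpa using hO 0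
  have tb : (t : ℝ) + 2 ≤ b := by exact_mod_cast Nat.lt_succ_iff.1 t5
  have t0 : (0 : ℝ) ≤ t := Nat.cast_nonneg t
  push_cast at t2 t3 h1 h2 a3 ⊢
  refine ⟨(b + 1 + (t + 1)).choose (b + 1), Nat.choose_pos (by omega),
    Nat.choose_le_choose _ (by omega), ?_, ?_⟩
  · have k := kc b (t + 1)
    push_cast at k
    refine le_of_mul_le_mul_left (k.trans_le ?_) (by positivity)
    linarith [mul_le_mul_of_nonneg_right t3 (Nat.cast_nonneg ((b + 1 + (t + 1)).choose (b + 1)))]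
  · rcases t with _ | s
    · have k := hO 1
      rw [kk_one] at k
      rw [zero_add, Nat.choose_succ_self_right]
      push_cast at k ⊢
      nlinarith [mul_le_mul_of_nonneg_left (show 1 ≤ O by linarith) (sq_nonneg ((b : ℝ) + 1))]
    · have k := kc b s
      have k1 := hO ((b + 1 + s).choose (b + 1))
      have k2 := congrArg (Nat.cast : ℕ → ℝ) (two_step (b + 1) s)
      rw [show b + 1 + (s + 1 + 1) = b + 1 + s + 2 by omega]
      push_cast at k2 t2 tb
      have s0 : (0 : ℝ) ≤ s := Nat.cast_nonneg s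
      have z0 : (0 : ℝ) ≤ (b + 1 + s).choose (b + 1) := Nat.cast_nonneg _
      generalize ((b + 1 + s).choose (b + 1) : ℝ) = z at k1 k2 z0 k
      generalize ((b + 1 + s + 2).choose (b + 1) : ℝ) = n at k2 ⊢
      have k3 : lam * z ≤ (s + 1) * O := by
        linarith [mul_le_mul_of_nonneg_left k1 (show (0 : ℝ) ≤ s + 1 by linarith),
          mul_le_mul_of_nonneg_right t2.le z0]
      have k4 : ((b : ℝ) + 1 + s + 2) * (b + 1 + s + 1) ≤ 2 * (b + 1) ^ 2 * (s + 2) := by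
        nlinarith [mul_nonneg (sq_nonneg ((b : ℝ) + 1)) s0]
      refine le_of_mul_le_mul_right ?_ (show (0 : ℝ) < (s + 2) * (s + 1) by positivity)
      calc lam * n * ((s + 2) * (s + 1)) = lam * z * ((b + 1 + s + 2) * (b + 1 + s + 1)) := by
            rw [mul_assoc, k2, mul_assoc]
        _ ≤ (s + 1) * O * (2 * (b + 1) ^ 2 * (s + 2)) :=
            mul_le_mul k3 k4 (by positivity) (by positivity)
        _ = _ := by ring

theorem c4 (a : ℕ) (ha : 1 ≤ a) : CC a ≤ 4 * NN a := by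
  obtain ⟨b, rfl⟩ : ∃ b, a = b + 1 := ⟨a - 1, by omega⟩
  rw [NN, show 2 * (b + 1) - 1 = 2 * b + 1 by omega]
  exact ArithAux.cc_up b

theorem c8 (a : ℕ) (ha : 1 ≤ a) : CC a ≤ 8 * WW a := by
  have := c4 a ha
  have := ct.nw a ha
  have := ct.c2 a ha
  omega

theorem c16 (a : ℕ) (ha : 2 ≤ a) : CC a ≤ 16 * (2 * a - 2).choose a := by
  have h1 := c8 a (by omega)
  obtain ⟨b, rfl⟩ : ∃ b, a = b + 2 := ⟨a - 2, by omega⟩
  have h2 := Nat.choose_succ_right_eq (2 * (b + 2) - 2) (b + 1)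
  rw [show 2 * (b + 2) - 2 - (b + 1) = b + 1 by omega] at h2
  have h3 : WW (b + 2) ≤ 2 * (2 * (b + 2) - 2).choose (b + 2) := by
    refine Nat.le_of_mul_le_mul_right (le_trans h2.ge ?_) (Nat.succ_pos b)
    rw [mul_comm 2 (Nat.choose _ _), mul_assoc]
    exact Nat.mul_le_mul_left _ (by omega)
  omega

theorem lin (u v s : ℕ) (hs : 1 ≤ s) (h : u ≤ v) : v * u.choose s ≤ u * v.choose s := by
  induction v, h using Nat.le_induction with
  | base => exact le_rfl
  | succ v h ih =>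
    rcases Nat.eq_zero_or_pos v with rfl | h0
    · rw [Nat.choose_eq_zero_of_lt (by omega), mul_zero]
      exact Nat.zero_le _
    · have h1 := (Nat.choose_mul_succ_eq v s).trans_le
        (Nat.mul_le_mul_left _ (show v + 1 - s ≤ v by omega))
      refine Nat.le_of_mul_le_mul_left ?_ h0
      linarith [Nat.mul_le_mul_left (v + 1) ih, Nat.mul_le_mul_left u h1]

theorem self (v s : ℕ) (hs : 1 ≤ s) (h : s < v) : v ≤ v.choose s := by
  have h1 := lin (s + 1) v s hs h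
  rw [Nat.choose_succ_self_right, mul_comm] at h1
  exact Nat.le_of_mul_le_mul_left h1 (Nat.succ_pos s)

end NumA

theorem na : NA := ⟨NumA.class1, NumA.class2, NumA.assign, NumA.remove⟩

theorem nc : NC :=
  ⟨NumA.win, NumA.block, NumA.nstar, NumA.c4, NumA.c8, NumA.c16, NumA.lin, NumA.self⟩

end Pool.Agent.MP_d50107_co.P61
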