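import Pool.Agent.MP_d50107_co.P61.Spec

/-! Packing new pieces when filling does not give enough room. -/

namespace Pool.Agent.MP_d50107_co.P61

open Finset
open scoped FinsetFamily
open Pool.Agent.MP_d50107_co.H61
open Pool.Agent.MP_d50107_co.H54 (IsInit)

namespace Pack

theorem heavy {a lam O m r γ q : ℝ} (ha : 4 ≤ a) (hl : a + 1 ≤ lam * a) (hr : 0 ≤ r)
    (hm : 8 * (a + 1) * r ≤ m) (hγ : γ ≤ m) (hq : q ≤ m) (hO : O ≤ lam * r) :
    q + 8 * a * O ≤ 16 * a * (lam * (m - r) - γ) := by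
  have h0 : 0 ≤ lam := by nlinarith
  have h1 : 16 * a + 4 ≤ lam * (16 * a - 1) :=
    le_of_mul_le_mul_left (a := a) (by nlinarith) (by linarith)
  have h2 : 0 ≤ a * r := by positivity
  have h3 := mul_le_mul_of_nonneg_right h1 (show 0 ≤ m - r by linarith)
  have h4 := mul_le_mul_of_nonneg_left (show 8 * a * r ≤ m - r by linarith) h0
  have h5 := mul_le_mul_of_nonneg_left hO (show 0 ≤ 8 * a by linarith)
  have h6 := mul_le_mul_of_nonneg_left hγ (show 0 ≤ 16 * a by linarith)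
  linarith

variable {a s : ℕ} {X : Finset ℕ} {Fr S : Finset (Finset ℕ)} {h q0 q1 γ : Finset ℕ → ℕ}
  {r r0 μ σ D cD : ℕ} {v lam O B : ℝ}

/-- the number of missing sets after filling -/
noncomputable def mm (a s r : ℕ) (X : Finset ℕ) (S : Finset (Finset ℕ)) (q0 q1 : Finset ℕ → ℕ)
    (U : Finset ℕ) : ℕ :=
  if U ∈ Hv a s r X q0 q1 then r else if U ∈ S then q0 U else q0 U + q1 U

theorem small (hN : NC) (hD : Dat a s X Fr h q0 q1 γ r r0 μ σ D cD v) :
    8 * (a + 1) * r ≤ NN a ∧ 8 * (a + 1) * r ≤ WW a ∧ r ≤ 8 * (a + 1) * r := by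
  have h1 := hN.c4 a (by linarith [hD.a4])
  have h2 := hN.c8 a (by linarith [hD.a4])
  have h3 := hD.dense
  have h4 : 8 * (8 * (a + 1) * r) ≤ 64 * (a + s + 1) * r := by linarith [Nat.zero_le (s * r)]
  exact ⟨by omega, by omega, Nat.le_mul_of_pos_left _ (by omega)⟩

theorem light {U : Finset ℕ} (hU : U ∈ powersetCard s X) (h1 : U ∉ Hv a s r X q0 q1) :
    q0 U + q1 U < 8 * (a + 1) * r := not_le.1 fun h => h1 (mem_filter.2 ⟨hU, h⟩)

theorem mm_le (hN : NC) (hD : Dat a s X Fr h q0 q1 γ r r0 μ σ D cD v) {U : Finset ℕ}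
    (hU : U ∈ powersetCard s X) : mm a s r X S q0 q1 U ≤ NN a := by
  obtain ⟨h1, -, h2⟩ := small hN hD
  unfold mm
  split_ifs with h3
  · omega
  all_goals
    have := light hU h3
    omega

theorem lam_ge (ha : 4 ≤ a) (hP : Deep a Fr q0 q1 γ r D cD lam O B) :
    (a : ℝ) + 1 ≤ lam * a ∧ 1 ≤ lam ∧ 0 ≤ O := by
  have h1 : (4 : ℝ) ≤ a := by exact_mod_cast ha
  have h2 := hP.l1
  have h3 : 1 ≤ lam := le_of_mul_le_mul_right (a := (a : ℝ) - 2) (by linarith) (by linarith)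
  exact ⟨by linarith, h3, by simpa using hP.osc 0⟩

/-- the surplus of one tail -/
theorem surplus (hN : NC) (hD : Dat a s X Fr h q0 q1 γ r r0 μ σ D cD v)
    (hP : Deep a Fr q0 q1 γ r D cD lam O B) {U : Finset ℕ} (hU : U ∈ powersetCard s X) :
    (if U ∈ (powersetCard s X \ Hv a s r X q0 q1) \ S then 0 else (q1 U : ℝ) + 8 * a * O) -
      (if U ∈ Fr then 0 else 8 * a * O) ≤
      16 * a * (lam * (q0 U + q1 U - mm a s r X S q0 q1 U) - γ U + cl a (mm a s r X S q0 q1 U)) := by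
  obtain ⟨l1, l2, l3⟩ := lam_ge hD.a4 hP
  have a4 : (4 : ℝ) ≤ a := by exact_mod_cast hD.a4
  have h0 : 0 ≤ (if U ∈ Fr then 0 else 8 * a * O : ℝ) := by split_ifs <;> positivity
  unfold mm
  by_cases h1 : U ∈ Hv a s r X q0 q1
  · have h2 := heavy (m := q0 U + q1 U) (γ := γ U) (q := q1 U) a4 l1 (Nat.cast_nonneg r)
      (by exact_mod_cast (mem_filter.1 h1).2) (by exact_mod_cast hD.g0 U hU)
      (le_add_of_nonneg_left (Nat.cast_nonneg _)) hP.rA
    have h3 : (0 : ℝ) ≤ 16 * a * cl a r := by positivity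
    rw [if_neg (by simp [h1]), if_pos h1]
    linarith
  · by_cases h2 : U ∈ S
    · have h3 : q1 U ≤ WW a := by
        have := light hU h1
        have := (small hN hD).2.1
        omega
      have h4 := hKN.clym (a - 1) (2 * a - 2) (q1 U) h3
      rw [show a - 1 + 1 = a by have := hD.a4; omega,
        show 2 * a - 2 - (a - 1) = a - 1 by omega] at h4
      have h5 : (a : ℝ) * cl (a - 1) (q1 U) ≤ (a - 1) * q1 U := by
        have h6 : ((a - 1 : ℕ) : ℝ) = a - 1 := by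
          rw [Nat.cast_sub (by linarith [hD.a4]), Nat.cast_one]
        rw [← h6]
        exact_mod_cast h4
      have h6 : (γ U : ℝ) ≤ cl (a - 1) (q1 U) + cl a (q0 U) := by exact_mod_cast hD.g2 U hU
      have h7 := mul_le_mul_of_nonneg_left h6 (show (0 : ℝ) ≤ a by linarith)
      have h8 := mul_le_mul_of_nonneg_right l1 (Nat.cast_nonneg (α := ℝ) (q1 U))
      have h9 : (0 : ℝ) ≤ q1 U := Nat.cast_nonneg _
      rw [if_neg (by simp [h2]), if_neg h1, if_pos h2]
      split_ifs with h10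
      · have := mul_le_mul_of_nonneg_left (hP.bA U h10 h3) (show (0 : ℝ) ≤ a by linarith)
        linarith
      · linarith
    · have h3 : (γ U : ℝ) ≤ cl a (q0 U + q1 U) := by exact_mod_cast hD.g1 U hU
      have h4 := mul_le_mul_of_nonneg_left h3 (show (0 : ℝ) ≤ a by linarith)
      rw [if_pos (by simp only [mem_sdiff]; tauto), if_neg h1, if_neg h2, Nat.cast_add]
      linarith

/-- the counting inequalities -/
theorem count (hN : NC) (hD : Dat a s X Fr h q0 q1 γ r r0 μ σ D cD v) {E : Finset (Finset ℕ)}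
    (hE : E ⊆ powersetCard s X) (h1 : E.card ≤ 16 * (a + s + 1) ^ 4) :
    32 * a * σ ≤ ∑ U ∈ powersetCard s X \ E, q1 U ∧
      2 + (4 * a ^ 2 + 1) * (powersetCard s X \ Fr).card ≤ (powersetCard s X \ E).card := by
  have h2 := hD.big
  have h3 := hD.near
  have h4 := hD.sig E hE
  have h5 := card_sdiff_add_card_eq_card hE
  rw [card_powersetCard] at h5
  obtain ⟨k, hk⟩ : ∃ k, k = a + s + 1 := ⟨_, rfl⟩
  rw [← hk] at h1 h2 h3
  have k1 : 1 ≤ k := by omega
  have p1 : k ≤ k ^ 6 := le_self_pow₀ k1 (by norm_num)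
  have p2 : k ^ 4 ≤ k ^ 6 := pow_le_pow_right₀ k1 (by norm_num)
  have p3 : k ^ 2 ≤ k ^ 4 := pow_le_pow_right₀ k1 (by norm_num)
  have p4 : s * a ≤ k ^ 2 := by rw [pow_two]; exact Nat.mul_le_mul (by omega) (by omega)
  have p5 : a ^ 2 ≤ k ^ 2 := Nat.pow_le_pow_left (by omega) 2
  have p6 : 1 ≤ k ^ 2 := Nat.one_le_pow _ _ k1
  have h6 := hN.self X.card s hD.s1 (by omega)
  refine ⟨Nat.le_of_mul_le_mul_left (c := 4 * s) (le_trans ?_ h4) (by linarith [hD.s1]), ?_⟩
  · rw [← mul_assoc]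
    refine Nat.mul_le_mul_right _ ?_
    rw [show 4 * s * (32 * a) = 128 * (s * a) by ring]
    omega
  · have h7 : 1000 * (k ^ 4 * (powersetCard s X \ Fr).card) ≤ 3 * X.card.choose s :=
      Nat.le_of_mul_le_mul_left (c := k ^ 2) (by
        have := Nat.mul_le_mul_left (powersetCard s X \ Fr).card h2
        linarith) p6
    have h8 := Nat.mul_le_mul_right (powersetCard s X \ Fr).card
      (show 4 * a ^ 2 + 1 ≤ 5 * k ^ 4 by omega)
    rw [mul_assoc] at h8
    omega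

end Pack

open Pack in
theorem packStmt (hN : NC) : PackStmt := by
  intro a s X Fr S h q0 q1 γ r r0 μ σ D cD v lam O B hD hP hM hF ⟨z, z1, z2, z3⟩
  obtain ⟨l1, l2, l3⟩ := lam_ge hD.a4 hP
  have a4 : (4 : ℝ) ≤ a := by exact_mod_cast hD.a4
  have r2 := hD.r2
  obtain ⟨y, y1, y2, y3, y4⟩ : ∃ y : ℕ, 1 ≤ y ∧ y ≤ r0 ∧ (kk a y : ℝ) ≤ lam * y ∧
      lam * y ≤ 2 * (a : ℝ) ^ 2 * O := by
    obtain ⟨n, n1, -, n3, n4⟩ := hN.nstar a lam O (by linarith [hD.a4]) hP.l1 hP.l2 hP.osc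
    rcases le_total z n with e | e
    · exact ⟨z, z1, z2, z3,
        (mul_le_mul_of_nonneg_left (Nat.cast_le.2 e) (by linarith)).trans n4⟩
    · exact ⟨n, n1, e.trans z2, n3, n4⟩
  let M : Finset ℕ → ℕ := fun U => max (mm a s r X S q0 q1 U) y
  have m1 : ∀ U ∈ powersetCard s X, M U ≤ NN a := fun U hU => max_le (mm_le hN hD hU) (by
    have := small hN hD
    omega)
  have m2 : ∑ U ∈ powersetCard s X, (q0 U + q1 U) ≤
      ∑ U ∈ powersetCard s X, M U + Fill a s r X q0 q1 S := by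
    have e1 := sum_ite_mem (powersetCard s X) S q1
    have e2 := sum_ite_mem (powersetCard s X) (Hv a s r X q0 q1) fun U => q0 U + q1 U - r
    rw [inter_eq_right.2 (hM.1.trans sdiff_subset)] at e1
    rw [inter_eq_right.2 (show Hv a s r X q0 q1 ⊆ _ from filter_subset _ _)] at e2
    rw [Fill, ← e1, ← e2, ← sum_add_distrib, ← sum_add_distrib]
    refine sum_le_sum fun U _ => ?_
    have : mm a s r X S q0 q1 U ≤ M U := le_max_left _ _
    unfold mm at this
    split_ifs at this ⊢ <;> omega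
  have sz := hD.size
  obtain ⟨D', e⟩ := Nat.exists_eq_add_of_le (show ∑ U ∈ powersetCard s X, (q0 U + q1 U) + σ ≤
    D + ∑ U ∈ powersetCard s X, M U by omega)
  obtain ⟨l, t1, t2, t3⟩ := hTL.pack a y D' lam O y1 y3 hP.osc
  refine ⟨h, M, l, m1, fun T hT U hU hd => le_trans ?_ (le_max_left _ _),
    fun x hx U _ => (t1 x hx).trans (le_max_right _ _), by omega, ?_⟩
  · have := hD.hr T hT
    have := hD.hx T hT U hU hd
    unfold mm
    split_ifs <;> omega
  obtain ⟨c1, c2⟩ := count hN hD (sdiff_subset.trans sdiff_subset) hM.2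
  have key : ∀ U ∈ powersetCard s X,
      (if U ∈ (powersetCard s X \ Hv a s r X q0 q1) \ S then 0 else (q1 U : ℝ) + 8 * a * O) -
        (if U ∈ Fr then 0 else 8 * a * O * (4 * a ^ 2 + 1)) ≤
      16 * a * (lam * (q0 U + q1 U - M U) - γ U + cl a (M U)) := fun U hU => by
    have h1 := surplus (S := S) hN hD hP hU
    have h2 : (cl a (mm a s r X S q0 q1 U) : ℝ) ≤ cl a (M U) :=
      Nat.cast_le.2 (H25.cl_mono (by linarith [hD.a4]) (le_max_left _ _) (m1 U hU))
    have h3 := mul_le_mul_of_nonneg_left h2 (show (0 : ℝ) ≤ a by linarith)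
    by_cases h4 : U ∈ Fr
    · have h5 : M U = mm a s r X S q0 q1 U := max_eq_left (by
        have := hD.fr U h4
        unfold mm
        split_ifs <;> omega)
      rw [if_pos h4] at h1 ⊢
      rwa [h5]
    · have h5 : (M U : ℝ) ≤ mm a s r X S q0 q1 U + y := by
        exact_mod_cast max_le (Nat.le_add_right _ _) (Nat.le_add_left _ _)
      have h6 := mul_le_mul_of_nonneg_left h5 (show 0 ≤ a * lam by positivity)
      have h7 := mul_le_mul_of_nonneg_left y4 (show (0 : ℝ) ≤ a by linarith)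
      rw [if_neg h4] at h1 ⊢
      linarith
  have k2 := sum_le_sum key
  rw [sum_sub_distrib, sum_ite, sum_ite, sum_const_zero, sum_const_zero, zero_add, zero_add,
    ← sdiff_eq_filter, ← sdiff_eq_filter, sum_add_distrib, sum_const, sum_const, nsmul_eq_mul,
    nsmul_eq_mul, ← mul_sum, sum_add_distrib, sum_sub_distrib, ← mul_sum, sum_sub_distrib] at k2
  have c3 : 32 * (a : ℝ) * σ ≤ ∑ U ∈ powersetCard s X \
      ((powersetCard s X \ Hv a s r X q0 q1) \ S), (q1 U : ℝ) := by exact_mod_cast c1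
  have c4 : 2 + (4 * (a : ℝ) ^ 2 + 1) * (powersetCard s X \ Fr).card ≤ (powersetCard s X \
      ((powersetCard s X \ Hv a s r X q0 q1) \ S)).card := by exact_mod_cast c2
  have c5 := mul_le_mul_of_nonneg_left c4 (show 0 ≤ 8 * a * O by positivity)
  have e' : (D : ℝ) + ∑ U ∈ powersetCard s X, (M U : ℝ) =
      ∑ U ∈ powersetCard s X, ((q0 U : ℝ) + q1 U) + σ + D' := by exact_mod_cast e
  have k3 : 2 * σ + O ≤ lam * (∑ U ∈ powersetCard s X, ((q0 U : ℝ) + q1 U) -
      ∑ U ∈ powersetCard s X, (M U : ℝ)) - ∑ U ∈ powersetCard s X, (γ U : ℝ) +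
      ∑ U ∈ powersetCard s X, (cl a (M U) : ℝ) :=
    le_of_mul_le_mul_left (a := 16 * (a : ℝ)) (by linarith) (by linarith)
  have k4 := hD.val
  have k5 := hP.cost
  have k6 := mul_le_mul_of_nonneg_right l2 (Nat.cast_nonneg (α := ℝ) σ)
  have k7 := congrArg (lam * ·) e'
  simp only [Nat.cast_sum] at k4 k7 ⊢
  linarith

end Pool.Agent.MP_d50107_co.P61
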