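import Pool.Agent.MP_d50107_co.P61.Spec

/-! The choice of the tails to fill, and the removal of pieces. -/

namespace Pool.Agent.MP_d50107_co.P61

open Finset
open scoped FinsetFamily
open Pool.Agent.MP_d50107_co.H61
open Pool.Agent.MP_d50107_co.H54 (IsInit)

namespace Rem

theorem sum3 {ι : Type} [DecidableEq ι] {Q S H : Finset ι} (hS : S ⊆ Q) (hH : H ⊆ Q)
    (g u w : ι → ℕ) :
    ∑ U ∈ Q, (g U + (if U ∈ S then u U else 0) + if U ∈ H then w U else 0) =
      ∑ U ∈ Q, g U + ∑ U ∈ S, u U + ∑ U ∈ H, w U := by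
  rw [sum_add_distrib, sum_add_distrib, sum_ite_mem, sum_ite_mem, inter_eq_right.2 hS,
    inter_eq_right.2 hH]

theorem ar1 {a G e c H j D PS PH σ A t r cD : ℕ} (ha : 0 < a)
    (h1 : a * G + (a + 1) * e + a * c ≤ a * H) (h2 : e + j + D = PS + PH + σ)
    (h3 : a * A + PS ≤ a * PS) (h4 : (8 * a + 7) * t ≤ PH) (h5 : r ≤ t) (h6 : j ≤ r)
    (h7 : (a + 1) * D ≤ a * cD) (h8 : 100 * (a * σ) ≤ PS + 2 * PH) :
    G + A + (PH + t) + 3 * σ ≤ H + cD := by
  refine Nat.le_of_mul_le_mul_left ?_ ha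
  have k1 : a * j ≤ a * t := Nat.mul_le_mul_left a (h6.trans h5)
  have k2 : a * (e + j + D) = a * (PS + PH + σ) := by rw [h2]
  have k3 : j ≤ t := h6.trans h5
  have k4 : 0 ≤ a * c := Nat.zero_le _
  have k5 : 0 ≤ a * t := Nat.zero_le _
  have k6 : 0 ≤ a * σ := Nat.zero_le _
  linarith [Nat.zero_le σ, Nat.zero_le PS, Nat.zero_le t]

theorem ar2 {a b G e c H j D PS σ A q cD : ℕ} (ha : 0 < a)
    (h1 : a * G + (a + 1) * e + a * c ≤ a * H) (h2 : e + j + D = PS + σ)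
    (h3 : a * A ≤ b * PS) (h4 : (b + 1) * j ≤ a * c + (b + 1) * q) (h5 : b + 1 ≤ a)
    (h6 : 2 * a * q ≤ PS) (h7 : (a + 1) * D ≤ a * cD) (h8 : 100 * (a * σ) ≤ PS) :
    G + A + 3 * σ ≤ H + cD := by
  refine Nat.le_of_mul_le_mul_left ?_ ha
  have k1 : (b + 1) * e ≤ (a + 1) * e := Nat.mul_le_mul_right e (by omega)
  have k2 : (b + 1) * D ≤ (a + 1) * D := Nat.mul_le_mul_right D (by omega)
  have k3 : (b + 1) * q ≤ a * q := Nat.mul_le_mul_right q h5
  have k4 : (b + 1) * (e + j + D) = (b + 1) * (PS + σ) := by rw [h2]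
  have k5 : 0 ≤ b * σ := Nat.zero_le _
  have k6 : 0 ≤ a * σ := Nat.zero_le _
  linarith [Nat.zero_le σ]

theorem ar3 {a s k N R σ P : ℕ} (ha : a ≤ k) (hs : s ≤ k) (hk : 1 ≤ k) (hN : 1000 * k ^ 6 ≤ N)
    (hR : R ≤ 16 * k ^ 4) (h : (N - s - R) * σ ≤ 4 * s * P) : 100 * (a * σ) ≤ P := by
  have k1 : k ≤ k ^ 6 := Nat.le_self_pow (by norm_num) k
  have k2 : k ^ 4 ≤ k ^ 6 := Nat.pow_le_pow_right hk (by norm_num)
  have k3 : k ^ 2 ≤ k ^ 6 := Nat.pow_le_pow_right hk (by norm_num)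
  have k4 : 400 * k ^ 2 ≤ N - s - R := by omega
  have k5 : 4 * k * (100 * (k * σ)) ≤ 4 * k * P :=
    calc 4 * k * (100 * (k * σ)) = 400 * k ^ 2 * σ := by ring
      _ ≤ (N - s - R) * σ := Nat.mul_le_mul_right σ k4
      _ ≤ 4 * s * P := h
      _ ≤ 4 * k * P := Nat.mul_le_mul_right P (by omega)
  exact (Nat.mul_le_mul_left 100 (Nat.mul_le_mul_right σ ha)).trans
    (Nat.le_of_mul_le_mul_left k5 (by omega))

theorem light {a s r : ℕ} {X U : Finset ℕ} {q0 q1 : Finset ℕ → ℕ} (hU : U ∈ powersetCard s X)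
    (h : U ∉ Hv a s r X q0 q1) (hd : 64 * (a + s + 1) * r ≤ CC a) :
    8 * (q0 U + q1 U) < CC a := by
  have h1 : q0 U + q1 U < 8 * (a + 1) * r := not_le.1 fun e => h (mem_filter.2 ⟨hU, e⟩)
  have h2 : (a + 1) * r ≤ (a + s + 1) * r := Nat.mul_le_mul_right r (by omega)
  linarith

end Rem

open Rem in
theorem selStmt (hA : NA) (hN : NC) : SelStmt := by
  intro a s r X q0 q1 ha hd h
  by_cases hH : (Hv a s r X q0 q1).Nonempty
  · exact ⟨powersetCard s X \ Hv a s r X q0 q1, ⟨Subset.rfl, by simp⟩, Or.inl hH⟩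
  have h := h.resolve_left hH
  rw [not_nonempty_iff_eq_empty] at hH
  have hW : ∀ U ∈ powersetCard s X, q1 U < WW a := fun U hU => by
    have h1 := light (q0 := q0) (q1 := q1) hU (by rw [hH]; exact notMem_empty U) hd
    have h2 := hN.c8 a (by omega)
    omega
  have hW2 : WW a ≤ 2 ^ (2 * (a + s + 1)) :=
    (Nat.choose_le_two_pow _ _).trans (Nat.pow_le_pow_right (by norm_num) (by omega))
  obtain ⟨θ, h1, h2, h3⟩ := hA.class2 (powersetCard s X) q1 (2 * (a + s + 1)) (8 * (a + s + 1) ^ 3)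
    (by omega) (fun U hU => (hW U hU).trans_le hW2) (le_of_eq_of_le (by ring) h)
  have h4 : 2 ≤ WW a := by
    obtain ⟨U, hU⟩ := card_pos.1 (lt_of_lt_of_le (by positivity) h2)
    have h5 := mem_filter.1 hU
    have h6 := hW U h5.1
    omega
  obtain ⟨x, x1, x2, x3, x4⟩ := hN.win (a - 1) (min (2 * θ) (WW a)) (by omega) (by omega)
  have x5 : x ≤ 2 * a - 2 := by
    by_contra hx
    exact absurd ((min_le_right _ _).trans (Nat.choose_le_choose (a - 1) (by omega))) x2.not_ge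
  refine ⟨(powersetCard s X).filter fun U => q1 U < 2 * θ, ⟨?_, ?_⟩,
    Or.inr ⟨x, by omega, x5, fun U hU => ?_, ?_⟩⟩
  · rw [hH, sdiff_empty]
    exact filter_subset _ _
  · refine (card_le_card fun U hU => ?_).trans (h3.trans_eq (by ring))
    have h5 := mem_sdiff.1 hU
    have h6 := (mem_sdiff.1 h5.1).1
    exact mem_filter.2 ⟨h6, not_lt.1 fun e => h5.2 (mem_filter.2 ⟨h6, e⟩)⟩
  · have h5 := mem_filter.1 hU
    exact (le_min h5.2.le (hW U h5.1).le).trans x3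
  · have h5 := card_nsmul_le_sum ((powersetCard s X).filter fun U => θ ≤ q1 U ∧ q1 U < 2 * θ) q1 θ
      fun U hU => (mem_filter.1 hU).2.1
    rw [smul_eq_mul] at h5
    have h6 : min (2 * θ) (WW a) * ((x + 1) * x) ≤ 2 * θ * (2 * a * (2 * a)) :=
      Nat.mul_le_mul (min_le_left _ _) (Nat.mul_le_mul (by omega) (by omega))
    calc 2 * a * (x + 1).choose (a - 1) = a * (2 * (x + 1).choose (a - 1)) := by ring
      _ ≤ a * (2 * θ * (2 * a * (2 * a))) := Nat.mul_le_mul_left a (x4.trans h6)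
      _ = 8 * a ^ 3 * θ := by ring
      _ ≤ 8 * (a + s + 1) ^ 3 * θ :=
        Nat.mul_le_mul_right θ (Nat.mul_le_mul_left 8 (Nat.pow_le_pow_left (by omega) 3))
      _ ≤ _ := (Nat.mul_le_mul_right θ h2).trans (h5.trans (sum_le_sum_of_subset fun U hU =>
        mem_filter.2 ⟨(mem_filter.1 hU).1, (mem_filter.1 hU).2.2⟩))

open Rem in
theorem remStmt (hA : NA) (hN : NC) : RemStmt := by
  intro a s X Fr S h q0 q1 γ r r0 μ σ D cD v d hM hF hD
  have ha := d.a4
  have hd := d.dense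
  obtain ⟨H, hH⟩ : ∃ H, H = Hv a s r X q0 q1 := ⟨_, rfl⟩
  have hHQ : H ⊆ powersetCard s X := by rw [hH]; exact filter_subset _ _
  have hHr : ∀ U ∈ H, 8 * (a + 1) * r ≤ q0 U + q1 U := fun U hU => by
    rw [hH] at hU
    exact (mem_filter.1 hU).2
  have hlt : ∀ U ∈ powersetCard s X, U ∉ H → 8 * (q0 U + q1 U) < CC a := fun U hU hU' =>
    light hU (hH ▸ hU') hd
  rw [Most, ← hH] at hM
  rw [Fine, ← hH] at hF
  rw [Fill, ← hH] at hD
  obtain ⟨hS, hR⟩ := hM
  have hSQ : S ⊆ powersetCard s X := hS.trans sdiff_subset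
  have hSH : ∀ U ∈ S, U ∉ H := fun U hU => (mem_sdiff.1 (hS hU)).2
  have hr1 : ∀ U ∈ H, (8 * a + 7) * r + r ≤ q0 U + q1 U := fun U hU =>
    le_of_eq_of_le (by ring) (hHr U hU)
  have hr64 : 64 * r ≤ CC a := (Nat.mul_le_mul_right r (by omega)).trans hd
  obtain ⟨M, hM⟩ : ∃ M : Finset ℕ → ℕ,
      ∀ U, M U = if U ∈ H then r else if U ∈ S then q0 U else q0 U + q1 U := ⟨_, fun _ => rfl⟩
  have e1 : ∑ U ∈ powersetCard s X, (q0 U + q1 U) = ∑ U ∈ powersetCard s X, M U + ∑ U ∈ S, q1 U +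
      ∑ U ∈ H, (q0 U + q1 U - r) := by
    rw [← sum3 hSQ hHQ]
    refine sum_congr rfl fun U _ => ?_
    rw [hM]
    by_cases h1 : U ∈ H
    · have h2 := hr1 U h1
      rw [if_pos h1, if_pos h1, if_neg fun e => hSH U e h1]
      omega
    · rw [if_neg h1, if_neg h1]
      split_ifs <;> rfl
  have e2 : ∑ U ∈ powersetCard s X, γ U ≤ ∑ U ∈ powersetCard s X, cl a (M U) +
      ∑ U ∈ S, cl (a - 1) (q1 U) + ∑ U ∈ H, (q0 U + q1 U) := by
    rw [← sum3 hSQ hHQ]
    refine sum_le_sum fun U hU => ?_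
    rw [hM]
    by_cases h1 : U ∈ H
    · rw [if_pos h1, if_pos h1]
      exact (d.g0 U hU).trans (Nat.le_add_left _ _)
    · rw [if_neg h1, if_neg h1]
      split_ifs
      · exact (d.g2 U hU).trans_eq (add_comm _ _)
      · exact d.g1 U hU
  have e3 : ∑ U ∈ H, (q0 U + q1 U) = ∑ U ∈ H, (q0 U + q1 U - r) + H.card * r := by
    rw [← smul_eq_mul, ← sum_const, ← sum_add_distrib]
    refine sum_congr rfl fun U hU => ?_
    have h2 := hr1 U hU
    omega
  have e4 : (8 * a + 7) * (H.card * r) ≤ ∑ U ∈ H, (q0 U + q1 U - r) := by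
    have h2 := card_nsmul_le_sum H (fun U => q0 U + q1 U - r) ((8 * a + 7) * r)
      fun U hU => Nat.le_sub_of_add_le (hr1 U hU)
    rw [smul_eq_mul] at h2
    exact le_of_eq_of_le (by ring) h2
  have e5 : ∑ U ∈ powersetCard s X \ ((powersetCard s X \ H) \ S), q1 U ≤
      ∑ U ∈ S, q1 U + ∑ U ∈ H, (q0 U + q1 U) := by
    have h1 : powersetCard s X \ ((powersetCard s X \ H) \ S) ⊆ S ∪ H := fun U hU => by
      simp only [mem_sdiff, mem_union] at hU ⊢
      tauto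
    have h2 := sum_union_inter (s₁ := S) (s₂ := H) (f := q1)
    have h3 : ∑ U ∈ H, q1 U ≤ ∑ U ∈ H, (q0 U + q1 U) := sum_le_sum fun U _ => Nat.le_add_left _ _
    have h4 := sum_le_sum_of_subset (f := q1) h1
    omega
  have e6 := (ar3 (a := a) (by omega) (by omega) (by omega) d.big hR
    (d.sig _ (sdiff_subset.trans sdiff_subset))).trans e5
  obtain ⟨Δ, hΔ⟩ := Nat.exists_eq_add_of_le hD
  have e7 := d.size
  rw [e1] at e7
  obtain ⟨g, j, g1, g2, g3, g4, g5⟩ := hA.remove (powersetCard (s + 1) X) h a r Δ (by omega)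
    (by have := hN.c16 a (by omega); omega) (fun T hT => (d.hr T hT).trans d.r2) (by omega)
  have key : ∑ T ∈ powersetCard (s + 1) X, kk a (g T) + ∑ U ∈ S, cl (a - 1) (q1 U) +
      ∑ U ∈ H, (q0 U + q1 U) + 3 * σ ≤ ∑ T ∈ powersetCard (s + 1) X, kk a (h T) + cD := by
    have ea : a - 1 + 1 = a := by omega
    by_cases hne : H.Nonempty
    · rw [e3] at e6 ⊢
      have k1 : H.card * r ≤ (8 * a + 7) * (H.card * r) := Nat.le_mul_of_pos_left _ (by omega)
      refine ar1 (PS := ∑ U ∈ S, q1 U) (j := j) (D := D) (r := r) (by omega) g5 (by omega) ?_ e4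
        (Nat.le_mul_of_pos_left r (card_pos.2 hne)) g3 d.cost (by omega)
      rw [mul_sum, mul_sum, ← sum_add_distrib]
      refine sum_le_sum fun U hU => ?_
      have k2 := hlt U (hSQ hU) (hSH U hU)
      have k3 := hN.c8 a (by omega)
      have k4 := hKN.clym (a - 1) (2 * a - 2) (q1 U) (show q1 U ≤ WW a by omega)
      rw [ea, show 2 * a - 2 - (a - 1) = a - 1 by omega] at k4
      calc a * cl (a - 1) (q1 U) + q1 U ≤ (a - 1) * q1 U + q1 U := Nat.add_le_add_right k4 _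
        _ = a * q1 U := by rw [← Nat.succ_mul, Nat.succ_eq_add_one, ea]
    · obtain ⟨x, x1, x2, x3, x4⟩ := hF.resolve_left hne
      rw [not_nonempty_iff_eq_empty] at hne
      subst hne
      rw [sum_empty, add_zero] at e6 hΔ ⊢
      have k1 := hN.block (a - 1) (x + 1) j (by omega)
      rw [ea, show x + 1 - (a - 1) = x - (a - 1) + 1 by omega] at k1
      refine ar2 (PS := ∑ U ∈ S, q1 U) (D := D) (by omega) g5 (by omega) ?_ k1 (by omega) x4 d.cost
        e6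
      rw [mul_sum, mul_sum]
      refine sum_le_sum fun U hU => ?_
      have k4 := hKN.clym (a - 1) x (q1 U) (x3 U hU)
      rwa [ea] at k4
  refine ⟨g, M, fun U hU => ?_, fun T hT U hU hTU => (g1 T hT).trans ?_, by omega,
    le_trans ?_ d.val⟩
  · have k1 := hN.c4 a (by omega)
    rw [hM]
    by_cases h1 : U ∈ H
    · rw [if_pos h1]
      omega
    · have k2 := hlt U hU h1
      rw [if_neg h1]
      split_ifs <;> omega
  · have k1 := d.hx T hT U hU hTU
    have k2 := (d.hr T hT).trans d.r2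
    rw [hM]
    split_ifs <;> omega
  · have k1 : ∑ T ∈ powersetCard (s + 1) X, kk a (g T) + ∑ U ∈ powersetCard s X, γ U + 3 * σ ≤
        ∑ T ∈ powersetCard (s + 1) X, kk a (h T) + cD + ∑ U ∈ powersetCard s X, cl a (M U) := by
      omega
    have k2 := (Nat.cast_le (α := ℝ)).2 k1
    rw [Nat.cast_add, Nat.cast_add, Nat.cast_add, Nat.cast_add, Nat.cast_mul, Nat.cast_ofNat] at k2
    linarith

end Pool.Agent.MP_d50107_co.P61
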