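import Pool.Agent.MP_d50107_co.P61.Spec

/-! The ratio of the low fibres, the scale of the missing part and the budgets of a family. -/

namespace Pool.Agent.MP_d50107_co.P61

open Finset
open scoped FinsetFamily
open Pool.Agent.MP_d50107_co.H54 (IsInit)
open Pool.Agent.MP_d50107_co.H61

namespace Scale

theorem out_T0 (a s : ℕ) : Out (3 * (a + s + 1)) (T0 a s) := Seg.out_Ico (subset_refl _)

theorem card_T0 (a s : ℕ) : (T0 a s).card = s := by simp [T0]

theorem cc_split (a : ℕ) : CC a = (2 * a).choose a + (2 * a).choose (a + 1) :=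
  Nat.choose_succ_succ' (2 * a) a

theorem mem_upp {p n s : ℕ} {P : Finset ℕ} (h : P ∈ upp (Ico p n) s) : Out p P ∧ s ≤ P.card := by
  rw [upp, mem_filter, mem_powerset] at h
  exact ⟨Seg.out_Ico h.1, h.2⟩

theorem mem_pc {p n s : ℕ} {P : Finset ℕ} (h : P ∈ powersetCard s (Ico p n)) :
    Out p P ∧ P.card = s := by
  rw [mem_powersetCard] at h
  exact ⟨Seg.out_Ico h.1, h.2⟩

section

variable {a s : ℕ} {F : Finset (Finset ℕ)} {U : Finset ℕ} (hF : Good (a + s) F)
  (hU : Out (3 * (a + s + 1)) U) (hUs : U.card = s)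
include hF hU hUs

theorem sub_Z : fib (2 * a + 1) F U ⊆ powersetCard (a + 1) (range (2 * a + 1)) :=
  fib_subset hF.1 (hU.mono (by omega)) (by omega)

theorem sub_Z0 : fib (2 * a) F U ⊆ powersetCard (a + 1) (range (2 * a)) :=
  fib_subset hF.1 (hU.mono (by omega)) (by omega)

theorem sub_Z1 : fib (2 * a) F (insert (2 * a) U) ⊆ powersetCard a (range (2 * a)) := by
  have h : 2 * a ∉ U := fun h => by
    have := hU _ h
    omega
  refine fib_subset hF.1 ((hU.mono (by omega)).insert le_rfl) ?_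
  rw [card_insert_of_notMem h]
  omega

theorem gm_le : gm a F U + (∂ (fib (2 * a) F U)).card +
    (∂ (fib (2 * a) F (insert (2 * a) U))).card ≤ CC a := by
  have h1 := shadow_fib_split (2 * a) F U
  have h2 := card_le_card
    (Seg.shadow_fib_subset (X := F) (show Out (2 * a + 1) U from hU.mono (by omega)))
  have h3 := (card_le_choose (KNx.shadow_sub (sub_Z hF hU hUs))).trans (Seg.choose_le_CC a a)
  unfold gm
  omega

theorem z1_le (ha : 1 ≤ a) : (2 * a).choose (a + 1) ≤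
    (∂ (fib (2 * a) F (insert (2 * a) U))).card + cl a (p0 a F U) := by
  have h1 := card_le_choose (sub_Z1 hF hU hUs)
  have h2 := hKN.thm a _ (card_eq_of_subset (sub_Z1 hF hU hUs))
  have h3 := hKN.dual a a (p0 a F U) ha (by
    rw [← two_mul]
    exact Nat.sub_le _ _)
  rw [← two_mul] at h3
  have h4 : (2 * a).choose a - p0 a F U = (fib (2 * a) F (insert (2 * a) U)).card := by
    unfold p0
    omega
  rw [h4] at h3
  omega

variable (hB : BP) (hS : SD) {P : Finset ℕ} {lam c : ℝ} (ha : 3 ≤ a) (hP : Out (2 * a) P)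
  (hPs : s + 2 ≤ P.card) (hne : (fib (2 * a) F P).Nonempty)
  (hl : ((∂ (fib (2 * a) F P)).card : ℝ) ≤ lam * (fib (2 * a) F P).card) (c0 : 0 ≤ c) (c1 : c ≤ 1)
  (l1 : 1 ≤ lam) (hst : Stop lam lam c (a - 1))
include hB hS ha hP hPs hne hl c0 c1 l1 hst

theorem bud1 (hw : p1 a F U ≤ WW a) : c * catalan (a - 1) + (2 * a).choose a ≤
    ((∂ (fib (2 * a) F U)).card : ℝ) + lam * p1 a F U := by
  have h1 := card_le_choose (sub_Z0 hF hU hUs)
  have h2 := hB.one a _ lam c ha (sub_Z hF hU hUs) (hF.2.2.fib (hU.mono (by omega))) c0 c1 l1 hst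
    (hS.seed a s F P U lam (by omega) hF hP hPs hne hl hU) (by
      rw [(hS.inner a F U).1]
      unfold p1 at hw
      omega)
  rw [(hS.inner a F U).1] at h2
  have h3 : (p1 a F U : ℝ) = (2 * a).choose (a + 1) - (fib (2 * a) F U).card := by
    unfold p1
    rw [Nat.cast_sub h1]
  rw [h3]
  linarith

theorem bud2 (hw : p0 a F U ≤ NN a) :
    c * ((catalan a : ℝ) + catalan (a - 1)) + (2 * a).choose (a + 1) ≤
      ((∂ (fib (2 * a) F (insert (2 * a) U))).card : ℝ) + lam * p0 a F U := by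
  have h1 := card_le_choose (sub_Z1 hF hU hUs)
  have h0 := ct.two a (by omega)
  have h2 := hB.two a _ lam c ha (sub_Z hF hU hUs) (hF.2.2.fib (hU.mono (by omega))) c0 c1 l1 hst
    (hS.seed a s F P U lam (by omega) hF hP hPs hne hl hU) (by
      rw [(hS.inner a F U).2]
      unfold p0 at hw
      omega)
  rw [(hS.inner a F U).2] at h2
  have h3 : (p0 a F U : ℝ) = (2 * a).choose a - (fib (2 * a) F (insert (2 * a) U)).card := by
    unfold p0
    rw [Nat.cast_sub h1]
  rw [h3]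
  linarith

theorem bud0 (hw : p1 a F U ≤ WW a) : c * catalan (a - 1) ≤ lam * p1 a F U := by
  have h1 := bud1 hF hU hUs hB hS ha hP hPs hne hl c0 c1 l1 hst hw
  have h2 : ((∂ (fib (2 * a) F U)).card : ℝ) ≤ (2 * a).choose a := by
    exact_mod_cast card_le_choose (KNx.shadow_sub (sub_Z0 hF hU hUs))
  linarith

end

section

variable {n a s e : ℕ} {F 𝒯 : Finset (Finset ℕ)} (hX : Ctx n a s e F 𝒯)
include hX

theorem small (hN : NC) : 8 * ms a F (T0 a s) ≤ catalan (a - 1) ∧ ms a F (T0 a s) ≤ WW a ∧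
    ms a F (T0 a s) ≤ (2 * a - 2).choose a ∧ ms a F (T0 a s) ≤ NN a := by
  have a4 := hX.a4
  have h1 := hX.r2
  have h2 := hN.c4 a (by omega)
  have h3 := hN.c8 a (by omega)
  have h4 := hN.c16 a (by omega)
  have h5 := ct.wc a (by omega)
  have h6 : 64 * a * ms a F (T0 a s) ≤ 64 * (a + s + 1) * ms a F (T0 a s) :=
    Nat.mul_le_mul_right _ (by omega)
  have h7 : 64 * ms a F (T0 a s) ≤ 64 * (a + s + 1) * ms a F (T0 a s) :=
    Nat.mul_le_mul_right _ (by omega)
  refine ⟨Nat.le_of_mul_le_mul_left (c := 8 * a) ?_ (by omega), by omega, by omega, by omega⟩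
  calc 8 * a * (8 * ms a F (T0 a s)) = 64 * a * ms a F (T0 a s) := by ring
    _ ≤ 8 * WW a := by omega
    _ = 8 * a * catalan (a - 1) := by rw [h5]; ring

theorem add_T0 (hS : SD) : p0 a F (T0 a s) + p1 a F (T0 a s) = ms a F (T0 a s) :=
  hS.add a s F _ hX.good ((out_T0 a s).mono (by omega)) (card_T0 a s)

theorem budT (hN : NC) (hB : BP) (hS : SD) {P : Finset ℕ} {lam c : ℝ} (hP : Out (2 * a) P)
    (hPs : s + 2 ≤ P.card) (hne : (fib (2 * a) F P).Nonempty)
    (hl : ((∂ (fib (2 * a) F P)).card : ℝ) ≤ lam * (fib (2 * a) F P).card) (c0 : 0 ≤ c)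
    (c1 : c ≤ 1) (l1 : 1 ≤ lam) (hst : Stop lam lam c (a - 1)) :
    c * catalan (a - 1) ≤ lam * ms a F (T0 a s) := by
  have a4 := hX.a4
  have h1 := add_T0 hX hS
  have h2 := (small hX hN).2.1
  have h3 := bud0 hX.good (out_T0 a s) (card_T0 a s) hB hS (by omega) hP hPs hne hl c0 c1 l1 hst
    (by omega)
  have h4 : (p1 a F (T0 a s) : ℝ) ≤ ms a F (T0 a s) := by exact_mod_cast (by omega)
  exact h3.trans (mul_le_mul_of_nonneg_left h4 (by linarith))

theorem part1 (hN : NC) (hB : BP) (hS : SD) {P : Finset ℕ} (hP : Out (2 * a) P)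
    (hPs : s + 2 ≤ P.card) :
    (a - 1) * (fib (2 * a) F P).card ≤ (a - 2) * (∂ (fib (2 * a) F P)).card := by
  by_contra hc
  have a4 := hX.a4
  obtain ⟨hne, lam, hl1, hl2⟩ := CaseAM.ratio_of (not_le.1 hc)
  rw [Nat.cast_sub (by omega), Nat.cast_sub (by omega)] at hl2
  push_cast at hl2
  have ha : (4 : ℝ) ≤ a := by exact_mod_cast a4
  have h1 : (1 : ℝ) ≤ max 1 lam := le_max_left _ _
  have h2 : (max 1 lam - 1) * ((a : ℝ) - 2) < 1 := by
    rcases le_total 1 lam with h | h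
    · rw [max_eq_right h]
      linarith
    · rw [max_eq_left h]
      linarith
  have h3 := (st hKN ct).two (a - 1) _ (CaseAM.noStop_of (by omega) h2)
  have h4 : Stop (max 1 lam) (max 1 lam) (4 / 5) (a - 1) := fun i g m b1 b2 b3 b4 b5 b6 => by
    have := h3 i g m b1 b2 b3 b4 b5 b6
    have := mul_le_mul_of_nonneg_right h1 (Nat.cast_nonneg (α := ℝ) m)
    linarith
  have h5 := budT hX hN hB hS hP hPs hne
    (hl1.trans (mul_le_mul_of_nonneg_right (le_max_right 1 lam) (Nat.cast_nonneg _)))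
    (by norm_num) (by norm_num) h1 h4
  have h6 : 8 * (ms a F (T0 a s) : ℝ) ≤ catalan (a - 1) := by exact_mod_cast (small hX hN).1
  have h7 : (1 : ℝ) ≤ ms a F (T0 a s) := by exact_mod_cast hX.r1
  have h8 : max 1 lam ≤ 3 / 2 := by nlinarith
  have h9 := mul_le_mul_of_nonneg_right h8 (Nat.cast_nonneg (α := ℝ) (ms a F (T0 a s)))
  linarith

/-- the ratio of a nonempty low fibre -/
theorem ratio {P : Finset ℕ} (hP : Out (2 * a) P) (hPs : s + 2 ≤ P.card)
    (hne : (fib (2 * a) F P).Nonempty)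
    (h1 : (a - 1) * (fib (2 * a) F P).card ≤ (a - 2) * (∂ (fib (2 * a) F P)).card) {lam : ℝ}
    (hl : lam = ((∂ (fib (2 * a) F P)).card : ℝ) / (fib (2 * a) F P).card) :
    (a : ℝ) - 1 ≤ lam * ((a : ℝ) - 2) ∧ lam ≤ (a : ℝ) - 1 ∧ 1 ≤ lam ∧
      ((∂ (fib (2 * a) F P)).card : ℝ) = lam * (fib (2 * a) F P).card := by
  have a4 := hX.a4
  have ha : (4 : ℝ) ≤ a := by exact_mod_cast a4
  have hp : (0 : ℝ) < (fib (2 * a) F P).card := by exact_mod_cast hne.card_pos
  have c1 : ((a - 1 : ℕ) : ℝ) = a - 1 := by rw [Nat.cast_sub (by omega), Nat.cast_one]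
  have c2 : ((a - 2 : ℕ) : ℝ) = a - 2 := by rw [Nat.cast_sub (by omega), Nat.cast_two]
  have e1 : (a : ℝ) - 1 ≤ lam * ((a : ℝ) - 2) := by
    rw [hl, div_mul_eq_mul_div, le_div_iff₀ hp, ← c1, ← c2, mul_comm _ ((a - 2 : ℕ) : ℝ)]
    exact_mod_cast h1
  refine ⟨e1, ?_, ?_, by rw [hl, div_mul_cancel₀ _ hp.ne']⟩
  · obtain ⟨g, hg⟩ := hne
    have h2 := card_of_mem_fib hX.good.1 hP hg
    have h3 := hLY.ratio g.card (fib (2 * a) F P) fun Y hY => by
      have := card_of_mem_fib hX.good.1 hP hY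
      omega
    rw [hl, div_le_iff₀ hp, ← c1]
    exact_mod_cast h3.trans (Nat.mul_le_mul_right _ (by omega))
  · by_contra hc
    nlinarith [not_le.1 hc]

/-- a fibre one level down is small -/
theorem row (hS : SD) {T : Finset ℕ} (hT : T ∈ powersetCard (s + 1) (Ico (2 * a + 1) n)) :
    (fib (2 * a) F T).card ≤ ms a F (T0 a s) ∧
      ∀ t, 1 ≤ t → (fib (2 * a) F T).card ≤ (a + t - 1).choose a →
        a * (fib (2 * a) F T).card ≤ t * (∂ (fib (2 * a) F T)).card := by
  obtain ⟨t1, t2⟩ := mem_pc hT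
  have h1 := hS.hr a s F T hX.good t1 t2
  have h2 := add_T0 hX hS
  refine ⟨by unfold hh at h1; omega, fun t ht hm => ?_⟩
  have h3 := hKN.lym a (a + t - 1) _ (by omega) hm
  rw [show a + t - 1 - a + 1 = t by omega] at h3
  have h4 := hKN.thm a _ (card_eq_of_subset
    (fib_subset (l := a) hX.good.1 (show Out (2 * a) T from t1.mono (by omega)) (by omega)))
  exact h3.trans (Nat.mul_le_mul_left _ h4)

/-- a low fibre of small ratio forces many missing sets -/
theorem deleted (hN : NC) (hB : BP) (hS : SD) {P : Finset ℕ} (hP : Out (2 * a) P)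
    (hPs : s + 2 ≤ P.card) {t : ℕ}
    (h : (t + 2) * (∂ (fib (2 * a) F P)).card < a * (fib (2 * a) F P).card) :
    (a + t).choose a ≤ (t + 1) * ms a F (T0 a s) := by
  have a4 := hX.a4
  have hne := (CaseAM.ratio_of h).1
  have hp : (0 : ℝ) < (fib (2 * a) F P).card := by exact_mod_cast hne.card_pos
  obtain ⟨lam, hl⟩ : ∃ lam : ℝ,
      lam = ((∂ (fib (2 * a) F P)).card : ℝ) / (fib (2 * a) F P).card := ⟨_, rfl⟩
  obtain ⟨e1, e2, e3, e4⟩ := ratio hX hP hPs hne (part1 hX hN hB hS hP hPs) hl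
  obtain ⟨c, O, B, c0, c1, hst, hO, -, hc, -⟩ := hNum a lam (by omega) e1 e2
  have h1 := budT hX hN hB hS hP hPs hne e4.le c0 c1 e3 hst
  have h2 : ((t : ℝ) + 2) * lam < a := by
    have h' : ((t : ℝ) + 2) * (∂ (fib (2 * a) F P)).card < a * (fib (2 * a) F P).card := by
      exact_mod_cast h
    rw [e4, ← mul_assoc] at h'
    exact lt_of_mul_lt_mul_right h' hp.le
  have h3 := hO ((a + t).choose a)
  have h4 : (t + 1) * kk a ((a + t).choose a) = a * (a + t).choose a := by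
    obtain ⟨b, rfl⟩ : ∃ b, a = b + 1 := ⟨a - 1, by omega⟩
    have := Nat.choose_succ_right_eq (b + 1 + t) b
    rw [show b + 1 + t - b = t + 1 by omega] at this
    rw [kk_choose (by omega), mul_comm, ← this, mul_comm]
  have h5 : ((t : ℝ) + 1) * kk a ((a + t).choose a) = a * (a + t).choose a := by
    exact_mod_cast h4
  have h6 : (0 : ℝ) ≤ (a + t).choose a := Nat.cast_nonneg _
  have h7 : (0 : ℝ) ≤ t := Nat.cast_nonneg _
  have h8 : lam * (a + t).choose a ≤ lam * (((t : ℝ) + 1) * ms a F (T0 a s)) := by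
    have b1 := mul_le_mul_of_nonneg_left ((h3.trans hc).trans h1) (show 0 ≤ (t : ℝ) + 1 by linarith)
    have b2 := mul_le_mul_of_nonneg_right h2.le h6
    linarith
  exact_mod_cast le_of_mul_le_mul_left h8 (by linarith)

end

end Scale

open Scale

theorem scaleStmt (hC : CN) (hN : NC) (hB : BP) (hS : SD) : ScaleStmt := by
  classical
  intro n a s e F 𝒯 hX
  have a4 := hX.a4
  have p1' : ∀ P ∈ upp (Ico (2 * a) n) (s + 2),
      (a - 1) * (fib (2 * a) F P).card ≤ (a - 2) * (∂ (fib (2 * a) F P)).card :=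
    fun P hP => part1 hX hN hB hS (mem_upp hP).1 (mem_upp hP).2
  refine ⟨p1', ?_⟩
  have top : 1 ≤ a - 1 ∧ (∀ T ∈ powersetCard (s + 1) (Ico (2 * a + 1) n),
      a * (fib (2 * a) F T).card ≤ (a - 1) * (∂ (fib (2 * a) F T)).card) ∧
      ∀ T ∈ upp (Ico (2 * a) n) (s + 2),
        a * (fib (2 * a) F T).card ≤ (a - 1) * (∂ (fib (2 * a) F T)).card := by
    refine ⟨by omega, fun T hT => (row hX hS hT).2 _ (by omega) ?_, fun T hT => ?_⟩
    · rw [show a + (a - 1) - 1 = 2 * a - 2 by omega]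
      exact (row hX hS hT).1.trans (small hX hN).2.2.1
    · have h1 := p1' T hT
      obtain ⟨b, rfl⟩ : ∃ b, a = b + 2 := ⟨a - 2, by omega⟩
      rw [show b + 2 - 1 = b + 1 by omega] at h1 ⊢
      rw [show b + 2 - 2 = b by omega] at h1
      have h2 : (fib (2 * (b + 2)) F T).card ≤ (∂ (fib (2 * (b + 2)) F T)).card := by
        by_contra hc
        have := Nat.mul_le_mul_left b (not_le.1 hc).le
        linarith [not_le.1 hc]
      linarith
  have hex : ∃ t, 1 ≤ t ∧ (∀ T ∈ powersetCard (s + 1) (Ico (2 * a + 1) n),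
      a * (fib (2 * a) F T).card ≤ t * (∂ (fib (2 * a) F T)).card) ∧
      ∀ T ∈ upp (Ico (2 * a) n) (s + 2),
        a * (fib (2 * a) F T).card ≤ t * (∂ (fib (2 * a) F T)).card := ⟨_, top⟩
  obtain ⟨t1, t2, t3⟩ := Nat.find_spec hex
  have t4 := Nat.find_min' hex top
  refine ⟨Nat.find hex, t1, by omega, ?_, fun h3 => ?_⟩
  · have hn : 2 * a < n := by
      have h1 := hX.big
      have h2 : a + s + 1 ≤ (a + s + 1) ^ 20 := Nat.le_self_pow (by norm_num) _
      omega
    obtain ⟨s1, s2⟩ := hC.split (2 * a) n (s + 1) F hn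
    unfold dd cd
    rw [s1]
    refine le_trans ?_ (Nat.mul_le_mul_left _ s2)
    rw [mul_add, mul_add, mul_sum, mul_sum, mul_sum, mul_sum]
    exact add_le_add (sum_le_sum t2) (sum_le_sum t3)
  · obtain ⟨t, ht⟩ : ∃ t, Nat.find hex = t + 3 := ⟨Nat.find hex - 3, by omega⟩
    have h1 := Nat.find_min hex (show t + 2 < Nat.find hex by omega)
    rw [ht, show a + (t + 3) - 3 = a + t by omega, show t + 3 - 2 = t + 1 by omega]
    by_contra hc
    refine h1 ⟨by omega, fun T hT => (row hX hS hT).2 _ (by omega) ?_, fun T hT => ?_⟩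
    · have h2 := (row hX hS hT).1
      have h4 := Nat.choose_le_choose a (show a + t ≤ a + (t + 2) - 1 by omega)
      have h5 : ms a F (T0 a s) ≤ (t + 1) * ms a F (T0 a s) := Nat.le_mul_of_pos_left _ (by omega)
      omega
    · exact not_lt.1 fun h => hc (deleted hX hN hB hS (mem_upp hT).1 (mem_upp hT).2 h)

theorem deepStmt (hN : NC) (hB : BP) (hS : SD) (hL : ScaleStmt) : DeepStmt := by
  classical
  intro n a s e F 𝒯 hX hd
  have a4 := hX.a4
  have hF := hX.good
  have hne : ((upp (Ico (2 * a) n) (s + 2)).filter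
      fun P => (fib (2 * a) F P).Nonempty).Nonempty := by
    by_contra hc
    rw [not_nonempty_iff_eq_empty, filter_eq_empty_iff] at hc
    have : dl n a s F = 0 :=
      sum_eq_zero fun P hP => card_eq_zero.2 (not_nonempty_iff_eq_empty.1 (hc hP))
    omega
  obtain ⟨P, hP, hmin⟩ := exists_min_image _
    (fun P => ((∂ (fib (2 * a) F P)).card : ℝ) / (fib (2 * a) F P).card) hne
  rw [mem_filter] at hP
  obtain ⟨hP, hPn⟩ := hP
  obtain ⟨t1, t2⟩ := mem_upp hP
  obtain ⟨lam, hl⟩ : ∃ lam : ℝ,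
      lam = ((∂ (fib (2 * a) F P)).card : ℝ) / (fib (2 * a) F P).card := ⟨_, rfl⟩
  obtain ⟨e1, e2, e3, e4⟩ := ratio hX t1 t2 hPn ((hL n a s e F 𝒯 hX).1 P hP) hl
  obtain ⟨c, O, B, c0, c1, hst, hO, hcand, hc, hc2⟩ := hNum a lam (by omega) e1 e2
  have cc : (CC a : ℝ) = (2 * a).choose a + (2 * a).choose (a + 1) := by
    exact_mod_cast cc_split a
  have bB : ∀ U : Finset ℕ, Out (3 * (a + s + 1)) U → U.card = s → p1 a F U ≤ WW a →
      p0 a F U ≤ NN a → (gm a F U : ℝ) ≤ lam * (p0 a F U + p1 a F U) - (B + O) := by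
    intro U u1 u2 w1 w0
    have b1 := bud1 hF u1 u2 hB hS (by omega) t1 t2 hPn e4.le c0 c1 e3 hst w1
    have b2 := bud2 hF u1 u2 hB hS (by omega) t1 t2 hPn e4.le c0 c1 e3 hst w0
    have b3 : (gm a F U : ℝ) + (∂ (fib (2 * a) F U)).card +
        (∂ (fib (2 * a) F (insert (2 * a) U))).card ≤ CC a := by exact_mod_cast gm_le hF u1 u2
    linarith
  refine ⟨lam, O, B, e1, e2, ?_, hO, hcand, fun U hU => ?_, fun U hU w1 => ?_,
    fun U hU => bB U (mem_pc hU).1 (mem_pc hU).2,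
    hc.trans (budT hX hN hB hS t1 t2 hPn e4.le c0 c1 e3 hst), ?_⟩
  · unfold dl cdl
    push_cast
    rw [mul_sum]
    refine sum_le_sum fun Q hQ => ?_
    rcases (fib (2 * a) F Q).eq_empty_or_nonempty with h | h
    · simp [h]
    · have hq : (0 : ℝ) < (fib (2 * a) F Q).card := by exact_mod_cast h.card_pos
      rw [hl]
      exact (le_div_iff₀ hq).1 (hmin Q (mem_filter.2 ⟨hQ, h⟩))
  · exact hS.pos a s F P U (by omega) hF t1 t2 hPn (mem_pc hU).1 (mem_pc hU).2
  · obtain ⟨u1, u2⟩ := mem_pc hU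
    have b1 := bud1 hF u1 u2 hB hS (by omega) t1 t2 hPn e4.le c0 c1 e3 hst w1
    have b2 : ((2 * a).choose (a + 1) : ℝ) ≤
        (∂ (fib (2 * a) F (insert (2 * a) U))).card + cl a (p0 a F U) := by
      exact_mod_cast z1_le hF u1 u2 (by omega)
    have b3 : (gm a F U : ℝ) + (∂ (fib (2 * a) F U)).card +
        (∂ (fib (2 * a) F (insert (2 * a) U))).card ≤ CC a := by exact_mod_cast gm_le hF u1 u2
    linarith
  · have h1 := add_T0 hX hS
    obtain ⟨-, h2, -, h3⟩ := small hX hN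
    have b1 := bB _ (out_T0 a s) (card_T0 a s) (by omega) (by omega)
    have b2 : (p0 a F (T0 a s) : ℝ) + p1 a F (T0 a s) = ms a F (T0 a s) := by exact_mod_cast h1
    have b3 : (0 : ℝ) ≤ gm a F (T0 a s) := Nat.cast_nonneg _
    rw [b2] at b1
    linarith

end Pool.Agent.MP_d50107_co.P61
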