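import Pool.Agent.MP_d50107_co.P61.Spec

/-! The shadow of the dense tails, and the case of many low members. -/

namespace Pool.Agent.MP_d50107_co.P61

open Finset
open scoped FinsetFamily
open Pool.Agent.MP_d50107_co.H54 (IsInit)
open Pool.Agent.MP_d50107_co.H61

namespace Shad

theorem shadow_range {n : ℕ} {F : Finset (Finset ℕ)} (h : ∀ A ∈ F, A ⊆ range n) :
    ∀ A ∈ ∂ F, A ⊆ range n := by
  intro A hA
  obtain ⟨B, hB, x, -, rfl⟩ := mem_shadow_iff.1 hA
  exact (erase_subset x B).trans (h B hB)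

theorem mem_low {X T : Finset ℕ} {s : ℕ} : T ∈ low X s ↔ T ⊆ X ∧ T.card < s := by
  rw [low, mem_filter, mem_powerset]

theorem mem_upp {X T : Finset ℕ} {s : ℕ} : T ∈ upp X s ↔ T ⊆ X ∧ s ≤ T.card := by
  rw [upp, mem_filter, mem_powerset]

/-- over a short tail the shadow has the larger fibre -/
theorem fib_le {a s : ℕ} {F : Finset (Finset ℕ)} (hF : ∀ A ∈ F, A.card = a + s + 1)
    {T : Finset ℕ} (hT : Out (2 * a + 1) T) (hc : T.card < s + 1) :
    (fib (2 * a + 1) F T).card ≤ (fib (2 * a + 1) (∂ F) T).card := by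
  obtain ⟨l, hl⟩ : ∃ l, l + T.card = a + s + 1 := ⟨a + s + 1 - T.card, by omega⟩
  have h1 := hLY.down _ _ _ (fib_subset hF hT hl)
  have h2 := card_le_card (Seg.shadow_fib_subset (X := F) hT)
  have h3 : (2 * a + 1 - l + 1) * (∂ (fib (2 * a + 1) F T)).card ≤
      l * (fib (2 * a + 1) (∂ F) T).card := Nat.mul_le_mul (by omega) h2
  exact Nat.le_of_mul_le_mul_left (h1.trans h3) (by omega)

/-- the gain over a tail in the shadow of the dense tails -/
theorem gain (hD : DM) {n a s e : ℕ} {F 𝒯 : Finset (Finset ℕ)} (h : Ctx n a s e F 𝒯)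
    {T : Finset ℕ} (hT : T ∈ ∂ 𝒯) :
    T ∈ low (Ico (2 * a + 1) n) (s + 1) ∧
      (a + 2) * (fib (2 * a + 1) F T).card + CC a ≤
        (a + 2) * (fib (2 * a + 1) (∂ F) T).card := by
  obtain ⟨U, hU, x, hx, rfl⟩ := mem_shadow_iff.1 hT
  obtain ⟨hU1, hU2⟩ := mem_powersetCard.1 (h.tsub hU)
  have hs := h.s1
  have hU3 : U ⊆ Ico (2 * a + 1) n := hU1.trans (Ico_subset_Ico (by omega) le_rfl)
  have hc : (U.erase x).card = s - 1 := by rw [card_erase_of_mem hx, hU2]
  have hE : U.erase x ⊆ Ico (2 * a + 1) n := (erase_subset x U).trans hU3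
  refine ⟨mem_low.2 ⟨hE, by omega⟩, ?_⟩
  have h1 := card_le_card (hD.drop (2 * a + 1) x F (U.erase x) (mem_Ico.1 (hU3 hx)).1
    (notMem_erase x U))
  rw [insert_erase hx] at h1
  have h2 : (fib (2 * a + 1) F (U.erase x)).card ≤ (2 * a + 1).choose (a + 2) :=
    card_le_choose (fib_subset h.good.1 (Seg.out_Ico hE) (by omega))
  have h3 := Seg.CC_eq a
  have h4 := ArithAux.cat a
  have h5 := h.dense U hU
  have h6 : CC a ≤ (fib (2 * a + 1) F U).card + ms a F U := by unfold ms; omega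
  have h7 : (a + 2) * ms a F U ≤ CC a :=
    le_trans (Nat.mul_le_mul_right _ (by omega)) h5
  have h8 : (fib (2 * a + 1) F (U.erase x)).card + catalan (a + 1) ≤
      (fib (2 * a + 1) (∂ F) (U.erase x)).card + ms a F U := by omega
  have h9 := Nat.mul_le_mul_left (a + 2) h8
  rw [mul_add, mul_add] at h9
  omega

theorem part1 {a s e C p q m : ℕ} (hs : 1 ≤ s) (hC : 0 < C) (h1 : p * C ≤ (a + 2) * e)
    (h2 : 65 * (a + s + 1) ^ 9 * e ≤ m) (h3 : m ≤ 2 * (a + s + 1) * C * q) :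
    65 * (a + s + 1) ^ 7 * p ≤ 2 * q := by
  set k := a + s + 1 with hk
  have hk0 : 0 < k := by omega
  have h4 : p * C ≤ k * e := h1.trans (Nat.mul_le_mul_right _ (by omega))
  refine Nat.le_of_mul_le_mul_left (c := k ^ 2 * C) ?_ (by positivity)
  calc k ^ 2 * C * (65 * k ^ 7 * p) = 65 * k ^ 9 * (p * C) := by ring
    _ ≤ 65 * k ^ 9 * (k * e) := Nat.mul_le_mul_left _ h4
    _ = k * (65 * k ^ 9 * e) := by ring
    _ ≤ k * (2 * k * C * q) := Nat.mul_le_mul_left _ (h2.trans h3)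
    _ = k ^ 2 * C * (2 * q) := by ring

/-- members with a short tail -/
def short (w s : ℕ) (F : Finset (Finset ℕ)) : Finset (Finset ℕ) :=
  F.filter fun A => (A.filter fun y => w ≤ y).card < s

theorem short_card (hC : CN) {w n s : ℕ} {F : Finset (Finset ℕ)} (h : ∀ A ∈ F, A ⊆ range n) :
    (short w s F).card + ∑ T ∈ upp (Ico w n) s, (fib w F T).card = F.card := by
  have h1 := hC.total w n s F h
  have h2 := hC.total w n s (short w s F) fun A hA => h A (mem_filter.1 hA).1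
  have h3 : ∑ T ∈ upp (Ico w n) s, (fib w (short w s F) T).card = 0 := by
    refine sum_eq_zero fun T hT => card_eq_zero.2 (eq_empty_of_forall_notMem fun g hg => ?_)
    obtain ⟨hT1, hT2⟩ := mem_upp.1 hT
    obtain ⟨g1, g2⟩ := mem_fib.1 hg
    have := (mem_filter.1 g2).2
    rw [filter_union_tail (Seg.out_Ico hT1) g1] at this
    omega
  have h4 : ∑ T ∈ low (Ico w n) s, (fib w (short w s F) T).card =
      ∑ T ∈ low (Ico w n) s, (fib w F T).card := by
    refine sum_congr rfl fun T hT => congrArg card (Finset.ext fun g => ?_)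
    obtain ⟨hT1, hT2⟩ := mem_low.1 hT
    rw [mem_fib, mem_fib, short, mem_filter]
    refine ⟨fun hg => ⟨hg.1, hg.2.1⟩, fun hg => ⟨hg.1, hg.2, ?_⟩⟩
    rw [filter_union_tail (Seg.out_Ico hT1) hg.1]
    exact hT2
  omega

theorem short_shadow (hC : CN) {w n s : ℕ} {F : Finset (Finset ℕ)} (h : ∀ A ∈ F, A ⊆ range n) :
    (∂ (short w s F)).card + ∑ T ∈ upp (Ico w n) s, (fib w (∂ F) T).card ≤ (∂ F).card := by
  have h1 := hC.total w n s (∂ F) (shadow_range h)
  have h2 := hC.total w n s (∂ (short w s F))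
    (shadow_range fun A hA => h A (mem_filter.1 hA).1)
  have h3 : ∑ T ∈ upp (Ico w n) s, (fib w (∂ (short w s F)) T).card = 0 := by
    refine sum_eq_zero fun T hT => card_eq_zero.2 (eq_empty_of_forall_notMem fun g hg => ?_)
    obtain ⟨hT1, hT2⟩ := mem_upp.1 hT
    obtain ⟨g1, g2⟩ := mem_fib.1 hg
    obtain ⟨B, hB, x, -, e⟩ := mem_shadow_iff.1 g2
    have b1 := (mem_filter.1 hB).2
    have b2 : ((g ∪ T).filter fun y => w ≤ y).card ≤ (B.filter fun y => w ≤ y).card :=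
      card_le_card (filter_subset_filter _ (e ▸ erase_subset x B))
    rw [filter_union_tail (Seg.out_Ico hT1) g1] at b2
    omega
  have h4 : ∑ T ∈ low (Ico w n) s, (fib w (∂ (short w s F)) T).card ≤
      ∑ T ∈ low (Ico w n) s, (fib w (∂ F) T).card := by
    refine sum_le_sum fun T _ => card_le_card fun g hg => ?_
    rw [mem_fib] at hg ⊢
    exact ⟨hg.1, shadow_mono (filter_subset _ F) hg.2⟩
  omega

theorem short_AF {n a s : ℕ} {F : Finset (Finset ℕ)} (hF : ∀ A ∈ F, A.card = a + s + 1)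
    (h : ∀ A ∈ F, A ⊆ range n) : short (2 * a + 1) (s + 1) F ⊆ AF n (a + s) a := by
  intro A hA
  obtain ⟨h1, h2⟩ := mem_filter.1 hA
  refine Lift.mem_AF.2 ⟨h A h1, hF A h1, ?_⟩
  have h3 := card_union_le (A.filter fun y => y < 2 * a + 1) (A.filter fun y => 2 * a + 1 ≤ y)
  rw [Seg.split, hF A h1] at h3
  omega

/-- the size of the head block -/
theorem head_le {a s τ r : ℕ} (ha : 4 ≤ a) (hs : 1 ≤ s) (hr : 1 ≤ r) (hτ : τ + 1 ≤ a)
    (h : 3 ≤ τ → (a + τ - 3).choose a ≤ (τ - 2) * r) :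
    (a + τ + 2).choose (a + 1) ≤ 2 * (a + s + 1) ^ 4 * r := by
  set k := a + s + 1 with hk
  by_cases h3 : 3 ≤ τ
  · obtain ⟨t, rfl⟩ : ∃ t, τ = t + 3 := ⟨τ - 3, by omega⟩
    have hz := h h3
    rw [show a + (t + 3) - 3 = a + t by omega, show t + 3 - 2 = t + 1 by omega] at hz
    rw [show a + (t + 3) + 2 = a + t + 4 + 1 by omega]
    have e0 := Nat.add_one_mul_choose_eq (a + t + 4) a
    have e1 := Nat.choose_mul_succ_eq (a + t) a
    have e2 := Nat.choose_mul_succ_eq (a + t + 1) a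
    have e3 := Nat.choose_mul_succ_eq (a + t + 2) a
    have e4 := Nat.choose_mul_succ_eq (a + t + 3) a
    rw [show a + t + 1 - a = t + 1 by omega] at e1
    rw [show a + t + 1 + 1 - a = t + 2 by omega] at e2
    rw [show a + t + 2 + 1 - a = t + 3 by omega] at e3
    rw [show a + t + 3 + 1 - a = t + 4 by omega] at e4
    change _ = (a + t + 2).choose a * _ at e2
    change _ = (a + t + 3).choose a * _ at e3
    change _ = (a + t + 4).choose a * _ at e4
    generalize (a + t + 4 + 1).choose (a + 1) = c at *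
    generalize (a + t + 4).choose a = z4 at *
    generalize (a + t + 3).choose a = z3 at *
    generalize (a + t + 2).choose a = z2 at *
    generalize (a + t + 1).choose a = z1 at *
    generalize (a + t).choose a = z0 at *
    have b1 : z1 ≤ 2 * k * r := by
      refine Nat.le_of_mul_le_mul_right (c := t + 1) ?_ (by omega)
      rw [← e1]
      calc z0 * (a + t + 1) ≤ (t + 1) * r * (2 * k) := Nat.mul_le_mul hz (by omega)
        _ = _ := by ring
    have b2 : z2 * 2 ≤ z1 * (2 * k) :=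
      (Nat.mul_le_mul_left _ (by omega)).trans (e2.symm.le.trans (Nat.mul_le_mul_left _ (by omega)))
    have b3 : z3 * 3 ≤ z2 * (2 * k) :=
      (Nat.mul_le_mul_left _ (by omega)).trans (e3.symm.le.trans (Nat.mul_le_mul_left _ (by omega)))
    have b4 : z4 * 4 ≤ z3 * (2 * k) :=
      (Nat.mul_le_mul_left _ (by omega)).trans (e4.symm.le.trans (Nat.mul_le_mul_left _ (by omega)))
    have b5 : c ≤ 2 * z4 := by
      refine Nat.le_of_mul_le_mul_right (c := a + 1) ?_ (by omega)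
      rw [← e0]
      calc (a + t + 4 + 1) * z4 ≤ (2 * (a + 1)) * z4 := Nat.mul_le_mul_right _ (by omega)
        _ = _ := by ring
    have c2 : z2 ≤ 2 * k ^ 2 * r := by
      have : z1 * (2 * k) ≤ 2 * k * r * (2 * k) := Nat.mul_le_mul_right _ b1
      have e : 2 * k * r * (2 * k) = 2 * k ^ 2 * r * 2 := by ring
      omega
    have c3 : z3 * 3 ≤ 4 * (k ^ 3 * r) := by
      have : z2 * (2 * k) ≤ 2 * k ^ 2 * r * (2 * k) := Nat.mul_le_mul_right _ c2
      have e : 2 * k ^ 2 * r * (2 * k) = 4 * (k ^ 3 * r) := by ring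
      omega
    have c4 : z4 * 12 ≤ 8 * (k ^ 4 * r) := by
      have h1 : z3 * 3 * (2 * k) ≤ 4 * (k ^ 3 * r) * (2 * k) := Nat.mul_le_mul_right _ c3
      have e : 4 * (k ^ 3 * r) * (2 * k) = 8 * (k ^ 4 * r) := by ring
      have e' : z3 * 3 * (2 * k) = 3 * (z3 * (2 * k)) := by ring
      omega
    have e : 2 * k ^ 4 * r = 2 * (k ^ 4 * r) := by ring
    omega
  · have b1 : (a + τ + 2).choose (a + 1) ≤ (a + 1 + 3).choose (a + 1) :=
      Nat.choose_le_choose _ (by omega)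
    rw [Nat.choose_symm_add] at b1
    have b2 := Nat.choose_le_pow (a + 1 + 3) 3
    have b3 : (a + 1 + 3) ^ 3 ≤ (2 * k) ^ 3 := Nat.pow_le_pow_left (by omega) 3
    have b4 : (2 * k) ^ 3 ≤ 2 * k ^ 4 * r :=
      calc (2 * k) ^ 3 = 2 * (k ^ 3 * 4) * 1 := by ring
        _ ≤ 2 * (k ^ 3 * k) * r :=
          Nat.mul_le_mul (Nat.mul_le_mul_left _ (Nat.mul_le_mul_left _ (by omega))) hr
        _ = _ := by ring
    omega

/-- the shadow of the block is paid by the low members -/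
theorem block_le {a τ m c0 c1 B B' R : ℕ} (hτ : τ + 1 ≤ a) (hm : 3 * a + 3 ≤ m)
    (hc : c1 * (a + 1) = c0 * (τ + 2)) (h1 : m * B' ≤ B) (h2 : m * R ≤ B' + B) :
    τ * (c0 * (B' + B) + c1 * R) ≤ a * (c1 * B) := by
  have hm0 : 0 < m := by omega
  have b0 : B' ≤ B := le_trans (Nat.le_mul_of_pos_left _ hm0) h1
  have b1 : (a + 1) * B' + (τ + 2) * R ≤ B := by
    refine Nat.le_of_mul_le_mul_left (c := m) ?_ hm0
    calc m * ((a + 1) * B' + (τ + 2) * R) = (a + 1) * (m * B') + (τ + 2) * (m * R) := by ring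
      _ ≤ (a + 1) * B + (τ + 2) * (2 * B) :=
        Nat.add_le_add (Nat.mul_le_mul_left _ h1) (Nat.mul_le_mul_left _ (by omega))
      _ = (a + 2 * τ + 5) * B := by ring
      _ ≤ m * B := Nat.mul_le_mul_right _ (by omega)
  have b2 : τ * ((a + 1) * (B' + B) + (τ + 2) * R) ≤ a * (τ + 2) * B :=
    calc τ * ((a + 1) * (B' + B) + (τ + 2) * R)
        = τ * (a + 1) * B + τ * ((a + 1) * B' + (τ + 2) * R) := by ring
      _ ≤ τ * (a + 1) * B + τ * B := Nat.add_le_add_left (Nat.mul_le_mul_left _ b1) _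
      _ = (a * τ + 2 * τ) * B := by ring
      _ ≤ (a * τ + 2 * a) * B := Nat.mul_le_mul_right _ (by omega)
      _ = _ := by ring
  refine Nat.le_of_mul_le_mul_left (c := τ + 2) ?_ (by omega)
  calc (τ + 2) * (τ * (c0 * (B' + B) + c1 * R))
      = τ * (c0 * (τ + 2) * (B' + B) + c1 * (τ + 2) * R) := by ring
    _ = c1 * (τ * ((a + 1) * (B' + B) + (τ + 2) * R)) := by rw [← hc]; ring
    _ ≤ c1 * (a * (τ + 2) * B) := Nat.mul_le_mul_left _ b2
    _ = _ := by ring

theorem ratio_le {m u t : ℕ} (h : m * (t + 1) + t ≤ u) : m * u.choose t ≤ u.choose (t + 1) := by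
  refine Nat.le_of_mul_le_mul_right (c := t + 1) ?_ (by omega)
  rw [Nat.choose_succ_right_eq]
  calc m * u.choose t * (t + 1) = u.choose t * (m * (t + 1)) := by ring
    _ ≤ _ := Nat.mul_le_mul_left _ (by omega)

end Shad

open Shad

theorem shadStmt (hD : DM) (hC : CN) : ShadStmt := by
  intro n a s e F 𝒯 h hdd
  have hs := h.s1
  have t1 := hC.total (2 * a + 1) n (s + 1) F h.sub
  have t2 := hC.total (2 * a + 1) n (s + 1) (∂ F) (shadow_range h.sub)
  have hle : ∀ T ∈ low (Ico (2 * a + 1) n) (s + 1),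
      (fib (2 * a + 1) F T).card ≤ (fib (2 * a + 1) (∂ F) T).card := fun T hT =>
    fib_le h.good.1 (Seg.out_Ico (mem_low.1 hT).1) (mem_low.1 hT).2
  have t3 := sum_le_sum hle
  have t4 := h.exc
  change _ + dd n a s F = _ at t1
  change _ + cd n a s F = _ at t2
  have hsub : ∂ 𝒯 ⊆ low (Ico (2 * a + 1) n) (s + 1) := fun T hT => (gain hD h hT).1
  have t5 : ∑ T ∈ low (Ico (2 * a + 1) n) (s + 1) \ ∂ 𝒯, (fib (2 * a + 1) F T).card ≤
      ∑ T ∈ low (Ico (2 * a + 1) n) (s + 1) \ ∂ 𝒯, (fib (2 * a + 1) (∂ F) T).card :=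
    sum_le_sum fun T hT => hle T (mem_sdiff.1 hT).1
  have t6 := sum_sdiff (f := fun T => (fib (2 * a + 1) F T).card) hsub
  have t7 := sum_sdiff (f := fun T => (fib (2 * a + 1) (∂ F) T).card) hsub
  have t8 := sum_le_sum fun T (hT : T ∈ ∂ 𝒯) => (gain hD h hT).2
  rw [sum_add_distrib, ← mul_sum, ← mul_sum, sum_const, smul_eq_mul] at t8
  have t9 : ∑ T ∈ ∂ 𝒯, (fib (2 * a + 1) (∂ F) T).card ≤
      ∑ T ∈ ∂ 𝒯, (fib (2 * a + 1) F T).card + e := by omega
  have t10 := Nat.mul_le_mul_left (a + 2) t9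
  rw [mul_add] at t10
  have p1 : 65 * (a + s + 1) ^ 7 * (∂ 𝒯).card ≤ 2 * 𝒯.card :=
    part1 hs (ArithAux.cc_pos a) (by omega) h.small h.mass
  refine ⟨p1, ?_, by omega⟩
  by_contra hc
  have hk : a + s + 1 ≤ (a + s + 1) ^ 7 := Nat.le_self_pow (by norm_num) _
  have l1 := hKN.lym s (32 * (a + s + 1) ^ 7) 𝒯.card (by omega) (not_lt.1 hc)
  have l2 := hKN.thm s 𝒯 fun A hA => (mem_powersetCard.1 (h.tsub hA)).2
  have l3 : (32 * (a + s + 1) ^ 7 - s + 1) * kk s 𝒯.card ≤ 32 * (a + s + 1) ^ 7 * (∂ 𝒯).card :=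
    Nat.mul_le_mul (by omega) l2
  have l4 : 𝒯.card ≤ s * 𝒯.card := Nat.le_mul_of_pos_left _ hs
  have l5 := h.ne.card_pos
  have e1 : 65 * (a + s + 1) ^ 7 * (∂ 𝒯).card = 65 * ((a + s + 1) ^ 7 * (∂ 𝒯).card) := by ring
  have e2 : 32 * (a + s + 1) ^ 7 * (∂ 𝒯).card = 32 * ((a + s + 1) ^ 7 * (∂ 𝒯).card) := by ring
  omega

theorem largeIStmt (hC : CN) (hB : BlockStmt) : LargeIStmt := by
  intro n a s e τ F 𝒯 L h hL hLc hτ1 hτ hcd hz hbig
  have hs := h.s1
  have ha := h.a4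
  have g1 := short_card hC (w := 2 * a + 1) (s := s + 1) h.sub
  have g2 := short_shadow hC (w := 2 * a + 1) (s := s + 1) h.sub
  change _ + dd n a s F = _ at g1
  change _ + cd n a s F ≤ _ at g2
  have c1 := head_le ha hs h.r1 hτ hz
  have c2 : 0 < (a + τ + 2).choose (a + 1) := Nat.choose_pos (by omega)
  have c3 := Nat.choose_succ_right_eq (a + τ + 2) a
  rw [show a + τ + 2 - a = τ + 2 by omega] at c3
  obtain ⟨t, rfl⟩ : ∃ t, s = t + 1 := ⟨s - 1, by omega⟩
  have hex : ∃ v : ℕ, dd n a (t + 1) F ≤ (a + τ + 2).choose (a + 1) * v.choose (t + 1) := by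
    refine ⟨dd n a (t + 1) F + (t + 1), ?_⟩
    have := le_choose_add t (dd n a (t + 1) F)
    exact le_trans (by omega) (Nat.le_mul_of_pos_left _ c2)
  have v1 := Nat.find_spec hex
  have v2 : 4 * (a + (t + 1) + 1) ^ 2 < Nat.find hex := by
    by_contra hc
    have := Nat.mul_le_mul c1 (Nat.choose_le_choose (t + 1) (not_lt.1 hc))
    omega
  obtain ⟨u, hu⟩ : ∃ u, Nat.find hex = u + 1 := ⟨Nat.find hex - 1, by omega⟩
  have v3 := Nat.find_min hex (m := u) (by omega)
  rw [hu] at v1 v2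
  have hn : 2 * a + 1 ≤ n := by
    have : a + (t + 1) + 1 ≤ (a + (t + 1) + 1) ^ 20 := Nat.le_self_pow (by norm_num) _
    have := h.big
    omega
  have b1 := hB n a (t + 1) (a + τ + 2) (u + 1) _ L hs (by omega) hn
    (short_AF h.good.1 h.sub) hL (by omega)
  rw [Nat.add_sub_cancel] at b1
  have hm : 3 * (a + (t + 1) + 1) * (t + 1) + t ≤ u := by nlinarith
  have r1 := ratio_le hm
  have r2 := ratio_le (u := u + 1) (hm.trans (Nat.le_add_right u 1))
  rw [Nat.choose_succ_succ' u t] at r2 b1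
  have b2 := block_le hτ (by omega) c3 r1 r2
  have b3 : a * ((a + τ + 2).choose (a + 1) * u.choose (t + 1)) ≤ a * dd n a (t + 1) F :=
    Nat.mul_le_mul_left _ (not_le.1 v3).le
  have b4 := Nat.le_of_mul_le_mul_left (b2.trans (b3.trans hcd)) hτ1
  omega

end Pool.Agent.MP_d50107_co.P61
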