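import Pool.Agent.MP_d50107_co.P61.Spec

/-! Few low members: the holes over a class of tails are concentrated. -/

namespace Pool.Agent.MP_d50107_co.P61

open Finset
open scoped FinsetFamily
open Pool.Agent.MP_d50107_co.H54 (IsInit)
open Pool.Agent.MP_d50107_co.H61

namespace SmallI

theorem num {a t k q θ c e S d u ρ A B : ℕ} (h1 : (a + 1) * A ≤ t * S)
    (h2 : (t + 1) * (u * q) ≤ (a + 1) * B) (h3 : u * q + ρ + d = S) (h4 : ρ < q) (h5 : t + 1 ≤ a)
    (hk : a + 1 ≤ k) (h6 : q ≤ θ * ((a + t + 1) * (a + t))) (h7 : c * θ ≤ S) (h8 : 8 * k ^ 3 ≤ c)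
    (h9 : 4 * k * e ≤ c) : A + e * (2 * θ) ≤ B + d := by
  have j1 : (a + t + 1) * (a + t) ≤ (2 * k) * (2 * k) := Nat.mul_le_mul (by omega) (by omega)
  have j2 : (t + 1) * ρ ≤ k * (θ * ((2 * k) * (2 * k))) :=
    Nat.mul_le_mul (by omega) (h4.le.trans (h6.trans (Nat.mul_le_mul_left _ j1)))
  have j3 := Nat.mul_le_mul_right θ h8
  have j4 := Nat.mul_le_mul_right θ h9
  have j5 : (a + 1) * (e * θ) ≤ k * (e * θ) := Nat.mul_le_mul_right _ hk
  have j6 : (t + 1) * d ≤ (a + 1) * d := Nat.mul_le_mul_right _ (by omega)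
  have j7 : (t + 1) * (u * q + ρ + d) = (t + 1) * S := by rw [h3]
  refine Nat.le_of_mul_le_mul_left ?_ (Nat.succ_pos a)
  simp only [Nat.succ_eq_add_one]
  linarith

theorem cc_symm (a : ℕ) : (a + (a + 1)).choose a = CC a := by
  rw [Nat.choose_symm_add, CC, show a + (a + 1) = 2 * a + 1 by omega]

theorem dual {a m : ℕ} (ha : 1 ≤ a) (hm : m ≤ CC a) : kk (a + 1) (CC a - m) + cl a m = CC a := by
  have h := hKN.dual a (a + 1) m ha (by rwa [cc_symm])
  rwa [cc_symm, show a + (a + 1) = 2 * a + 1 by omega] at h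

theorem mem_low {w n s : ℕ} {T : Finset ℕ} (h : T ∈ low (Ico w n) s) : Out w T ∧ T.card < s :=
  ⟨fun _ hy => (mem_Ico.1 (mem_powerset.1 (mem_filter.1 h).1 hy)).1, (mem_filter.1 h).2⟩

/-- The holes can be regrouped in large blocks. -/
theorem regroup (hA : NA) (hN : NC) {a k θ e d : ℕ} {ι : Type} (S : Finset ι) (m : ι → ℕ)
    (ha : 1 ≤ a) (hk : a + 1 ≤ k) (hθ : 1 ≤ θ) (hn : 2 * θ ≤ NN a)
    (hm : ∀ i ∈ S, θ ≤ m i ∧ m i < 2 * θ) (h8 : 8 * k ^ 3 ≤ S.card) (h9 : 4 * k * e ≤ S.card)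
    (hd : d ≤ ∑ i ∈ S, m i) : ∃ M : ι → ℕ, (∀ i ∈ S, M i ≤ CC a) ∧
      ∑ i ∈ S, M i + d = ∑ i ∈ S, m i ∧
      ∑ i ∈ S, cl a (m i) + e * (2 * θ) ≤ ∑ i ∈ S, cl a (M i) + d := by
  obtain ⟨x, x1, x2, x3, x4⟩ := hN.win a (2 * θ) ha (by omega)
  have x5 : x + 1 ≤ 2 * a := by
    by_contra hc
    have := Nat.choose_le_choose a (show 2 * a - 1 ≤ x - 1 by omega)
    unfold NN at hn
    omega
  obtain ⟨t, rfl⟩ : ∃ t, x = a + t := ⟨x - a, by omega⟩
  have q1 : 2 * θ ≤ (a + t + 1).choose a := x3.trans (Nat.choose_le_choose a (Nat.le_succ _))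
  have q2 : (a + t + 1).choose a ≤ CC a := by
    rw [← cc_symm]
    exact Nat.choose_le_choose a (by omega)
  have q3 : (a + 1) * cl a ((a + t + 1).choose a) = (t + 1) * (a + t + 1).choose a := by
    obtain ⟨l, rfl⟩ : ∃ l, a = l + 1 := ⟨a - 1, by omega⟩
    rw [cl_choose, mul_comm, Nat.choose_succ_right_eq, mul_comm,
      show l + 1 + t + 1 - (l + 1) = t + 1 by omega]
  generalize (a + t + 1).choose a = q at q1 q2 q3 x4
  have hq : 0 < q := by omega
  have hc : 0 < S.card := lt_of_lt_of_le (by have : 0 < k := by omega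
                                             positivity) h8
  have s1 : ∑ i ∈ S, m i < S.card * q := by
    rw [← smul_eq_mul, ← sum_const]
    exact sum_lt_sum_of_nonempty (card_pos.1 hc) fun i hi => (hm i hi).2.trans_le q1
  have s2 : S.card * θ ≤ ∑ i ∈ S, m i := by
    rw [← smul_eq_mul]
    exact card_nsmul_le_sum _ _ _ fun i hi => (hm i hi).1
  have s3 : (a + 1) * ∑ i ∈ S, cl a (m i) ≤ t * ∑ i ∈ S, m i := by
    rw [mul_sum, mul_sum]
    refine sum_le_sum fun i hi => ?_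
    have := hKN.clym a (a + t) (m i) ((hm i hi).2.le.trans x3)
    rwa [Nat.add_sub_cancel_left] at this
  generalize ∑ i ∈ S, m i = s at s1 s2 s3 hd ⊢
  have u1 := Nat.div_add_mod' (s - d) q
  have u2 := Nat.mod_lt (s - d) hq
  have u3 : (s - d) / q < S.card := Nat.div_lt_of_lt_mul (by rw [mul_comm]; omega)
  generalize (s - d) / q = u at u1 u3
  generalize (s - d) % q = ρ at u1 u2
  obtain ⟨M, m1, m2⟩ := hA.assign S (List.replicate u q ++ [ρ]) (by simpa using u3)
  have m3 := m2 id rfl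
  have m4 := m2 (cl a) (cl_zero a)
  simp only [id, List.sum_append, List.sum_replicate, smul_eq_mul, List.sum_cons,
    List.sum_nil, add_zero, List.map_append, List.map_replicate, List.map_cons,
    List.map_nil] at m3 m4
  refine ⟨M, fun i hi => ?_, by omega, ?_⟩
  · rcases m1 i hi with h | h
    · omega
    · simp only [List.mem_append, List.mem_replicate, List.mem_singleton] at h
      omega
  · refine num (u := u) (ρ := ρ) (q := q) s3 ?_ (by omega) u2 (by omega) hk
      (Nat.le_of_mul_le_mul_left (by rwa [← mul_assoc]) two_pos) s2 h8 h9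
    rw [m4, mul_add, mul_left_comm (a + 1), q3, mul_left_comm]
    exact Nat.le_add_right _ _

end SmallI

open SmallI in
theorem smallIStmt (hD : DM) (hC : CN) (hA : NA) (hN : NC) (hM : AsmStmt) : SmallIStmt := by
  intro n a s e θ F 𝒯 𝒞 L hx hL hLc hdc hsub hθ hm h8 h9 hd
  have ha : 1 ≤ a := le_trans (by omega) hx.a4
  have hF := hx.good.1
  have hF' : ∀ B ∈ ∂ F, B.card = a + s := fun B hB => by
    obtain ⟨A, h1, y, h2, rfl⟩ := mem_shadow_iff.1 hB
    rw [card_erase_of_mem h2, hF A h1]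
    rfl
  have hr : ∀ B ∈ ∂ F, B ⊆ range n := fun B hB => by
    obtain ⟨A, h1, y, h2, rfl⟩ := mem_shadow_iff.1 hB
    exact (erase_subset _ _).trans (hx.sub A h1)
  have hn : 2 * a + 1 ≤ n := by
    have h1 := hx.big
    have h2 : a + s + 1 ≤ (a + s + 1) ^ 20 := Nat.le_self_pow (by omega) _
    omega
  have hc : ∀ U ∈ 𝒞, U ∈ low (Ico (2 * a + 1) n) (s + 1) ∧ U.card = s := fun U hU => by
    obtain ⟨h1, h2⟩ := mem_powersetCard.1 (hx.tsub (hsub hU))
    exact ⟨mem_filter.2 ⟨mem_powerset.2 (h1.trans (Ico_subset_Ico_left (by omega))), by omega⟩, h2⟩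
  have hi : low (Ico (2 * a + 1) n) (s + 1) ∩ 𝒞 = 𝒞 := inter_eq_right.2 fun U hU => (hc U hU).1
  have hf : ∀ T ∈ low (Ico (2 * a + 1) n) (s + 1),
      (fib (2 * a + 1) F T).card ≤ (2 * a + 1).choose (a + s + 1 - T.card) ∧
      kk (a + s + 1 - T.card) (fib (2 * a + 1) F T).card ≤ (fib (2 * a + 1) (∂ F) T).card :=
    fun T hT => by
    obtain ⟨h1, h2⟩ := mem_low hT
    have h3 := fib_subset (l := a + s + 1 - T.card) hF h1 (by omega)
    exact ⟨card_le_choose h3, (hKN.thm _ _ (card_eq_of_subset h3)).trans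
      (card_le_card (Seg.shadow_fib_subset h1))⟩
  have hg : ∀ U ∈ 𝒞, (fib (2 * a + 1) F U).card + ms a F U = CC a ∧
      kk (a + 1) (fib (2 * a + 1) F U).card ≤ (fib (2 * a + 1) (∂ F) U).card := fun U hU => by
    have h1 := hf U (hc U hU).1
    rw [(hc U hU).2, show a + s + 1 - s = a + 1 by omega] at h1
    exact ⟨Nat.add_sub_cancel' h1.1, h1.2⟩
  have hdr : ∀ T ∈ low (Ico (2 * a + 1) n) (s + 1), ∀ z ∈ T,
      (fib (2 * a + 1) F T).card ≤ (fib (2 * a + 1) (∂ F) (T.erase z)).card := fun T hT z hz => by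
    have h1 := hD.drop (2 * a + 1) z F (T.erase z) ((mem_low hT).1 z hz) (notMem_erase _ _)
    rw [insert_erase hz] at h1
    exact card_le_card h1
  have hy : ∀ T ∈ ∂ 𝒞, (fib (2 * a + 1) (∂ F) T).card ≤ CC a ∧
      CC a ≤ (fib (2 * a + 1) (∂ F) T).card + 2 * θ := fun T hT => by
    obtain ⟨U, h1, z, h2, rfl⟩ := mem_shadow_iff.1 hT
    have h3 := hdr U (hc U h1).1 z h2
    have h4 := (hg U h1).1
    have h5 := (hm U h1).2
    have h6 := card_erase_add_one h2
    have h7 := (hc U h1).2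
    exact ⟨card_le_choose (fib_subset hF' (fun y hy => (mem_low (hc U h1).1).1 y
      (mem_of_mem_erase hy)) (by omega)), by omega⟩
  have hθ2 : 2 * θ ≤ NN a := by
    obtain ⟨U, hU⟩ := card_pos.1 (lt_of_lt_of_le (by positivity) h8)
    have h1 := hx.dense U (hsub hU)
    have h2 := hN.c4 a ha
    have h3 := (hm U hU).1
    have h4 : 64 * 1 * θ ≤ 64 * (a + s + 1) * ms a F U :=
      Nat.mul_le_mul (Nat.mul_le_mul_left _ (by omega)) h3
    omega
  obtain ⟨M, m1, m2, m3⟩ := regroup hA hN 𝒞 (ms a F) ha (show a + 1 ≤ a + s + 1 by omega) hθ hθ2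
    hm h8 h9 hd
  obtain ⟨G, g1, -, g3, g4⟩ := hM n (2 * a + 1) (a + s + 1) (s + 1)
    (fun T => if T ∈ 𝒞 then CC a - M T else (fib (2 * a + 1) F T).card)
    (fun T => if T ∈ 𝒞 then kk (a + 1) (CC a - M T)
      else if T ∈ ∂ 𝒞 then CC a else (fib (2 * a + 1) (∂ F) T).card) hn (by omega)
    (fun T hT => by
      have h1 := hf T hT
      by_cases h : T ∈ 𝒞
      · rw [if_pos h, if_pos h, (hc T h).2, show a + s + 1 - s = a + 1 by omega]
        exact ⟨Nat.sub_le _ _, le_rfl⟩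
      · rw [if_neg h, if_neg h]
        refine ⟨h1.1, h1.2.trans ?_⟩
        split_ifs with h2
        exacts [(hy T h2).1, le_rfl])
    (fun T hT z hz => by
      have h1 : T.erase z ∉ 𝒞 := fun h => by
        have h2 := (hc _ h).2
        have h3 := card_erase_add_one hz
        have h4 := (mem_low hT).2
        omega
      rw [if_neg h1]
      by_cases h : T ∈ 𝒞
      · rw [if_pos h, if_pos (erase_mem_shadow h hz)]
        exact Nat.sub_le _ _
      · rw [if_neg h]
        refine (hdr T hT z hz).trans ?_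
        split_ifs with h2
        exacts [(hy _ h2).1, le_rfl])
  have t1 := hC.total (2 * a + 1) n (s + 1) F hx.sub
  have t2 := hC.total (2 * a + 1) n (s + 1) (∂ F) hr
  have k1 : ∑ T ∈ low (Ico (2 * a + 1) n) (s + 1),
      ((if T ∈ 𝒞 then CC a - M T else (fib (2 * a + 1) F T).card) + if T ∈ 𝒞 then M T else 0) =
      ∑ T ∈ low (Ico (2 * a + 1) n) (s + 1),
        ((fib (2 * a + 1) F T).card + if T ∈ 𝒞 then ms a F T else 0) :=
    sum_congr rfl fun T _ => by
      split_ifs with h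
      · rw [(hg T h).1, Nat.sub_add_cancel (m1 T h)]
      · rfl
  have k2 : ∑ T ∈ low (Ico (2 * a + 1) n) (s + 1),
      ((if T ∈ 𝒞 then kk (a + 1) (CC a - M T)
        else if T ∈ ∂ 𝒞 then CC a else (fib (2 * a + 1) (∂ F) T).card) +
        if T ∈ 𝒞 then cl a (M T) else 0) ≤
      ∑ T ∈ low (Ico (2 * a + 1) n) (s + 1), (((fib (2 * a + 1) (∂ F) T).card +
        if T ∈ 𝒞 then cl a (ms a F T) else 0) + if T ∈ ∂ 𝒞 then 2 * θ else 0) :=
    sum_le_sum fun T _ => by
      by_cases h : T ∈ 𝒞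
      · simp only [if_pos h]
        obtain ⟨h1, h2⟩ := hg T h
        have h3 := dual ha (m1 T h)
        have h4 := dual (m := ms a F T) ha (by omega)
        rw [show CC a - ms a F T = (fib (2 * a + 1) F T).card by omega] at h4
        omega
      · simp only [if_neg h]
        split_ifs with h2
        · exact (hy T h2).2
        · exact le_rfl
  rw [sum_add_distrib, sum_add_distrib, sum_ite_mem, sum_ite_mem, hi] at k1
  rw [sum_add_distrib, sum_add_distrib, sum_add_distrib, sum_ite_mem, sum_ite_mem, sum_ite_mem,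
    hi, sum_const, smul_eq_mul] at k2
  have k3 := Nat.mul_le_mul_right (2 * θ)
    (card_le_card (inter_subset_right (s₁ := low (Ico (2 * a + 1) n) (s + 1)) (s₂ := ∂ 𝒞)))
  unfold dd at m2 m3
  unfold dd cd at hdc
  refine (kk_AF (F := G) (fun A hA => ?_) hL (by omega)).trans (by omega)
  obtain ⟨h1, h2, h3⟩ := g1 A hA
  have h4 := card_filter_add_card_filter_not (s := A) fun y => y < 2 * a + 1
  simp only [not_lt] at h4
  exact Lift.mem_AF.2 ⟨h1, h2, by omega⟩

end Pool.Agent.MP_d50107_co.P61
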