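import Pool.Agent.MP_d50107_co.P61.Spec

/-!
Row Unif: the uniform candidate.
-/

namespace Pool.Agent.MP_d50107_co.P61

open Finset
open scoped FinsetFamily
open Pool.Agent.MP_d50107_co.H54 (IsInit)
open Pool.Agent.MP_d50107_co.H61

namespace Unif

theorem cl_le {a z : ℕ} (ha : 1 ≤ a) (hz : z ≤ NN a) : cl a z ≤ kk a z := by
  have h1 := hKN.lym a (2 * a - 1) z (by omega) hz
  have h2 := hKN.clym a (2 * a - 1) z hz
  rw [show 2 * a - 1 - a + 1 = a by omega] at h1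
  have h3 : (a + 1) * cl a z ≤ (a + 1) * z :=
    h2.trans (Nat.mul_le_mul_right _ (by omega))
  exact (Nat.le_of_mul_le_mul_left h3 (by omega)).trans (Nat.le_of_mul_le_mul_left h1 ha)

theorem pick (hN : NC) {a : ℕ} {lam O B : ℝ} (ha : 4 ≤ a) (l1 : (a : ℝ) - 1 ≤ lam * ((a : ℝ) - 2))
    (l2 : lam ≤ (a : ℝ) - 1) (hO : Osc a lam O) (hB : Cand a lam B) :
    ∃ z : ℕ, 1 ≤ z ∧ z ≤ NN a ∧ (kk a z : ℝ) ≤ lam * z ∧ (kk a z : ℝ) - cl a z ≤ B ∧
      (kk a z : ℝ) - cl a z ≤ 2 * (a : ℝ) ^ 2 * O := by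
  obtain ⟨n, n1, n2, n3, n4⟩ := hB
  obtain ⟨m, m1, m2, m3, m4⟩ := hN.nstar a lam O (by omega) l1 l2 hO
  rcases le_total ((kk a n : ℝ) - cl a n) (2 * (a : ℝ) ^ 2 * O) with h | h
  · exact ⟨n, n1, n2, n3, n4, h⟩
  · have : (0 : ℝ) ≤ cl a m := Nat.cast_nonneg _
    exact ⟨m, m1, m2.trans (Nat.choose_le_choose a (by omega)), m3, by linarith, by linarith⟩

theorem fin {t n f m N Bz O δ : ℝ} (ht : 1 ≤ t) (hn : 2 ≤ n) (e : f + m = n) (m0 : 0 ≤ m)
    (h1 : m * N ≤ 3 * t * n) (h2 : 1000 * t ^ 3 ≤ N) (b0 : 0 ≤ Bz) (b1 : Bz ≤ 2 * t * O)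
    (o0 : 0 ≤ O) (d0 : 0 ≤ δ) (d1 : δ * (100 * t ^ 2) = 1) :
    n * Bz + O ≤ (1 - δ) * f * (Bz + O) := by
  have t0 : 0 < t := by linarith
  have a1 : t * (1000 * t ^ 2 * m) ≤ t * (3 * n) := by
    linarith [mul_le_mul_of_nonneg_left h2 m0]
  have a2 := le_of_mul_le_mul_left a1 t0
  have a3 : t ≤ t ^ 2 := le_self_pow₀ ht (by norm_num)
  have a4 : m * t ≤ 3 * n / 1000 := by linarith [mul_le_mul_of_nonneg_left a3 m0]
  have a5 : δ * t ≤ 1 / 100 := by linarith [mul_le_mul_of_nonneg_left a3 d0]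
  have a6 : δ * t * f ≤ n / 100 :=
    (mul_le_mul_of_nonneg_left (by linarith : f ≤ n) (by positivity)).trans
      ((mul_le_mul_of_nonneg_right a5 (by linarith)).trans (le_of_eq (by ring)))
  have a7 : Bz + O ≤ 3 * t * O := by linarith [mul_le_mul_of_nonneg_right ht o0]
  have f0 : 0 ≤ f := by linarith [mul_le_mul_of_nonneg_left ht m0]
  have a8 := mul_le_mul_of_nonneg_left a7 (show 0 ≤ m + δ * f by positivity)
  have a9 := mul_le_mul_of_nonneg_right (show (m + δ * f) * (3 * t) ≤ n / 2 by linarith) o0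
  have a10 := mul_le_mul_of_nonneg_right hn o0
  rw [show (1 - δ) * f = n - (m + δ * f) by linarith]
  linarith

theorem pay {k a s N σ S δ : ℝ} (hk : 1 ≤ k) (a0 : 0 < a) (ha : a ≤ k) (hs : s ≤ k) (s0 : 0 ≤ σ)
    (S0 : 0 ≤ S) (h1 : (N - s) * σ ≤ 4 * s * S) (h2 : 1000 * (k ^ 2) ^ 3 ≤ N) (d0 : 0 ≤ δ)
    (d1 : δ * (100 * (k ^ 2) ^ 2) = 1) : 2 * σ ≤ δ * (S / a) := by
  have k0 : 0 < k := by linarith
  have a1 : k ≤ (k ^ 2) ^ 3 := by
    rw [← pow_mul]
    exact le_self_pow₀ hk (by norm_num)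
  have a2 : k * (200 * k ^ 5 * σ) ≤ k * S := by
    linarith [mul_le_mul_of_nonneg_right (show 800 * (k ^ 2) ^ 3 ≤ N - s by linarith) s0,
      mul_le_mul_of_nonneg_right hs S0]
  have a3 := mul_le_mul_of_nonneg_left (le_of_mul_le_mul_left a2 k0) d0
  rw [show δ * (200 * k ^ 5 * σ) = δ * (100 * (k ^ 2) ^ 2) * (2 * k * σ) by ring, d1] at a3
  rw [← mul_div_assoc, le_div_iff₀ a0]
  linarith [mul_le_mul_of_nonneg_right ha s0]

end Unif

theorem unifStmt (hN : NC) : UnifStmt := by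
  intro a s X Fr h q0 q1 γ r r0 μ σ D cD v lam O B hD hP hz
  have a4 := hD.a4
  have s1 := hD.s1
  obtain ⟨z, z1, z2, z3, z4, z5⟩ := Unif.pick hN a4 hP.l1 hP.l2 hP.osc hP.cand
  obtain ⟨g, g1, g2, g3⟩ := hTL.pack a z μ lam O z1 z3 hP.osc
  have b0 : (0 : ℝ) ≤ (kk a z : ℝ) - cl a z :=
    sub_nonneg.2 (Nat.cast_le.2 (Unif.cl_le (by omega) z2))
  have o0 : 0 ≤ O := by simpa using hP.osc 0
  have ar : (4 : ℝ) ≤ a := by exact_mod_cast a4
  have sr : (0 : ℝ) ≤ s := Nat.cast_nonneg s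
  have l0 : 1 ≤ lam := by nlinarith [hP.l1]
  have l1 : 1 ≤ (lam - 1) * a := by linarith [hP.l1]
  have k1 : (1 : ℝ) ≤ a + s + 1 := by linarith
  have big : 1000 * (((a : ℝ) + s + 1) ^ 2) ^ 3 ≤ X.card := by
    rw [← pow_mul]
    exact_mod_cast hD.big
  have sN : s + 2 ≤ X.card := by
    have := Nat.le_self_pow (n := 6) (by norm_num) (a + s + 1)
    have := hD.big
    omega
  obtain ⟨δ, d0, d1⟩ : ∃ δ : ℝ, 0 ≤ δ ∧ δ * (100 * (((a : ℝ) + s + 1) ^ 2) ^ 2) = 1 :=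
    ⟨(100 * (((a : ℝ) + s + 1) ^ 2) ^ 2)⁻¹, by positivity, inv_mul_cancel₀ (by positivity)⟩
  have t1 : (1 : ℝ) ≤ ((a : ℝ) + s + 1) ^ 2 := one_le_pow₀ k1
  have d2 : δ ≤ 1 := by linarith [mul_le_mul_of_nonneg_left (one_le_pow₀ t1 (n := 2)) d0]
  have c1 : ∀ U ∈ powersetCard s X,
      ((q0 U : ℝ) + q1 U) / a ≤ (lam - 1) * (q0 U + q1 U) ∧
        (lam - 1) * (q0 U + q1 U) ≤ lam * (q0 U + q1 U) - γ U := fun U hU => by
    have e1 : (γ U : ℝ) ≤ q0 U + q1 U := by exact_mod_cast hD.g0 U hU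
    refine ⟨?_, by linarith⟩
    rw [div_le_iff₀ (by linarith)]
    linarith [mul_le_mul_of_nonneg_right l1 (show (0 : ℝ) ≤ q0 U + q1 U by positivity)]
  have c2 : ∀ U ∈ Fr, B + O ≤ lam * (q0 U + q1 U) - γ U := fun U hU => by
    rcases le_total (8 * (a + 1) * r) (q0 U + q1 U) with c | c
    · have e1 : 8 * ((a : ℝ) + 1) * r ≤ q0 U + q1 U := by exact_mod_cast c
      have e2 := mul_le_mul_of_nonneg_left e1 (sub_nonneg.2 l0)
      have e3 := mul_le_mul_of_nonneg_right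
        (show lam ≤ (lam - 1) * (8 * ((a : ℝ) + 1)) by linarith) (Nat.cast_nonneg (α := ℝ) r)
      linarith [hP.rB, (c1 U (hD.sub hU)).2]
    · have e1 := hD.dense
      have e2 := hN.c4 a (by omega)
      have e3 := hN.c8 a (by omega)
      have e4 : 64 * (a + s + 1) * r = 8 * (8 * (a + 1) * r) + 64 * s * r := by ring
      linarith [hP.bB U hU (by omega) (by omega)]
  have c3 : (1 - δ) * Fr.card * ((kk a z : ℝ) - cl a z + O) +
      δ * ((∑ U ∈ powersetCard s X, ((q0 U : ℝ) + q1 U)) / a) ≤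
      ∑ U ∈ powersetCard s X, (lam * (q0 U + q1 U) - γ U) := by
    have e1 : (Fr.card : ℝ) * ((kk a z : ℝ) - cl a z + O) ≤
        ∑ U ∈ powersetCard s X, (lam * (q0 U + q1 U) - γ U) := by
      rw [← nsmul_eq_mul]
      refine (card_nsmul_le_sum Fr _ _ fun U hU => le_trans (by linarith) (c2 U hU)).trans
        (sum_le_sum_of_subset_of_nonneg hD.sub fun U hU _ => ?_)
      exact le_trans (by positivity) ((c1 U hU).1.trans (c1 U hU).2)
    have e2 : (∑ U ∈ powersetCard s X, ((q0 U : ℝ) + q1 U)) / a ≤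
        ∑ U ∈ powersetCard s X, (lam * (q0 U + q1 U) - γ U) := by
      rw [sum_div]
      exact sum_le_sum fun U hU => (c1 U hU).1.trans (c1 U hU).2
    linarith [mul_le_mul_of_nonneg_left e1 (sub_nonneg.2 d2), mul_le_mul_of_nonneg_left e2 d0]
  have c4 : 2 * (σ : ℝ) ≤ δ * ((∑ U ∈ powersetCard s X, ((q0 U : ℝ) + q1 U)) / a) := by
    refine Unif.pay (s := s) (N := X.card) k1 (by linarith) (by linarith) (by linarith)
      (Nat.cast_nonneg σ) (by positivity) ?_ big d0 d1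
    have e1 := hD.sig ∅ (empty_subset _)
    rw [card_empty, Nat.sub_zero, sdiff_empty] at e1
    have e2 := e1.trans (Nat.mul_le_mul_left _ (sum_le_sum fun U _ => Nat.le_add_left (q1 U) (q0 U)))
    rw [← Nat.cast_sub (by omega)]
    exact_mod_cast e2
  have c5 : ((X.card.choose s : ℕ) : ℝ) * ((kk a z : ℝ) - cl a z) + O ≤
      (1 - δ) * Fr.card * ((kk a z : ℝ) - cl a z + O) := by
    refine Unif.fin (m := (powersetCard s X \ Fr).card) t1 ?_ ?_ (Nat.cast_nonneg _) ?_ big b0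
      (z5.trans ?_) o0 d0 d1
    · exact_mod_cast (show 2 ≤ X.card by omega).trans (hN.self _ s s1 (by omega))
    · rw [← card_powersetCard, ← card_sdiff_add_card_eq_card hD.sub, Nat.cast_add, add_comm]
    · exact_mod_cast hD.near
    · exact mul_le_mul_of_nonneg_right (mul_le_mul_of_nonneg_left
        (pow_le_pow_left₀ (by linarith) (by linarith) 2) (by norm_num)) o0
  have c6 : lam * ∑ T ∈ powersetCard (s + 1) X, (h T : ℝ) ≤
      ∑ T ∈ powersetCard (s + 1) X, (kk a (h T) : ℝ) := by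
    rw [mul_sum]
    refine sum_le_sum fun T hT => ?_
    rcases Nat.eq_zero_or_pos (h T) with e | e
    · simp [e]
    · exact hz _ e (hD.hr T hT)
  have c7 : (μ : ℝ) + ∑ U ∈ powersetCard s X, ((q0 U : ℝ) + q1 U) + σ =
      ∑ T ∈ powersetCard (s + 1) X, (h T : ℝ) + D := by exact_mod_cast hD.size
  have c8 := hD.val
  have c9 := hP.cost
  have c10 := mul_le_mul_of_nonneg_right l0 (Nat.cast_nonneg (α := ℝ) σ)
  have c11 := congrArg (lam * ·) c7
  rw [sum_sub_distrib, ← mul_sum] at c3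
  refine ⟨fun _ => 0, fun _ => z, List.replicate (X.card.choose s) z ++ g, fun _ _ => z2,
    fun _ _ _ _ _ => Nat.zero_le _, fun x hx _ _ => ?_, ?_, ?_⟩
  · rcases List.mem_append.1 hx with e | e
    · exact (List.eq_of_mem_replicate e).le
    · exact g1 x e
  · simp [g2, add_comm]
  · rw [sk_append, sk_replicate]
    simp only [kk_zero, sum_const, card_powersetCard, smul_eq_mul]
    push_cast at c8 ⊢
    simp only [mul_add] at c11
    linarith

end Pool.Agent.MP_d50107_co.P61
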