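import Pool.Agent.MP_d50107_co.P61.Core
import Pool.Agent.MP_d50107_co.P61.Dom
import Pool.Agent.MP_d50107_co.P61.Cnt
import Pool.Agent.MP_d50107_co.P61.NumA
import Pool.Agent.MP_d50107_co.P61.Dense
import Pool.Agent.MP_d50107_co.P61.Asm
import Pool.Agent.MP_d50107_co.P61.Block
import Pool.Agent.MP_d50107_co.P61.Hil
import Pool.Agent.MP_d50107_co.P61.BudP
import Pool.Agent.MP_d50107_co.P61.Scale
import Pool.Agent.MP_d50107_co.P61.Shad
import Pool.Agent.MP_d50107_co.P61.SmallI
import Pool.Agent.MP_d50107_co.P61.Sig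
import Pool.Agent.MP_d50107_co.P61.Dat
import Pool.Agent.MP_d50107_co.P61.Rem
import Pool.Agent.MP_d50107_co.P61.Pack
import Pool.Agent.MP_d50107_co.P61.Unif
import Pool.Agent.MP_d50107_co.P61.FitP

/-! All rows are proved. -/

namespace Pool.Agent.MP_d50107_co.P61

theorem all : All where
  cn := cn
  na := na
  nc := nc
  dense := denseStmt dm
  up := upStmt cn (asmStmt cn)
  ratio := ratioStmt blockStmt
  hilLow := hilLowStmt
  hilUp := hilUpStmt
  sd := sd dm
  scale := scaleStmt cn nc bp (sd dm)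
  deep := deepStmt nc bp (sd dm) (scaleStmt cn nc bp (sd dm))
  shad := shadStmt dm cn
  smallI := smallIStmt dm cn na nc (asmStmt cn)
  largeI := largeIStmt cn blockStmt
  dat := datStmt cn (sd dm) (scaleStmt cn nc bp (sd dm)) (sigStmt dm cn)
  sel := selStmt na nc
  rem := remStmt na nc
  pack := packStmt nc
  unif := unifStmt nc
  fit := fitPStmt na nc

end Pool.Agent.MP_d50107_co.P61
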