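import Pool.Agent.MP_d50107_co.P61.Spec

/-! The missing sets over short tails. -/

namespace Pool.Agent.MP_d50107_co.P61

open Finset
open scoped FinsetFamily
open Pool.Agent.MP_d50107_co.H61

namespace Sig

theorem card_miss {w l : ℕ} {Z : Finset (Finset ℕ)} (h : Z ⊆ powersetCard l (range w)) :
    (powersetCard l (range w) \ Z).card = w.choose l - Z.card := by
  rw [card_sdiff_of_subset h, card_powersetCard, card_range]

theorem down (hD : DM) {k w l x : ℕ} {F : Finset (Finset ℕ)} {T : Finset ℕ} (hF : Shifted F)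
    (hk : ∀ A ∈ F, A.card = k) (hT : Out w T) (hx : w ≤ x) (hx' : x ∉ T)
    (hl : l + 1 + T.card = k) (hw : w ≤ 2 * l + 1) :
    w.choose (l + 1) - (fib w F T).card ≤ w.choose l - (fib w F (insert x T)).card := by
  rw [← card_miss (fib_subset hk hT hl), ← card_miss (fib_subset hk (hT.insert hx)
    (by rw [card_insert_of_notMem hx']; omega))]
  have h1 := hLY.down w (l + 1) (powersetCard (l + 1) (range w) \ fib w F T) sdiff_subset
  refine Nat.le_of_mul_le_mul_left (h1.trans (Nat.mul_le_mul (by omega)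
    (card_le_card fun g hg => ?_))) l.succ_pos
  obtain ⟨y, hy, h2⟩ := mem_shadow_iff_insert_mem.1 hg
  obtain ⟨h3, h4⟩ := mem_sdiff.1 h2
  obtain ⟨h5, h6⟩ := mem_powersetCard.1 h3
  rw [card_insert_of_notMem hy] at h6
  exact mem_sdiff.2 ⟨mem_powersetCard.2 ⟨(subset_insert _ _).trans h5, by omega⟩, fun h =>
    h4 (hD.step w x y F T g hF hT hx hx' h (mem_range.1 (h5 (mem_insert_self _ _))) hy)⟩

theorem last (hD : DM) {a t x : ℕ} {F : Finset (Finset ℕ)} {T : Finset ℕ} (hF : Shifted F)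
    (hk : ∀ A ∈ F, A.card = a + (t + 1) + 1) (hT : Out (2 * a + 1) T) (hx : 2 * a + 1 ≤ x)
    (hx' : x ∉ T) (ht : T.card = t) :
    (2 * a + 1).choose (a + (t + 1) + 1 - T.card) - (fib (2 * a + 1) F T).card ≤
      2 * p1 a F (insert x T) := by
  have h1 := down hD (l := a + 1) hF hk (hT.mono (Nat.le_succ _)) (by omega) hx' (by omega)
    (by omega)
  have h2 : fib (2 * a) F (insert x T) ⊆ fib (2 * a) F (insert (2 * a) T) := fun g hg => by
    obtain ⟨h3, h4⟩ := mem_fib.1 hg
    have h5 := hD.step (2 * a + 1) x (2 * a) F T g hF hT hx hx'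
      (mem_fib.2 ⟨h3.trans (range_mono (Nat.le_succ _)), h4⟩) (Nat.lt_succ_self _)
      fun h => absurd (mem_range.1 (h3 h)) (lt_irrefl _)
    exact mem_fib.2 ⟨h3, by rw [union_insert, ← insert_union]; exact (mem_fib.1 h5).2⟩
  have h3 := card_le_card h2
  rw [show a + (t + 1) + 1 - T.card = a + 1 + 1 by omega, Nat.choose_succ_succ', ← card_fib_split,
    p1]
  omega

theorem up {a t : ℕ} {F : Finset (Finset ℕ)} {T : Finset ℕ} (ha : 2 ≤ a)
    (hk : ∀ A ∈ F, A.card = a + (t + 1) + 1) (hT : Out (2 * a + 1) T) (ht : T.card = t) :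
    (2 * a + 1).choose (a + (t + 1) - T.card) - (fib (2 * a + 1) (∂ F) T).card ≤
      2 * ((2 * a + 1).choose (a + (t + 1) + 1 - T.card) - (fib (2 * a + 1) F T).card) := by
  have h1 := hLY.up (2 * a + 1) (a + 1)
    (powersetCard (a + 1) (range (2 * a + 1)) \ fib (2 * a + 1) (∂ F) T)
    (powersetCard (a + 1 + 1) (range (2 * a + 1)) \ fib (2 * a + 1) F T) sdiff_subset sdiff_subset
    fun Y hY x hx hx' => by
      obtain ⟨h2, h3⟩ := mem_sdiff.1 hY
      obtain ⟨h4, h5⟩ := mem_powersetCard.1 h2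
      refine mem_sdiff.2 ⟨mem_powersetCard.2 ⟨insert_subset (mem_range.2 hx) h4,
        by rw [card_insert_of_notMem hx', h5]⟩, fun h => h3 (mem_fib.2 ⟨h4,
          mem_shadow_iff_insert_mem.2 ⟨x, fun h6 => ?_, insert_union x Y T ▸ (mem_fib.1 h).2⟩⟩)⟩
      exact (mem_union.1 h6).elim hx' fun h7 => absurd (hT x h7) (not_le.2 hx)
  have h2 := le_card_sdiff (fib (2 * a + 1) (∂ F) T) (powersetCard (a + 1) (range (2 * a + 1)))
  rw [card_miss (fib_subset hk hT (by omega)), show 2 * a + 1 - (a + 1) = a by omega] at h1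
  rw [card_powersetCard, card_range] at h2
  rw [show a + (t + 1) + 1 - T.card = a + 1 + 1 by omega,
    show a + (t + 1) - T.card = a + 1 by omega]
  refine h2.trans (Nat.le_of_mul_le_mul_left (h1.trans ?_) (show 0 < a by omega))
  rw [← mul_assoc]
  exact Nat.mul_le_mul_right _ (by omega)

theorem dbl (hC : CN) {X : Finset ℕ} {i c : ℕ} {α β : Finset ℕ → ℕ}
    (h : ∀ T ⊆ X, T.card = i → ∀ x ∈ X, x ∉ T → α T ≤ β (insert x T))
    (hc : (i + 1) * c + i ≤ X.card) :
    c * ∑ T ∈ powersetCard i X, α T ≤ ∑ T ∈ powersetCard (i + 1) X, β T := by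
  refine Nat.le_of_mul_le_mul_left ?_ (show 0 < i + 1 by omega)
  rw [← hC.dbl, ← mul_assoc, mul_sum]
  refine sum_le_sum fun T hT => ?_
  obtain ⟨h1, h2⟩ := mem_powersetCard.1 hT
  refine le_trans (Nat.mul_le_mul_right _ ?_) (card_nsmul_le_sum _ _ _ fun x hx =>
    h T h1 h2 x (mem_sdiff.1 hx).1 (mem_sdiff.1 hx).2)
  rw [card_sdiff_of_subset h1]
  omega

theorem low_zero (X : Finset ℕ) : low X 0 = ∅ := by simp [low]

end Sig

open Sig in
theorem sigStmt (hD : DM) (hC : CN) : SigStmt := by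
  intro n a s F hF _ ha hn
  rcases s with _ | t
  · simp [sg, low_zero]
  obtain ⟨hk, -, hS⟩ := hF
  have hX : (Ico (2 * a + 1) n).card = n - (2 * a + 1) := Nat.card_Ico _ _
  have hO : ∀ T ⊆ Ico (2 * a + 1) n, Out (2 * a + 1) T := fun T hT y hy => (mem_Ico.1 (hT hy)).1
  have hx : ∀ x ∈ Ico (2 * a + 1) n, 2 * a + 1 ≤ x := fun x hx => (mem_Ico.1 hx).1
  rw [← hX, sg]
  replace hX : 4 * (t + 1) ≤ (Ico (2 * a + 1) n).card := by omega
  generalize Ico (2 * a + 1) n = X at *
  set m : Finset ℕ → ℕ := fun T =>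
    (2 * a + 1).choose (a + (t + 1) + 1 - T.card) - (fib (2 * a + 1) F T).card with hm
  set u : Finset ℕ → ℕ := fun T =>
    (2 * a + 1).choose (a + (t + 1) - T.card) - (fib (2 * a + 1) (∂ F) T).card with hu
  have h1 : ∀ j ≤ t, ∑ T ∈ low X (j + 1), m T ≤ 2 * ∑ T ∈ powersetCard j X, m T := by
    intro j hj
    induction j with
    | zero =>
      rw [hC.low_succ, low_zero, sum_empty]
      omega
    | succ j ih =>
      have h2 := dbl hC (X := X) (i := j) (c := 2) (α := m) (β := m) (fun T h1 h2 x h3 h4 => by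
        simp only [hm, card_insert_of_notMem h4, Nat.add_sub_add_right]
        rw [show a + (t + 1) + 1 - T.card = a + (t + 1) - T.card + 1 by omega]
        exact down hD hS hk (hO T h1) (hx x h3) h4 (by omega) (by omega)) (by omega)
      have := ih (by omega)
      rw [hC.low_succ]
      omega
  have h2 : ∀ j ≤ t, ∑ T ∈ low X j, u T ≤ ∑ T ∈ low X (j + 1), m T := by
    intro j hj
    induction j with
    | zero => simp [low_zero]
    | succ j ih =>
      have h2 := dbl hC (X := X) (i := j) (c := 1) (α := u) (β := m) (fun T h1 h2 x h3 h4 => by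
        simp only [hm, hu, card_insert_of_notMem h4, Nat.add_sub_add_right]
        exact Nat.sub_le_sub_left (card_le_card (hD.drop _ x F T (hx x h3) h4)) _) (by omega)
      have := ih (by omega)
      rw [hC.low_succ, hC.low_succ _ (j + 1)]
      omega
  refine ⟨fun E _ => ?_, ?_⟩
  · refine (Nat.mul_le_mul_left _ (h1 t le_rfl)).trans ?_
    rw [sdiff_eq_filter, sum_filter, show 4 * (t + 1) = 2 * (2 * (t + 1)) by ring, mul_left_comm,
      mul_assoc, mul_assoc, ← hC.dbl, mul_sum _ _ (_ - _)]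
    refine Nat.mul_le_mul_left _ ?_
    rw [mul_sum]
    refine sum_le_sum fun T hT => ?_
    obtain ⟨h3, h4⟩ := mem_powersetCard.1 hT
    rw [← sum_filter, mul_sum]
    refine le_trans (Nat.mul_le_mul_right _ ?_) (card_nsmul_le_sum _ _ _ fun x h => ?_)
    · have h5 := card_filter_add_card_filter_not (s := X \ T) fun x => insert x T ∈ E
      have h6 : ((X \ T).filter fun x => insert x T ∈ E).card ≤ E.card :=
        card_le_card_of_injOn (fun x => insert x T) (fun x h => (mem_filter.1 h).2)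
          fun x h y _ e => (insert_inj (mem_sdiff.1 (mem_filter.1 h).1).2).1 e
      rw [card_sdiff_of_subset h3] at h5
      omega
    · obtain ⟨h5, h6⟩ := mem_sdiff.1 (mem_filter.1 h).1
      exact last hD hS hk (hO T h3) (hx x h5) h6 h4
  · have h3 : ∑ T ∈ powersetCard t X, u T ≤ 2 * ∑ T ∈ powersetCard t X, m T := by
      rw [mul_sum]
      exact sum_le_sum fun T hT => up ha hk (hO T (mem_powersetCard.1 hT).1)
        (mem_powersetCard.1 hT).2
    have h4 := h2 t le_rfl
    have h5 := hC.low_succ X t m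
    have h6 := hC.low_succ X t u
    refine (sum_le_sum (g := fun T => (fib (2 * a + 1) (∂ F) T).card + u T)
      fun T _ => le_add_tsub).trans ?_
    rw [sum_add_distrib]
    change _ ≤ _ + 3 * ∑ T ∈ low X (t + 1), m T
    omega

end Pool.Agent.MP_d50107_co.P61
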