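import Pool.Agent.MP_d50107_co.P61.Defs
import Pool.Agent.MP_d50107_co.H61.TopAux
import Pool.Agent.MP_d50107_co.H61.Final
import Pool.Agent.MP_d50107_co.H61.Seg
import Pool.Agent.MP_d50107_co.H61.Arith
import Pool.Agent.MP_d50107_co.H61.Lift
import Pool.Agent.MP_d50107_co.H25.FitLin

/-!
Specification: the least shadow of an intersecting `k`-graph on `n ≥ 20000 k^20` points, all sizes.
Throughout `k = a + s + 1`, heads lie in `range (2a+1)`, tails in `Ico (2a+1) n`.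
-/

namespace Pool.Agent.MP_d50107_co.P61

open Finset
open scoped FinsetFamily
open Pool.Agent.MP_d50107_co.H54 (IsInit)
open Pool.Agent.MP_d50107_co.H61

noncomputable section

/-! ### Tails -/

/-- the subsets of `X` with fewer than `s` points -/
def low (X : Finset ℕ) (s : ℕ) : Finset (Finset ℕ) := X.powerset.filter fun T => T.card < s

/-- the subsets of `X` with at least `s` points -/
def upp (X : Finset ℕ) (s : ℕ) : Finset (Finset ℕ) := X.powerset.filter fun T => s ≤ T.card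

/-- `B` lies below `A` in the shifting order -/
def Dom (A B : Finset ℕ) : Prop :=
  ∀ x : ℕ, (A.filter fun y => y < x).card ≤ (B.filter fun y => y < x).card

/-- Moving points down. -/
structure DM : Prop where
  dom : ∀ (F : Finset (Finset ℕ)) (A B : Finset ℕ), Shifted F → A ∈ F → A.card = B.card →
    Dom A B → B ∈ F
  tail : ∀ (w : ℕ) (F : Finset (Finset ℕ)) (T T' : Finset ℕ), Shifted F → Out w T → Out w T' →
    T.card = T'.card → Dom T T' → fib w F T ⊆ fib w F T'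
  ico : ∀ (u : ℕ) (T : Finset ℕ), Out u T → Dom T (Ico u (u + T.card))
  far : ∀ (w u : ℕ) (F : Finset (Finset ℕ)) (T : Finset ℕ), Shifted F → w ≤ u → Out u T →
    fib w F T ⊆ fib w F (Ico u (u + T.card))
  lev : ∀ (K : ℕ) (F : Finset (Finset ℕ)) (A : Finset ℕ), Good K F → A ∈ F →
    ∃ j, j ≤ K ∧ j + 1 ≤ (A.filter fun y => y < 2 * j + 1).card
  cross : ∀ (K w : ℕ) (F : Finset (Finset ℕ)) (T z A : Finset ℕ), Good K F → w ≤ 2 * (K + 1) →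
    Out (3 * (K + 1)) T → z ∈ fib w F T → A ∈ F → ∃ x, x ∈ z ∧ x ∈ A
  step : ∀ (w x y : ℕ) (F : Finset (Finset ℕ)) (T g : Finset ℕ), Shifted F → Out w T → w ≤ x →
    x ∉ T → g ∈ fib w F (insert x T) → y < w → y ∉ g → insert y g ∈ fib w F T
  drop : ∀ (w x : ℕ) (F : Finset (Finset ℕ)) (T : Finset ℕ), w ≤ x → x ∉ T →
    fib w F (insert x T) ⊆ fib w (∂ F) T

/-- Counting over tails. -/
structure CN : Prop where
  sum_low : ∀ (X : Finset ℕ) (s : ℕ) (φ : ℕ → ℕ),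
    ∑ T ∈ low X s, φ T.card = ∑ i ∈ range s, φ i * X.card.choose i
  low_succ : ∀ (X : Finset ℕ) (s : ℕ) (φ : Finset ℕ → ℕ),
    ∑ T ∈ low X (s + 1), φ T = ∑ T ∈ low X s, φ T + ∑ T ∈ powersetCard s X, φ T
  total : ∀ (w n s : ℕ) (G : Finset (Finset ℕ)), (∀ A ∈ G, A ⊆ range n) →
    ∑ T ∈ low (Ico w n) s, (fib w G T).card + ∑ T ∈ upp (Ico w n) s, (fib w G T).card = G.card
  cardAF : ∀ n a s : ℕ, 2 * a + 1 ≤ n → (AF n (a + s) a).card =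
    ∑ T ∈ low (Ico (2 * a + 1) n) (s + 1), (2 * a + 1).choose (a + s + 1 - T.card)
  dbl : ∀ (X : Finset ℕ) (s : ℕ) (φ : Finset ℕ → ℕ),
    ∑ T ∈ powersetCard s X, ∑ x ∈ X \ T, φ (insert x T) =
      (s + 1) * ∑ T ∈ powersetCard (s + 1) X, φ T
  near : ∀ w u n s : ℕ, w ≤ u →
    (powersetCard s (Ico w n) \ powersetCard s (Ico u n)).card * (n - w) ≤
      (u - w) * s * (n - w).choose s
  split : ∀ (p n s : ℕ) (G : Finset (Finset ℕ)), p < n →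
    ∑ T ∈ upp (Ico (p + 1) n) s, (fib (p + 1) G T).card =
        ∑ T ∈ powersetCard s (Ico (p + 1) n), (fib p G T).card +
          ∑ P ∈ upp (Ico p n) (s + 1), (fib p G P).card ∧
      ∑ T ∈ powersetCard s (Ico (p + 1) n), (∂ (fib p G T)).card +
          ∑ P ∈ upp (Ico p n) (s + 1), (∂ (fib p G P)).card ≤
        ∑ T ∈ upp (Ico (p + 1) n) s, (fib (p + 1) (∂ G) T).card

/-! ### Numbers -/

/-- Tools for finite families of numbers. -/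
structure NA : Prop where
  class1 : ∀ {ι : Type} (S : Finset ι) (φ : ι → ℕ) (L : ℕ), (∀ i ∈ S, 1 ≤ φ i ∧ φ i < 2 ^ L) →
    ∃ θ, 1 ≤ θ ∧ S.card ≤ L * (S.filter fun i => θ ≤ φ i ∧ φ i < 2 * θ).card
  class2 : ∀ {ι : Type} (S : Finset ι) (φ : ι → ℕ) (L P : ℕ), 1 ≤ L →
    (∀ i ∈ S, φ i < 2 ^ L) → L * P ≤ (S.filter fun i => 1 ≤ φ i).card →
    ∃ θ, 1 ≤ θ ∧ P ≤ (S.filter fun i => θ ≤ φ i ∧ φ i < 2 * θ).card ∧
      (S.filter fun i => 2 * θ ≤ φ i).card ≤ L * P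
  assign : ∀ {ι : Type} (S : Finset ι) (v : List ℕ), v.length ≤ S.card →
    ∃ φ : ι → ℕ, (∀ i ∈ S, φ i = 0 ∨ φ i ∈ v) ∧
      ∀ ψ : ℕ → ℕ, ψ 0 = 0 → ∑ i ∈ S, ψ (φ i) = (v.map ψ).sum
  remove : ∀ {ι : Type} (S : Finset ι) (h : ι → ℕ) (a r d : ℕ), 2 ≤ a →
    r ≤ (2 * a - 2).choose a → (∀ i ∈ S, h i ≤ r) → d ≤ ∑ i ∈ S, h i →
    ∃ (g : ι → ℕ) (j : ℕ), (∀ i ∈ S, g i ≤ h i) ∧ ∑ i ∈ S, g i + d = ∑ i ∈ S, h i ∧ j ≤ r ∧ j ≤ d ∧
      a * ∑ i ∈ S, kk a (g i) + (a + 1) * (d - j) + a * cl (a - 1) j ≤ a * ∑ i ∈ S, kk a (h i)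

/-- Binomial estimates. -/
structure NC : Prop where
  win : ∀ l z : ℕ, 1 ≤ l → 2 ≤ z → ∃ x, l + 1 ≤ x ∧ (x - 1).choose l < z ∧ z ≤ x.choose l ∧
    2 * (x + 1).choose l ≤ z * ((x + 1) * x)
  block : ∀ i x j : ℕ, 1 ≤ i → (x - i) * j ≤ (i + 1) * cl i j + (x - i) * x.choose i
  nstar : ∀ (a : ℕ) (lam O : ℝ), 3 ≤ a → (a : ℝ) - 1 ≤ lam * ((a : ℝ) - 2) → lam ≤ (a : ℝ) - 1 →
    Osc a lam O → ∃ n : ℕ, 1 ≤ n ∧ n ≤ (2 * a - 2).choose a ∧ (kk a n : ℝ) ≤ lam * n ∧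
      lam * n ≤ 2 * (a : ℝ) ^ 2 * O
  c4 : ∀ a : ℕ, 1 ≤ a → CC a ≤ 4 * NN a
  c8 : ∀ a : ℕ, 1 ≤ a → CC a ≤ 8 * WW a
  c16 : ∀ a : ℕ, 2 ≤ a → CC a ≤ 16 * (2 * a - 2).choose a
  lin : ∀ u v s : ℕ, 1 ≤ s → u ≤ v → v * u.choose s ≤ u * v.choose s
  self : ∀ v s : ℕ, 1 ≤ s → s < v → v ≤ v.choose s

/-! ### The dense level -/

/-- A family of small excess has many dense fibres over far tails, all at one level. -/
def DenseStmt : Prop :=
  ∀ (n K e : ℕ) (F : Finset (Finset ℕ)), Good K F → (∀ A ∈ F, A ⊆ range n) →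
    (∂ F).card ≤ F.card + e → 512 * (K + 1) ^ 3 * e ≤ F.card →
    ∃ (a s : ℕ) (𝒯 : Finset (Finset ℕ)), a + s = K ∧
      𝒯 ⊆ powersetCard s (Ico (3 * (K + 1)) n) ∧
      (∀ T ∈ 𝒯, 64 * (K + 1) * (CC a - (fib (2 * a + 1) F T).card) ≤ CC a) ∧
      F.card ≤ 2 * (K + 1) * CC a * 𝒯.card

/-! ### Constructions -/

/-- A family with prescribed fibre sizes, every fibre an initial segment. -/
def AsmStmt : Prop :=
  ∀ (n w k s : ℕ) (f b : Finset ℕ → ℕ), w ≤ n → s ≤ k →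
    (∀ T ∈ low (Ico w n) s, f T ≤ w.choose (k - T.card) ∧ kk (k - T.card) (f T) ≤ b T) →
    (∀ T ∈ low (Ico w n) s, ∀ x ∈ T, f T ≤ b (T.erase x)) →
    ∃ G : Finset (Finset ℕ),
      (∀ A ∈ G, A ⊆ range n ∧ A.card = k ∧ (A.filter fun y => w ≤ y).card < s) ∧
      (∀ T ∈ low (Ico w n) s, IsInit (powersetCard (k - T.card) (range w)) (fib w G T) ∧
        (fib w G T).card = f T) ∧
      G.card = ∑ T ∈ low (Ico w n) s, f T ∧ (∂ G).card ≤ ∑ T ∈ low (Ico w n) s, b T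

/-- The two-level family built from tail functions. -/
def UpStmt : Prop :=
  ∀ (n a s : ℕ) (g M : Finset ℕ → ℕ), 1 ≤ a → 2 * (a + s + 1) ≤ n →
    (∀ U ∈ powersetCard s (Ico (2 * a + 1) n), M U ≤ NN a) →
    (∀ T ∈ powersetCard (s + 1) (Ico (2 * a + 1) n), ∀ U ∈ powersetCard s (Ico (2 * a + 1) n),
      Disjoint T U → g T ≤ M U) →
    ∃ G : Finset (Finset ℕ), (∀ A ∈ G, A ⊆ range n) ∧ (∀ A ∈ G, A.card = a + s + 1) ∧
      H54.Inter G ∧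
      G.card + ∑ U ∈ powersetCard s (Ico (2 * a + 1) n), M U =
        ∑ T ∈ low (Ico (2 * a + 1) n) (s + 1), (2 * a + 1).choose (a + s + 1 - T.card) +
          ∑ T ∈ powersetCard (s + 1) (Ico (2 * a + 1) n), g T ∧
      (∂ G).card ≤ ∑ T ∈ low (Ico (2 * a + 1) n) s, (2 * a + 1).choose (a + s - T.card) +
        ∑ U ∈ powersetCard s (Ico (2 * a + 1) n), kk (a + 1) (CC a - M U) +
          ∑ T ∈ powersetCard (s + 1) (Ico (2 * a + 1) n), kk a (g T)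

/-- Adding a product block on `v` new points. -/
def BlockStmt : Prop :=
  ∀ (n a s y v : ℕ) (G L : Finset (Finset ℕ)), 1 ≤ s → y ≤ 2 * a + 1 → 2 * a + 1 ≤ n →
    G ⊆ AF n (a + s) a → IsInit (AF n (a + s) a) L →
    L.card ≤ G.card + y.choose (a + 1) * v.choose s →
    (∂ L).card ≤ (∂ G).card + y.choose a * v.choose s + y.choose (a + 1) * v.choose (s - 1)

/-- The excess of the first candidate is small. -/
def RatioStmt : Prop :=
  ∀ (n K j : ℕ) (L : Finset (Finset ℕ)), j + 2 ≤ K → 20000 * (K + 1) ^ 20 ≤ n →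
    IsInit (AF n K j) L → (AF n K (j + 1)).card < L.card →
    ∃ e, (∂ L).card ≤ L.card + e ∧ 65 * (K + 1) ^ 9 * e ≤ L.card

/-- From tail functions to sequences. -/
def HilLowStmt : Prop :=
  ∀ (s : ℕ) (X : Finset ℕ) (g M : Finset ℕ → ℕ), 2 * s + 1 ≤ X.card →
    (∀ T ∈ powersetCard (s + 1) X, ∀ U ∈ powersetCard s X, Disjoint T U → g T ≤ M U) →
    ∃ g' M' : ℕ → ℕ,
      (∀ i < X.card.choose (s + 1), ∀ j < kkDown (X.card - 2 * s - 1) (X.card - s - 1) (i + 1),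
        g' i ≤ M' j) ∧
      (∀ ψ : ℕ → ℕ, ∑ i ∈ range (X.card.choose (s + 1)), ψ (g' i) =
        ∑ T ∈ powersetCard (s + 1) X, ψ (g T)) ∧
      (∀ ψ : ℕ → ℕ, ∑ j ∈ range (X.card.choose s), ψ (M' j) = ∑ U ∈ powersetCard s X, ψ (M U)) ∧
      ∀ j < X.card.choose s, ∃ U ∈ powersetCard s X, M' j = M U

/-- Ranks of the tails. -/
def HilUpStmt : Prop :=
  ∀ w N s : ℕ, 2 * s + 1 ≤ N → ∃ rk rk' : Finset ℕ → ℕ,
    Set.BijOn rk (powersetCard (s + 1) (Ico w (w + N)) : Finset (Finset ℕ))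
      (range (N.choose (s + 1)) : Finset ℕ) ∧
    Set.BijOn rk' (powersetCard s (Ico w (w + N)) : Finset (Finset ℕ))
      (range (N.choose s) : Finset ℕ) ∧
    ∀ T ∈ powersetCard (s + 1) (Ico w (w + N)), ∀ U ∈ powersetCard s (Ico w (w + N)),
      Disjoint T U → rk' U < kkDown (N - 2 * s - 1) (N - s - 1) (rk T + 1)

/-! ### Budgets -/

/-- a family of small ratio whose extensions meet every member of `Z` -/
def SeedP (a : ℕ) (Z : Finset (Finset ℕ)) (lam : ℝ) : Prop :=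
  ∃ (j : ℕ) (ρ : Finset (Finset ℕ)), j + 1 ≤ a ∧ ρ ⊆ powersetCard j (range (2 * a - 2)) ∧
    ρ.Nonempty ∧ ((∂ ρ).card : ℝ) ≤ lam * ρ.card ∧
    ∀ g ∈ ρ, ∀ B : Finset ℕ, g ⊆ B → B ⊆ range (2 * a - 1) → B.card + 1 = a →
      ∀ u, u ≤ 2 * a → u ∉ B → ∀ z ∈ Z, ¬ Disjoint z (insert u B)

/-- The budgets of a fibre that meets the extensions of a seed. -/
structure BP : Prop where
  one : ∀ (a : ℕ) (Z : Finset (Finset ℕ)) (lam c : ℝ), 3 ≤ a →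
    Z ⊆ powersetCard (a + 1) (range (2 * a + 1)) → Shifted Z → 0 ≤ c → c ≤ 1 → 1 ≤ lam →
    Stop lam lam c (a - 1) → SeedP a Z lam →
    (2 * a).choose (a + 1) ≤ (fib (2 * a) Z ∅).card + WW a →
    c * catalan (a - 1) + (2 * a).choose a - lam * (2 * a).choose (a + 1) ≤
      ((∂ (fib (2 * a) Z ∅)).card : ℝ) - lam * (fib (2 * a) Z ∅).card
  two : ∀ (a : ℕ) (Z : Finset (Finset ℕ)) (lam c : ℝ), 3 ≤ a →
    Z ⊆ powersetCard (a + 1) (range (2 * a + 1)) → Shifted Z → 0 ≤ c → c ≤ 1 → 1 ≤ lam →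
    Stop lam lam c (a - 1) → SeedP a Z lam → NN a ≤ (fib (2 * a) Z {2 * a}).card →
    c * ((catalan a : ℝ) + catalan (a - 1)) + (2 * a).choose (a + 1) - lam * (2 * a).choose a ≤
      ((∂ (fib (2 * a) Z {2 * a})).card : ℝ) - lam * (fib (2 * a) Z {2 * a}).card

/-! ### The numbers of a family -/

/-- the least far tail -/
def T0 (a s : ℕ) : Finset ℕ := Ico (3 * (a + s + 1)) (3 * (a + s + 1) + s)

/-- missing sets in the fibre over `U` -/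
def ms (a : ℕ) (F : Finset (Finset ℕ)) (U : Finset ℕ) : ℕ := CC a - (fib (2 * a + 1) F U).card

/-- missing sets that contain the point `2a` -/
def p0 (a : ℕ) (F : Finset (Finset ℕ)) (U : Finset ℕ) : ℕ :=
  (2 * a).choose a - (fib (2 * a) F (insert (2 * a) U)).card

/-- missing sets that avoid the point `2a` -/
def p1 (a : ℕ) (F : Finset (Finset ℕ)) (U : Finset ℕ) : ℕ :=
  (2 * a).choose (a + 1) - (fib (2 * a) F U).card

/-- missing sets in the fibre of the shadow -/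
def gm (a : ℕ) (F : Finset (Finset ℕ)) (U : Finset ℕ) : ℕ :=
  CC a - (fib (2 * a + 1) (∂ F) U).card

/-- size of a fibre inside `range (2a)` -/
def hh (a : ℕ) (F : Finset (Finset ℕ)) (T : Finset ℕ) : ℕ := (fib (2 * a) F T).card

/-- missing sets over short tails -/
def sg (n a s : ℕ) (F : Finset (Finset ℕ)) : ℕ :=
  ∑ T ∈ low (Ico (2 * a + 1) n) s,
    ((2 * a + 1).choose (a + s + 1 - T.card) - (fib (2 * a + 1) F T).card)

/-- members with at most `a` points below `2a+1` -/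
def dd (n a s : ℕ) (F : Finset (Finset ℕ)) : ℕ :=
  ∑ T ∈ upp (Ico (2 * a + 1) n) (s + 1), (fib (2 * a + 1) F T).card

/-- their share of the shadow -/
def cd (n a s : ℕ) (F : Finset (Finset ℕ)) : ℕ :=
  ∑ T ∈ upp (Ico (2 * a + 1) n) (s + 1), (fib (2 * a + 1) (∂ F) T).card

/-- members with at most `a - 1` points below `2a` -/
def dl (n a s : ℕ) (F : Finset (Finset ℕ)) : ℕ :=
  ∑ P ∈ upp (Ico (2 * a) n) (s + 2), (fib (2 * a) F P).card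

/-- their share of the shadow -/
def cdl (n a s : ℕ) (F : Finset (Finset ℕ)) : ℕ :=
  ∑ P ∈ upp (Ico (2 * a) n) (s + 2), (∂ (fib (2 * a) F P)).card

/-- Seeds and crossing fibres. -/
structure SD : Prop where
  seed : ∀ (a s : ℕ) (F : Finset (Finset ℕ)) (P U : Finset ℕ) (lam : ℝ), 2 ≤ a →
    Good (a + s) F → Out (2 * a) P → s + 2 ≤ P.card → (fib (2 * a) F P).Nonempty →
    ((∂ (fib (2 * a) F P)).card : ℝ) ≤ lam * (fib (2 * a) F P).card →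
    Out (3 * (a + s + 1)) U → SeedP a (fib (2 * a + 1) F U) lam
  pos : ∀ (a s : ℕ) (F : Finset (Finset ℕ)) (P U : Finset ℕ), 1 ≤ a → Good (a + s) F →
    Out (2 * a) P → s + 2 ≤ P.card → (fib (2 * a) F P).Nonempty → Out (3 * (a + s + 1)) U →
    U.card = s → 1 ≤ p1 a F U
  hx : ∀ (a s : ℕ) (F : Finset (Finset ℕ)) (T U : Finset ℕ), Good (a + s) F →
    Out (2 * a + 1) T → T.card = s + 1 → Out (2 * a + 1) U → U.card = s → Disjoint T U →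
    hh a F T ≤ p0 a F U
  hr : ∀ (a s : ℕ) (F : Finset (Finset ℕ)) (T : Finset ℕ), Good (a + s) F →
    Out (2 * a + 1) T → T.card = s + 1 → hh a F T ≤ p0 a F (T0 a s)
  fr : ∀ (a s : ℕ) (F : Finset (Finset ℕ)) (U : Finset ℕ), Good (a + s) F →
    Out (3 * (a + s + 1)) U → U.card = s →
    p0 a F (T0 a s) ≤ p0 a F U ∧ ms a F (T0 a s) ≤ ms a F U
  add : ∀ (a s : ℕ) (F : Finset (Finset ℕ)) (U : Finset ℕ), Good (a + s) F →
    Out (2 * a + 1) U → U.card = s → p0 a F U + p1 a F U = ms a F U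
  maj : ∀ (n a s : ℕ) (F : Finset (Finset ℕ)), Good (a + s) F → (∀ A ∈ F, A ⊆ range n) →
    ms a F (T0 a s) = 0 → F ⊆ AF n (a + s) a
  inner : ∀ (a : ℕ) (F : Finset (Finset ℕ)) (U : Finset ℕ),
    fib (2 * a) (fib (2 * a + 1) F U) ∅ = fib (2 * a) F U ∧
      fib (2 * a) (fib (2 * a + 1) F U) {2 * a} = fib (2 * a) F (insert (2 * a) U)

/-- The standing hypotheses. -/
structure Ctx (n a s e : ℕ) (F 𝒯 : Finset (Finset ℕ)) : Prop where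
  good : Good (a + s) F
  sub : ∀ A ∈ F, A ⊆ range n
  a4 : 4 ≤ a
  s1 : 1 ≤ s
  big : 20000 * (a + s + 1) ^ 20 ≤ n
  exc : (∂ F).card ≤ F.card + e
  small : 65 * (a + s + 1) ^ 9 * e ≤ F.card
  tsub : 𝒯 ⊆ powersetCard s (Ico (3 * (a + s + 1)) n)
  dense : ∀ U ∈ 𝒯, 64 * (a + s + 1) * ms a F U ≤ CC a
  mass : F.card ≤ 2 * (a + s + 1) * CC a * 𝒯.card
  ne : 𝒯.Nonempty
  r1 : 1 ≤ ms a F (T0 a s)
  r2 : 64 * (a + s + 1) * ms a F (T0 a s) ≤ CC a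

/-- The ratio of the low fibres and the scale of the missing part. -/
def ScaleStmt : Prop :=
  ∀ (n a s e : ℕ) (F 𝒯 : Finset (Finset ℕ)), Ctx n a s e F 𝒯 →
    (∀ P ∈ upp (Ico (2 * a) n) (s + 2),
      (a - 1) * (fib (2 * a) F P).card ≤ (a - 2) * (∂ (fib (2 * a) F P)).card) ∧
    ∃ τ, 1 ≤ τ ∧ τ + 1 ≤ a ∧ a * dd n a s F ≤ τ * cd n a s F ∧
      (3 ≤ τ → (a + τ - 3).choose a ≤ (τ - 2) * ms a F (T0 a s))

/-- The dense tails are many and have a small shadow. -/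
def ShadStmt : Prop :=
  ∀ (n a s e : ℕ) (F 𝒯 : Finset (Finset ℕ)), Ctx n a s e F 𝒯 → dd n a s F ≤ cd n a s F →
    65 * (a + s + 1) ^ 7 * (∂ 𝒯).card ≤ 2 * 𝒯.card ∧
      (32 * (a + s + 1) ^ 7).choose s < 𝒯.card ∧
      cd n a s F ≤ dd n a s F + e

/-- Few low members: the holes are concentrated. -/
def SmallIStmt : Prop :=
  ∀ (n a s e θ : ℕ) (F 𝒯 𝒞 L : Finset (Finset ℕ)), Ctx n a s e F 𝒯 →
    IsInit (AF n (a + s) a) L → L.card = F.card → dd n a s F ≤ cd n a s F → 𝒞 ⊆ 𝒯 → 1 ≤ θ →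
    (∀ U ∈ 𝒞, θ ≤ ms a F U ∧ ms a F U < 2 * θ) → 8 * (a + s + 1) ^ 3 ≤ 𝒞.card →
    4 * (a + s + 1) * (∂ 𝒞).card ≤ 𝒞.card → dd n a s F ≤ ∑ U ∈ 𝒞, ms a F U →
    (∂ L).card ≤ (∂ F).card

/-- Many low members: a block on new points. -/
def LargeIStmt : Prop :=
  ∀ (n a s e τ : ℕ) (F 𝒯 L : Finset (Finset ℕ)), Ctx n a s e F 𝒯 →
    IsInit (AF n (a + s) a) L → L.card = F.card → 1 ≤ τ → τ + 1 ≤ a →
    a * dd n a s F ≤ τ * cd n a s F →
    (3 ≤ τ → (a + τ - 3).choose a ≤ (τ - 2) * ms a F (T0 a s)) →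
    2 * (a + s + 1) ^ 4 * ms a F (T0 a s) * (4 * (a + s + 1) ^ 2).choose s < dd n a s F →
    (∂ L).card ≤ (∂ F).card

/-! ### The two-level range -/

/-- two-level data on the tails with net size `μ` and net shadow at most `v` -/
def Mix (a s : ℕ) (X : Finset ℕ) (μ : ℕ) (v : ℝ) : Prop :=
  ∃ g M : Finset ℕ → ℕ, (∀ U ∈ powersetCard s X, M U ≤ NN a) ∧
    (∀ T ∈ powersetCard (s + 1) X, ∀ U ∈ powersetCard s X, Disjoint T U → g T ≤ M U) ∧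
    μ + ∑ U ∈ powersetCard s X, M U = ∑ T ∈ powersetCard (s + 1) X, g T ∧
    ((∑ T ∈ powersetCard (s + 1) X, kk a (g T) : ℕ) : ℝ) -
      ((∑ U ∈ powersetCard s X, cl a (M U) : ℕ) : ℝ) ≤ v

/-- the same with a list of further pieces that have no tail yet -/
def MixV (a s : ℕ) (X : Finset ℕ) (μ : ℕ) (v : ℝ) : Prop :=
  ∃ (g M : Finset ℕ → ℕ) (l : List ℕ), (∀ U ∈ powersetCard s X, M U ≤ NN a) ∧
    (∀ T ∈ powersetCard (s + 1) X, ∀ U ∈ powersetCard s X, Disjoint T U → g T ≤ M U) ∧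
    (∀ x ∈ l, ∀ U ∈ powersetCard s X, x ≤ M U) ∧
    μ + ∑ U ∈ powersetCard s X, M U = ∑ T ∈ powersetCard (s + 1) X, g T + l.sum ∧
    ((∑ T ∈ powersetCard (s + 1) X, kk a (g T) : ℕ) : ℝ) + (sk a l : ℝ) -
      ((∑ U ∈ powersetCard s X, cl a (M U) : ℕ) : ℝ) ≤ v

/-- Every piece finds a tail. -/
def FitPStmt : Prop :=
  ∀ (a s μ : ℕ) (X : Finset ℕ) (v : ℝ), 4 ≤ a → 1 ≤ s → 1000 * (a + s + 1) ^ 6 ≤ X.card →
    μ ≤ CC a * X.card.choose s → MixV a s X μ v → Mix a s X μ v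

/-- The numbers read off from a family. -/
structure Dat (a s : ℕ) (X : Finset ℕ) (Fr : Finset (Finset ℕ)) (h q0 q1 γ : Finset ℕ → ℕ)
    (r r0 μ σ D cD : ℕ) (v : ℝ) : Prop where
  a4 : 4 ≤ a
  s1 : 1 ≤ s
  big : 1000 * (a + s + 1) ^ 6 ≤ X.card
  sub : Fr ⊆ powersetCard s X
  near : (powersetCard s X \ Fr).card * X.card ≤ 3 * (a + s + 1) ^ 2 * X.card.choose s
  dense : 64 * (a + s + 1) * r ≤ CC a
  r1 : 1 ≤ r
  r2 : r0 ≤ r
  size : μ + ∑ U ∈ powersetCard s X, (q0 U + q1 U) + σ = ∑ T ∈ powersetCard (s + 1) X, h T + D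
  val : ((∑ T ∈ powersetCard (s + 1) X, kk a (h T) : ℕ) : ℝ) + cD -
    ((∑ U ∈ powersetCard s X, γ U : ℕ) : ℝ) - 3 * σ ≤ v
  hr : ∀ T ∈ powersetCard (s + 1) X, h T ≤ r0
  hx : ∀ T ∈ powersetCard (s + 1) X, ∀ U ∈ powersetCard s X, Disjoint T U → h T ≤ q0 U
  fr : ∀ U ∈ Fr, r0 ≤ q0 U
  g0 : ∀ U ∈ powersetCard s X, γ U ≤ q0 U + q1 U
  g1 : ∀ U ∈ powersetCard s X, γ U ≤ cl a (q0 U + q1 U)
  g2 : ∀ U ∈ powersetCard s X, γ U ≤ cl (a - 1) (q1 U) + cl a (q0 U)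
  sig : ∀ E ⊆ powersetCard s X,
    (X.card - s - E.card) * σ ≤ 4 * s * ∑ U ∈ powersetCard s X \ E, q1 U
  cost : (a + 1) * D ≤ a * cD

/-- The budgets when some member has at most `a - 1` points below `2a`. -/
structure Deep (a : ℕ) (Fr : Finset (Finset ℕ)) (q0 q1 γ : Finset ℕ → ℕ) (r D cD : ℕ)
    (lam O B : ℝ) : Prop where
  l1 : (a : ℝ) - 1 ≤ lam * ((a : ℝ) - 2)
  l2 : lam ≤ (a : ℝ) - 1
  cost : lam * D ≤ cD
  osc : Osc a lam O
  cand : Cand a lam B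
  pos : ∀ U ∈ Fr, 1 ≤ q1 U
  bA : ∀ U ∈ Fr, q1 U ≤ WW a → (γ U : ℝ) ≤ lam * q1 U - O + cl a (q0 U)
  bB : ∀ U ∈ Fr, q1 U ≤ WW a → q0 U ≤ NN a → (γ U : ℝ) ≤ lam * (q0 U + q1 U) - (B + O)
  rA : O ≤ lam * r
  rB : B + O ≤ lam * r

/-- The numbers of a family larger than `A_a`. -/
def DatStmt : Prop :=
  ∀ (n a s e μ : ℕ) (F 𝒯 : Finset (Finset ℕ)), Ctx n a s e F 𝒯 →
    (AF n (a + s) a).card + μ = F.card →
    Dat a s (Ico (2 * a + 1) n) (powersetCard s (Ico (3 * (a + s + 1)) n)) (hh a F) (p0 a F)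
      (p1 a F) (gm a F) (ms a F (T0 a s)) (p0 a F (T0 a s)) μ (sg n a s F) (dl n a s F)
      (cdl n a s F)
      (((∂ F).card : ℝ) - ((∑ T ∈ low (Ico (2 * a + 1) n) (s + 1),
        (2 * a + 1).choose (a + s - T.card) : ℕ) : ℝ))

/-- The bound for the missing sets over short tails. -/
def SigStmt : Prop :=
  ∀ (n a s : ℕ) (F : Finset (Finset ℕ)), Good (a + s) F → (∀ A ∈ F, A ⊆ range n) → 2 ≤ a →
    2 * a + 1 + 4 * s ≤ n →
    (∀ E ⊆ powersetCard s (Ico (2 * a + 1) n), (n - (2 * a + 1) - s - E.card) * sg n a s F ≤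
      4 * s * ∑ U ∈ powersetCard s (Ico (2 * a + 1) n) \ E, p1 a F U) ∧
    ∑ T ∈ low (Ico (2 * a + 1) n) s, (2 * a + 1).choose (a + s - T.card) ≤
      ∑ T ∈ low (Ico (2 * a + 1) n) s, (fib (2 * a + 1) (∂ F) T).card + 3 * sg n a s F

/-- The budgets of a family. -/
def DeepStmt : Prop :=
  ∀ (n a s e : ℕ) (F 𝒯 : Finset (Finset ℕ)), Ctx n a s e F 𝒯 → 1 ≤ dl n a s F →
    ∃ lam O B : ℝ, Deep a (powersetCard s (Ico (3 * (a + s + 1)) n)) (p0 a F) (p1 a F) (gm a F)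
      (ms a F (T0 a s)) (dl n a s F) (cdl n a s F) lam O B

/-- the tails with many missing sets -/
def Hv (a s r : ℕ) (X : Finset ℕ) (q0 q1 : Finset ℕ → ℕ) : Finset (Finset ℕ) :=
  (powersetCard s X).filter fun U => 8 * (a + 1) * r ≤ q0 U + q1 U

/-- the number of sets added when the tails in `S` and the heavy tails are filled -/
def Fill (a s r : ℕ) (X : Finset ℕ) (q0 q1 : Finset ℕ → ℕ) (S : Finset (Finset ℕ)) : ℕ :=
  ∑ U ∈ S, q1 U + ∑ U ∈ Hv a s r X q0 q1, (q0 U + q1 U - r)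

/-- `S` holds all light tails but a few -/
def Most (a s r : ℕ) (X : Finset ℕ) (q0 q1 : Finset ℕ → ℕ) (S : Finset (Finset ℕ)) : Prop :=
  S ⊆ powersetCard s X \ Hv a s r X q0 q1 ∧
    ((powersetCard s X \ Hv a s r X q0 q1) \ S).card ≤ 16 * (a + s + 1) ^ 4

/-- there is a heavy tail, or the pieces in `S` are small compared with their sum -/
def Fine (a s r : ℕ) (X : Finset ℕ) (q0 q1 : Finset ℕ → ℕ) (S : Finset (Finset ℕ)) : Prop :=
  (Hv a s r X q0 q1).Nonempty ∨ ∃ x, a - 1 ≤ x ∧ x ≤ 2 * a - 2 ∧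
    (∀ U ∈ S, q1 U ≤ x.choose (a - 1)) ∧ 2 * a * (x + 1).choose (a - 1) ≤ ∑ U ∈ S, q1 U

/-- The choice of the tails to fill. -/
def SelStmt : Prop :=
  ∀ (a s r : ℕ) (X : Finset ℕ) (q0 q1 : Finset ℕ → ℕ), 4 ≤ a → 64 * (a + s + 1) * r ≤ CC a →
    ((Hv a s r X q0 q1).Nonempty ∨
      16 * (a + s + 1) ^ 4 ≤ ((powersetCard s X).filter fun U => 1 ≤ q1 U).card) →
    ∃ S, Most a s r X q0 q1 S ∧ Fine a s r X q0 q1 S

/-- Filling gives enough room: pieces are removed. -/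
def RemStmt : Prop :=
  ∀ (a s : ℕ) (X : Finset ℕ) (Fr S : Finset (Finset ℕ)) (h q0 q1 γ : Finset ℕ → ℕ)
    (r r0 μ σ D cD : ℕ) (v : ℝ), Dat a s X Fr h q0 q1 γ r r0 μ σ D cD v →
    Most a s r X q0 q1 S → Fine a s r X q0 q1 S → D ≤ Fill a s r X q0 q1 S + σ → Mix a s X μ v

/-- Not enough room, and a good piece size below `r0`: new pieces are packed. -/
def PackStmt : Prop :=
  ∀ (a s : ℕ) (X : Finset ℕ) (Fr S : Finset (Finset ℕ)) (h q0 q1 γ : Finset ℕ → ℕ)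
    (r r0 μ σ D cD : ℕ) (v lam O B : ℝ), Dat a s X Fr h q0 q1 γ r r0 μ σ D cD v →
    Deep a Fr q0 q1 γ r D cD lam O B → Most a s r X q0 q1 S →
    Fill a s r X q0 q1 S + σ ≤ D → (∃ z : ℕ, 1 ≤ z ∧ z ≤ r0 ∧ (kk a z : ℝ) ≤ lam * z) →
    MixV a s X μ v

/-- No good piece size below `r0`: the uniform candidate. -/
def UnifStmt : Prop :=
  ∀ (a s : ℕ) (X : Finset ℕ) (Fr : Finset (Finset ℕ)) (h q0 q1 γ : Finset ℕ → ℕ)
    (r r0 μ σ D cD : ℕ) (v lam O B : ℝ), Dat a s X Fr h q0 q1 γ r r0 μ σ D cD v →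
    Deep a Fr q0 q1 γ r D cD lam O B → (∀ z : ℕ, 1 ≤ z → z ≤ r0 → lam * z ≤ (kk a z : ℝ)) →
    MixV a s X μ v

end

end Pool.Agent.MP_d50107_co.P61
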